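import Pool.Agent.H845.AscTS

set_option autoImplicit false

namespace Pool.Agent.H845.Asc

open A3

theorem range_comp_eq {ι α β : Type} (φ : α → β) (x y : ι → α) (h : Set.range x = Set.range y) :
    Set.range (fun i => φ (x i)) = Set.range fun i => φ (y i) := by
  have : ∀ u : ι → α, Set.range (fun i => φ (u i)) = φ '' Set.range u := by
    intro u; ext w; simp
  rw [this, this, h]

theorem hat_ts {ι : Type} {K : ℕ} (f : (ι → A3) → A3)
    (hts : ∀ x y : ι → A3, Set.range x = Set.range y → f x = f y)
    (u v : ι → V K) (h : Set.range u = Set.range v) : hat f u = hat f v := by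
  have key : ∀ φ : V K → A3, f (fun i => φ (u i)) = f fun i => φ (v i) :=
    fun φ => hts _ _ (range_comp_eq φ u v h)
  have hl : hlev f u = hlev f v := by
    unfold hlev
    congr 1
    ext l
    show f _ = p ↔ f _ = p
    rw [key fun w => if lev w = l then p else z]
  unfold hat
  rw [hl]
  rw [key fun w => if lev w = hlev f v then av w else z,
    key fun w => if lev w = hlev f v ∧ pb w = true then p else z,
    key fun w => if lev w = hlev f v ∧ qb w = true then p else z]
  have : (fun j => f fun i => if lev (u i) = hlev f v then rv (u i) j else z) =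
      fun j => f fun i => if lev (v i) = hlev f v then rv (v i) j else z := by
    funext j
    exact key fun w => if lev w = hlev f v then rv w j else z
  rw [this]

/-- number of coordinates -/
noncomputable def KK (i : ℕ) : ℕ := Fintype.card (Kap (i + 2))

noncomputable def ek (i : ℕ) : Kap (i + 2) ≃ Fin (KK i) := Fintype.equivFin _

def RR (i : ℕ) (r : Fin (KK i) → A3) : Prop := Rel (i + 2) fun k => r (ek i k)

noncomputable def kk (i : ℕ) : ℕ := Fintype.card (V (KK i))

noncomputable def ev (i : ℕ) : V (KK i) ≃ Fin (kk i) := Fintype.equivFin _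

/-- the `i`-th digraph of the chain -/
noncomputable def GG (i : ℕ) : Digraph (Fin (kk i)) where
  Adj x y := GAdj (RR i) ((ev i).symm x) ((ev i).symm y)

theorem kk_pos (i : ℕ) : 0 < kk i := by
  unfold kk
  have : Nonempty (V (KK i)) := ⟨mk 0 z (fun _ => z) false false⟩
  exact Fintype.card_pos

/-- transport of an operation to the vertex type -/
noncomputable def conj {ι : Type} (i : ℕ) (F : (ι → Fin (kk i)) → Fin (kk i))
    (u : ι → V (KK i)) : V (KK i) := (ev i).symm (F fun j => ev i (u j))

theorem conj_pol {ι : Type} (i : ℕ) (F : (ι → Fin (kk i)) → Fin (kk i))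
    (hF : Pol (GG i).Adj F) : Pol (GAdj (RR i)) (conj i F) := by
  intro x y hxy
  apply hF
  intro j
  show GAdj (RR i) _ _
  simpa using hxy j

theorem good_down {ι : Type} (i : ℕ) (F : (ι → Fin (kk i)) → Fin (kk i))
    (hF : Pol (GG i).Adj F) : Good (i + 2) (down (conj i F)) := by
  apply good_of_rel
  intro r hr
  have h := down_pres (RR i) (conj i F) (conj_pol i F hF) (fun a j => r a ((ek i).symm j))
    (by
      intro a
      show Rel (i + 2) _
      simpa using hr a)
  have h' : Rel (i + 2) _ := h
  simpa using h'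

theorem hat_good {ι : Type} (i : ℕ) (f : (ι → A3) → A3) (hf : Good (i + 2) f) :
    Pol (GAdj (RR i)) (hat f) := by
  apply hat_pol _ f hf.base
  intro r hr
  exact hf.rel (fun a k => r a (ek i k)) hr

theorem ppc_succ (i : ℕ) : PPC (kk i) (GG i) (kk (i + 1)) (GG (i + 1)) := by
  apply ppc_of_map _ _ _ _ (kk_pos i)
    (fun x => ev (i + 1) (hat (down (conj i x)) fun a => (ev (i + 1)).symm a))
  intro ι _ F hF a b hab
  have h1 : Good (i + 1 + 2) (down (conj i F)) := (good_down i F hF).succ
  have h2 := hat_good (i + 1) _ h1 (fun j => (ev (i + 1)).symm (a j))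
    (fun j => (ev (i + 1)).symm (b j)) (fun j => hab j)
  show GAdj (RR (i + 1)) _ _
  rw [Equiv.symm_apply_apply, Equiv.symm_apply_apply]
  exact h2

theorem ts_succ (i : ℕ) : HasTS (GG (i + 1)).Adj (i + 2) := by
  have h1 : Good (i + 1 + 2) (tsop : (Fin (i + 2) → A3) → A3) := tsop_good (i + 2) (by omega)
  refine ⟨fun x => ev (i + 1) (hat tsop fun a => (ev (i + 1)).symm (x a)), ?_, ?_⟩
  · intro x y hxy
    show GAdj (RR (i + 1)) _ _
    rw [Equiv.symm_apply_apply, Equiv.symm_apply_apply]
    exact hat_good (i + 1) _ h1 _ _ fun j => hxy j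
  · intro x y hxy
    show ev (i + 1) _ = ev (i + 1) _
    congr 1
    exact hat_ts _ tsop_range _ _ (range_comp_eq _ x y hxy)

theorem no_ts (i : ℕ) : ¬ HasTS (GG i).Adj (i + 2) := by
  rintro ⟨t, ht, hts⟩
  apply not_ts (good_down i t ht)
  intro x y hxy
  unfold down conj
  congr 1
  congr 1
  exact hts _ _ (range_comp_eq (fun a => ev i (bot a)) x y hxy)

theorem not_ppc (i : ℕ) : ¬ PPC (kk (i + 1)) (GG (i + 1)) (kk i) (GG i) :=
  fun h => no_ts i (hasTS_of_ppc _ _ _ _ _ h (ts_succ i))

end Pool.Agent.H845.Asc
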