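import Pool.Agent.H845.AscPPC

/-! A finite balanced digraph which has the same minor conditions as a relation on the
three element set `{m, z, p}` (with a zero-ignoring Horn condition). -/

set_option autoImplicit false

namespace Pool.Agent.H845.Asc

/-- the three element domain -/
inductive A3 : Type
  | m | z | p
  deriving DecidableEq

open A3

instance : Fintype A3 := ⟨{m, z, p}, fun x => by cases x <;> simp⟩

/-- the vertex type -/
abbrev V (K : ℕ) : Type := Fin (K + 3) × A3 × (Fin K → A3) × Bool × Bool

variable {K : ℕ}

def lev (u : V K) : ℕ := u.1.val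
def av (u : V K) : A3 := u.2.1
def rv (u : V K) : Fin K → A3 := u.2.2.1
def pb (u : V K) : Bool := u.2.2.2.1
def qb (u : V K) : Bool := u.2.2.2.2

def lv (l : ℕ) : Fin (K + 3) := ⟨min l (K + 2), by omega⟩

/-- the edge relation -/
def GAdj (R : (Fin K → A3) → Prop) (u v : V K) : Prop :=
  lev u + 1 = lev v ∧
  (lev u = 0 → av u = av v) ∧
  (lev u ≤ K → qb v = false) ∧
  (1 ≤ lev u → pb u = false) ∧
  (∀ j : Fin K, lev u = j.val + 1 → av u = av v ∧ rv u = rv v ∧
    (qb u = false → pb v = false → av u = rv u j)) ∧
  (lev u = K + 1 → rv u = rv v ∧ R (rv v))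

def mk (l : ℕ) (a : A3) (r : Fin K → A3) (b c : Bool) : V K := (lv l, a, r, b, c)

@[simp] theorem lev_mk (l : ℕ) (a : A3) (r : Fin K → A3) (b c : Bool) :
    lev (mk l a r b c) = min l (K + 2) := rfl
@[simp] theorem av_mk (l : ℕ) (a : A3) (r : Fin K → A3) (b c : Bool) :
    av (mk l a r b c) = a := rfl
@[simp] theorem rv_mk (l : ℕ) (a : A3) (r : Fin K → A3) (b c : Bool) :
    rv (mk l a r b c) = r := rfl
@[simp] theorem pb_mk (l : ℕ) (a : A3) (r : Fin K → A3) (b c : Bool) :
    pb (mk l a r b c) = b := rfl
@[simp] theorem qb_mk (l : ℕ) (a : A3) (r : Fin K → A3) (b c : Bool) :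
    qb (mk l a r b c) = c := rfl

theorem lev_lt (u : V K) : lev u < K + 3 := u.1.isLt

def bot (a : A3) : V K := mk 0 a (fun _ => z) false false

/-- the induced operation on `A3` -/
def down {ι : Type} (F : (ι → V K) → V K) (a : ι → A3) : A3 := av (F fun i => bot (a i))

theorem down_pres {ι : Type} (R : (Fin K → A3) → Prop) (F : (ι → V K) → V K)
    (hF : Pol (GAdj R) F) (r : ι → Fin K → A3) (hr : ∀ i, R (r i)) :
    R fun j => down F fun i => r i j := by
  -- the top vertex
  set T : V K := F fun i => mk (K + 2) z (r i) false false with hT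
  -- for every choice of bottom elements
  have main : ∀ a : ι → A3, R (rv T) ∧
      ∀ j : Fin K, (∀ i, a i = r i j) → down F a = rv T j := by
    intro a
    set W : V K := F fun i => bot (a i) with hW
    set C : ℕ → V K := fun l => F fun i => mk l (a i) (r i) false false with hC
    set P : ℕ → V K := fun l => F fun i => mk l (a i) (r i) true false with hP
    set Q : ℕ → V K := fun l => F fun i => mk l (a i) (r i) false true with hQ
    have e1 : GAdj R W (C 1) := by
      apply hF
      intro i
      refine ⟨?_, ?_, ?_, ?_, ?_, ?_⟩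
      · simp [bot]
      · simp [bot]
      · simp
      · simp [bot]
      · intro j hj; simp [bot] at hj
      · intro hj; simp [bot] at hj
    have e2 : ∀ l, 1 ≤ l → l ≤ K → GAdj R (C l) (P (l + 1)) := by
      intro l h1 h2
      apply hF
      intro i
      refine ⟨?_, ?_, ?_, ?_, ?_, ?_⟩
      · simp; omega
      · simp
      · simp
      · simp
      · intro j hj; simp
      · intro hj; simp at hj; omega
    have e3 : ∀ l, 1 ≤ l → l ≤ K → GAdj R (Q l) (P (l + 1)) := by
      intro l h1 h2
      apply hF
      intro i
      refine ⟨?_, ?_, ?_, ?_, ?_, ?_⟩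
      · simp; omega
      · simp
      · simp
      · simp
      · intro j hj; simp
      · intro hj; simp at hj; omega
    have e4 : ∀ l, 1 ≤ l → l ≤ K → GAdj R (Q l) (C (l + 1)) := by
      intro l h1 h2
      apply hF
      intro i
      refine ⟨?_, ?_, ?_, ?_, ?_, ?_⟩
      · simp; omega
      · simp
      · simp
      · simp
      · intro j hj; simp
      · intro hj; simp at hj; omega
    have e5 : GAdj R (C (K + 1)) T := by
      apply hF
      intro i
      refine ⟨?_, ?_, ?_, ?_, ?_, ?_⟩
      · simp
      · simp
      · simp
      · simp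
      · intro j hj; simp at hj; omega
      · intro hj; simp [hr i]
    have e6 : ∀ j : Fin K, (∀ i, a i = r i j) → GAdj R (C (j.val + 1)) (C (j.val + 2)) := by
      intro j hj
      apply hF
      intro i
      have := j.isLt
      refine ⟨?_, ?_, ?_, ?_, ?_, ?_⟩
      · simp; omega
      · simp
      · simp
      · simp
      · intro j' hj'
        simp at hj'
        have : j' = j := by apply Fin.ext; omega
        subst this
        simp [hj i]
      · intro hj; simp at hj; omega
    -- levels
    have hl : ∀ l, 1 ≤ l → l ≤ K + 1 → lev (C l) = lev W + l := by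
      intro l h1
      induction l, h1 using Nat.le_induction with
      | base => intro _; exact e1.1.symm
      | succ l h1 ih =>
        intro h2
        have h3 := ih (by omega)
        have h4 := (e2 l h1 (by omega)).1
        have h5 := (e3 l h1 (by omega)).1
        have h6 := (e4 l h1 (by omega)).1
        omega
    have hW0 : lev W = 0 := by
      have h1 := hl (K + 1) (by omega) le_rfl
      have h2 := e5.1
      have h3 := lev_lt T
      omega
    have hl' : ∀ l, 1 ≤ l → l ≤ K + 1 → lev (C l) = l := by
      intro l h1 h2
      rw [hl l h1 h2, hW0]; omega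
    have hlQ : ∀ l, 1 ≤ l → l ≤ K → lev (Q l) = l := by
      intro l h1 h2
      have h3 := hl' (l + 1) (by omega) (by omega)
      have h6 := (e4 l h1 (by omega)).1
      omega
    have har : ∀ l, 1 ≤ l → l ≤ K + 1 → av (C l) = av W ∧ rv (C l) = rv (C 1) := by
      intro l h1
      induction l, h1 using Nat.le_induction with
      | base => intro _; exact ⟨(e1.2.1 hW0).symm, rfl⟩
      | succ l h1 ih =>
        intro h2
        obtain ⟨h3, h3'⟩ := ih (by omega)
        have hk : l - 1 < K := by omega
        have hlk : l = (⟨l - 1, hk⟩ : Fin K).val + 1 := by simp; omega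
        have h4 := (e2 l h1 (by omega)).2.2.2.2.1 ⟨l - 1, hk⟩
          (by rw [hl' l h1 (by omega)]; exact hlk)
        have h5 := (e3 l h1 (by omega)).2.2.2.2.1 ⟨l - 1, hk⟩
          (by rw [hlQ l h1 (by omega)]; exact hlk)
        have h6 := (e4 l h1 (by omega)).2.2.2.2.1 ⟨l - 1, hk⟩
          (by rw [hlQ l h1 (by omega)]; exact hlk)
        constructor
        · rw [← h6.1, h5.1, ← h4.1, h3]
        · rw [← h6.2.1, h5.2.1, ← h4.2.1, h3']
    have hrT := e5.2.2.2.2.2 (hl' (K + 1) (by omega) le_rfl)
    refine ⟨hrT.2, ?_⟩
    intro j hj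
    have hj' := j.isLt
    have e := e6 j hj
    have h1 := e.2.2.2.2.1 j (hl' (j.val + 1) (by omega) (by omega))
    -- bits
    have hq : qb (C (j.val + 1)) = false := by
      rcases Nat.eq_zero_or_pos j.val with h0 | h0
      · rw [h0]
        exact e1.2.2.1 (by omega)
      · have h2 := (e4 j.val h0 (by omega)).2.2.1
        exact h2 (by rw [hlQ j.val h0 (by omega)]; omega)
    have hp : pb (C (j.val + 2)) = false := by
      rcases Nat.lt_or_ge (j.val + 1) K with h0 | h0
      · have h2 := (e2 (j.val + 2) (by omega) (by omega)).2.2.2.1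
        exact h2 (by rw [hl' _ (by omega) (by omega)]; omega)
      · have h3 : j.val + 2 = K + 1 := by omega
        rw [h3]
        exact e5.2.2.2.1 (by rw [hl' _ (by omega) (by omega)]; omega)
    have h2 := h1.2.2 hq hp
    show av W = rv T j
    rw [← (har (j.val + 1) (by omega) (by omega)).1, h2,
      (har (j.val + 1) (by omega) (by omega)).2, ← (har (K + 1) (by omega) le_rfl).2, hrT.1]
  have h1 : (fun j => down F fun i => r i j) = rv T := by
    funext j
    exact (main (fun i => r i j)).2 j fun i => rfl
  rw [h1]
  exact (main fun _ => z).1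

/-- the level of the value of `hat f` -/
noncomputable def hlev {ι : Type} (f : (ι → A3) → A3) (v : ι → V K) : ℕ :=
  sInf {l | f (fun i => if lev (v i) = l then p else z) = p}

/-- the operation on the digraph induced by an operation on `A3` -/
noncomputable def hat {ι : Type} (f : (ι → A3) → A3) (v : ι → V K) : V K :=
  mk (hlev f v)
    (f fun i => if lev (v i) = hlev f v then av (v i) else z)
    (fun j => f fun i => if lev (v i) = hlev f v then rv (v i) j else z)
    (decide (f (fun i => if lev (v i) = hlev f v ∧ pb (v i) = true then p else z) = p))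
    (decide (f (fun i => if lev (v i) = hlev f v ∧ qb (v i) = true then p else z) = p))

structure Base {ι : Type} (f : (ι → A3) → A3) : Prop where
  h1 : f (fun _ => p) = p
  h0 : f (fun _ => z) = z
  hm : ∀ g : ι → A3, (∀ i, g i ≠ m) → f g ≠ m
  hI : ∀ g a b : ι → A3, (∀ i, g i ≠ m) → (∀ i, g i = z → a i = b i) → f g = z → f a = f b

theorem Base.eq_z {ι : Type} {f : (ι → A3) → A3} (hf : Base f) (g : ι → A3)
    (h : ∀ i, g i ≠ m) (h' : f g ≠ p) : f g = z := by
  have := hf.hm g h
  cases hfg : f g <;> simp_all

theorem Base.union {ι : Type} {f : (ι → A3) → A3} (hf : Base f) (P Q : ι → Prop)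
    [DecidablePred P] [DecidablePred Q]
    (hP : f (fun i => if P i then p else z) = z) (hQ : f (fun i => if Q i then p else z) = z) :
    f (fun i => if P i ∨ Q i then p else z) = z := by
  refine Eq.trans ?_ hQ
  apply hf.hI (fun i => if P i then p else z) _ _ _ _ hP
  · intro i; split_ifs <;> simp
  · intro i hi
    by_cases h : P i
    · simp [h] at hi
    · simp [h]

theorem Base.union_lt {ι : Type} {f : (ι → A3) → A3} (hf : Base f) (g : ι → ℕ) (n : ℕ)
    (h : ∀ l, l < n → f (fun i => if g i = l then p else z) ≠ p) :
    f (fun i => if g i < n then p else z) = z := by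
  induction n with
  | zero => simpa using hf.h0
  | succ n ih =>
    have h1 := ih fun l hl => h l (by omega)
    have h2 : f (fun i => if g i = n then p else z) = z :=
      hf.eq_z _ (by intro i; split_ifs <;> simp) (h n (by omega))
    have h3 := hf.union (fun i => g i < n) (fun i => g i = n) h1 h2
    refine Eq.trans ?_ h3
    congr 1
    funext i
    have : g i < n + 1 ↔ g i < n ∨ g i = n := by omega
    simp only [this]

theorem hlev_ex {ι : Type} {f : (ι → A3) → A3} (hf : Base f) (v : ι → V K) :
    ∃ l, l < K + 3 ∧ f (fun i => if lev (v i) = l then p else z) = p := by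
  by_contra hcon
  push Not at hcon
  have h1 := hf.union_lt (fun i => lev (v i)) (K + 3) (fun l hl => hcon l hl)
  have h2 : (fun i => if lev (v i) < K + 3 then p else z) = fun _ : ι => p := by
    funext i
    simp [lev_lt]
  rw [h2, hf.h1] at h1
  exact absurd h1 (by simp)

theorem hlev_spec {ι : Type} {f : (ι → A3) → A3} (hf : Base f) (v : ι → V K) :
    f (fun i => if lev (v i) = hlev f v then p else z) = p := by
  obtain ⟨l, -, hl⟩ := hlev_ex hf v
  exact Nat.sInf_mem (s := {l | f (fun i => if lev (v i) = l then p else z) = p}) ⟨l, hl⟩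

theorem hlev_lt {ι : Type} {f : (ι → A3) → A3} (hf : Base f) (v : ι → V K) :
    hlev f v < K + 3 := by
  obtain ⟨l, hl, hl'⟩ := hlev_ex hf v
  exact lt_of_le_of_lt (Nat.sInf_le hl') hl

theorem hlev_min {ι : Type} {f : (ι → A3) → A3} (v : ι → V K) (l : ℕ)
    (hl : l < hlev f v) : f (fun i => if lev (v i) = l then p else z) ≠ p := by
  intro h
  exact absurd (Nat.sInf_le (s := {l | f (fun i => if lev (v i) = l then p else z) = p}) h)
    (by unfold hlev at hl; omega)

theorem hlev_succ {ι : Type} {f : (ι → A3) → A3} (hf : Base f) (u v : ι → V K)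
    (h : ∀ i, lev (u i) + 1 = lev (v i)) : hlev f v = hlev f u + 1 := by
  have key : ∀ l, (fun i => if lev (v i) = l + 1 then p else z) =
      fun i => if lev (u i) = l then p else z := by
    intro l
    funext i
    have := h i
    have : lev (v i) = l + 1 ↔ lev (u i) = l := by omega
    simp only [this]
  apply le_antisymm
  · apply Nat.sInf_le
    show f _ = p
    rw [key]
    exact hlev_spec hf u
  · have h1 := hlev_spec hf v
    obtain ⟨k, hk⟩ : ∃ k, hlev f v = k + 1 := by
      cases hv : hlev f v with
      | succ k => exact ⟨k, rfl⟩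
      | zero =>
        exfalso
        rw [hv] at h1
        have : (fun i => if lev (v i) = 0 then p else z) = fun _ : ι => z := by
          funext i
          have := h i
          rw [if_neg (by omega)]
        rw [this, hf.h0] at h1
        exact absurd h1 (by simp)
    rw [hk, key] at h1
    have := Nat.sInf_le (s := {l | f (fun i => if lev (u i) = l then p else z) = p}) h1
    unfold hlev at hk ⊢
    omega

theorem hat_pol {ι : Type} (R : (Fin K → A3) → Prop) (f : (ι → A3) → A3) (hf : Base f)
    (hR : ∀ r : ι → Fin K → A3, (∀ i, R (r i)) → R fun j => f fun i => r i j) :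
    Pol (GAdj R) (hat (K := K) f) := by
  intro u v huv
  have hs := hlev_succ hf u v fun i => (huv i).1
  have hlt := hlev_lt hf v
  set L := hlev f u with hL
  have hc : ∀ i, (lev (v i) = L + 1 ↔ lev (u i) = L) := by
    intro i
    have := (huv i).1
    omega
  have nz : ∀ P : ι → Prop, ∀ [DecidablePred P], (∀ i, ¬ P i) →
      decide (f (fun i => if P i then p else z) = p) = false := by
    intro P _ hP
    have : (fun i => if P i then p else z) = fun _ : ι => z := by
      funext i; simp [hP i]
    rw [this, hf.h0]
    rfl
  have hav : ∀ j : Fin K, L = j.val + 1 →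
      (f fun i => if lev (u i) = L then av (u i) else z) =
      f fun i => if lev (v i) = L + 1 then av (v i) else z := by
    intro j hj
    congr 1
    funext i
    simp only [hc]
    split_ifs with h
    · exact ((huv i).2.2.2.2.1 j (h.trans hj)).1
    · rfl
  refine ⟨?_, ?_, ?_, ?_, ?_, ?_⟩
  · unfold hat
    rw [hs, ← hL]
    simp only [lev_mk]
    omega
  · intro h
    unfold hat at h ⊢
    rw [hs]
    rw [← hL] at h ⊢
    simp only [lev_mk] at h
    simp only [av_mk]
    have hL0 : L = 0 := by omega
    congr 1
    funext i
    simp only [hc]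
    split_ifs with h'
    · exact (huv i).2.1 (h'.trans hL0)
    · rfl
  · intro h
    unfold hat at h ⊢
    rw [hs]
    rw [← hL] at h
    simp only [lev_mk] at h
    simp only [qb_mk]
    apply nz
    rintro i ⟨h1, h2⟩
    have h3 := (huv i).2.2.1 (by rw [(hc i).1 h1]; omega)
    rw [h3] at h2
    exact absurd h2 (by simp)
  · intro h
    unfold hat at h ⊢
    rw [← hL] at h ⊢
    simp only [lev_mk] at h
    simp only [pb_mk]
    apply nz
    rintro i ⟨h1, h2⟩
    have h3 := (huv i).2.2.2.1 (by rw [h1]; omega)
    rw [h3] at h2
    exact absurd h2 (by simp)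
  · intro j hj
    have hjl := j.isLt
    unfold hat at hj ⊢
    rw [hs]
    rw [← hL] at hj ⊢
    simp only [lev_mk] at hj
    simp only [av_mk, rv_mk, qb_mk, pb_mk]
    have hLj : L = j.val + 1 := by omega
    refine ⟨hav j hLj, ?_, ?_⟩
    · funext k
      congr 1
      funext i
      simp only [hc]
      split_ifs with h
      · rw [((huv i).2.2.2.2.1 j (h.trans hLj)).2.1]
      · rfl
    · intro h1 h2
      have h1' : f (fun i => if lev (u i) = L ∧ qb (u i) = true then p else z) = z :=
        hf.eq_z _ (by intro i; split_ifs <;> simp) (by simpa using h1)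
      have h2' : f (fun i => if lev (v i) = L + 1 ∧ pb (v i) = true then p else z) = z :=
        hf.eq_z _ (by intro i; split_ifs <;> simp) (by simpa using h2)
      have h3 := hf.union (fun i => lev (u i) = L ∧ qb (u i) = true)
        (fun i => lev (v i) = L + 1 ∧ pb (v i) = true) h1' h2'
      apply hf.hI _ _ _ _ _ h3
      · intro i; split_ifs <;> simp
      · intro i hi
        by_cases h : lev (u i) = L
        · simp only [h, if_true]
          by_cases hq : qb (u i) = true
          · simp [h, hq] at hi
          · by_cases hp : pb (v i) = true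
            · simp [h, (hc i).2 h, hp] at hi
            · exact ((huv i).2.2.2.2.1 j (h.trans hLj)).2.2 (by simpa using hq) (by simpa using hp)
        · simp [h]
  · intro h
    unfold hat at h ⊢
    rw [hs]
    rw [← hL] at h ⊢
    simp only [lev_mk] at h
    simp only [rv_mk]
    have hLK : L = K + 1 := by omega
    refine ⟨?_, ?_⟩
    · funext k
      congr 1
      funext i
      simp only [hc]
      split_ifs with h'
      · rw [((huv i).2.2.2.2.2 (h'.trans hLK)).1]
      · rfl
    · -- a coordinate at the top level
      obtain ⟨i0, hi0⟩ : ∃ i0, lev (v i0) = L + 1 := by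
        by_contra hcon
        push Not at hcon
        have h1 := hlev_spec hf v
        rw [hs] at h1
        have : (fun i => if lev (v i) = L + 1 then p else z) = fun _ : ι => z := by
          funext i; simp [hcon i]
        rw [this, hf.h0] at h1
        exact absurd h1 (by simp)
      have hRv : ∀ i, lev (v i) = L + 1 → R (rv (v i)) := by
        intro i hi
        exact ((huv i).2.2.2.2.2 (((hc i).1 hi).trans hLK)).2
      have h1 := hR (fun i => if lev (v i) = L + 1 then rv (v i) else rv (v i0)) (by
        intro i
        split_ifs with h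
        · exact hRv i h
        · exact hRv i0 hi0)
      have h2 := hf.union_lt (fun i => lev (v i)) (L + 1) (by
        intro l hl
        exact hlev_min v l (by omega))
      convert h1 using 2 with j
      apply hf.hI _ _ _ _ _ h2
      · intro i; split_ifs <;> simp
      · intro i hi
        have h3 := lev_lt (v i)
        by_cases h4 : lev (v i) < L + 1
        · simp [h4] at hi
        · have h5 : lev (v i) = L + 1 := by omega
          simp [h5]

end Pool.Agent.H845.Asc
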