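import Mathlib

/-! Primitive positive constructions between finite digraphs and polymorphisms. -/

set_option autoImplicit false

namespace Pool.Agent.H845.Asc

/-- `f` is a polymorphism of the binary relation `R`. -/
def Pol {V ι : Type} (R : V → V → Prop) (f : (ι → V) → V) : Prop :=
  ∀ x y : ι → V, (∀ i, R (x i) (y i)) → R (f x) (f y)

/-- The relation `B pp-constructs A` exactly as in the frozen statement. -/
def PPC (kB : ℕ) (B : Digraph (Fin kB)) (kA : ℕ) (A : Digraph (Fin kA)) : Prop :=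
  ∃ (n m : ℕ)
          (Es Qs : Set (((Fin 2 × Fin n) ⊕ Fin m) × ((Fin 2 × Fin n) ⊕ Fin m)))
          (E : (Fin n → Fin kB) → (Fin n → Fin kB) → Prop),
          0 < n ∧
          (∀ x y : Fin n → Fin kB, E x y ↔ ∃ s : Fin m → Fin kB,
              (∀ p ∈ Es,
                B.Adj (Sum.elim (fun q : Fin 2 × Fin n => (![x, y] q.1) q.2) s p.1)
                      (Sum.elim (fun q : Fin 2 × Fin n => (![x, y] q.1) q.2) s p.2)) ∧
              (∀ p ∈ Qs,
                Sum.elim (fun q : Fin 2 × Fin n => (![x, y] q.1) q.2) s p.1 =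
                  Sum.elim (fun q : Fin 2 × Fin n => (![x, y] q.1) q.2) s p.2)) ∧
          (∃ f : Fin kA → (Fin n → Fin kB), ∀ a b : Fin kA, A.Adj a b → E (f a) (f b)) ∧
          (∃ g : (Fin n → Fin kB) → Fin kA,
              ∀ x y : Fin n → Fin kB, E x y → A.Adj (g x) (g y))

/-- The canonical pp-construction: a map `g` on the `A`-ary operations of `B` such that the
two endpoint minors of every polymorphism go to an edge. -/
theorem ppc_of_map (kB : ℕ) (B : Digraph (Fin kB)) (kA : ℕ) (A : Digraph (Fin kA))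
    (hB : 0 < kB)
    (g : ((Fin kA → Fin kB) → Fin kB) → Fin kA)
    (hg : ∀ (ι : Type) [Finite ι] (F : (ι → Fin kB) → Fin kB), Pol B.Adj F →
      ∀ a b : ι → Fin kA, (∀ i, A.Adj (a i) (b i)) →
        A.Adj (g fun u => F fun i => u (a i)) (g fun u => F fun i => u (b i))) :
    PPC kB B kA A := by
  classical
  let N : Type := {p : Fin kA × Fin kA // A.Adj p.1 p.2}
  let n : ℕ := Fintype.card (Fin kA → Fin kB)
  let m : ℕ := Fintype.card (N → Fin kB)
  let e1 : Fin n ≃ (Fin kA → Fin kB) := (Fintype.equivFin _).symm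
  let e2 : Fin m ≃ (N → Fin kB) := (Fintype.equivFin _).symm
  let Es : Set (((Fin 2 × Fin n) ⊕ Fin m) × ((Fin 2 × Fin n) ⊕ Fin m)) :=
    {p | ∃ u v : Fin m, p = (Sum.inr u, Sum.inr v) ∧ ∀ i, B.Adj (e2 u i) (e2 v i)}
  let Qs : Set (((Fin 2 × Fin n) ⊕ Fin m) × ((Fin 2 × Fin n) ⊕ Fin m)) :=
    {p | ∃ c : Fin n,
      p = (Sum.inl (0, c), Sum.inr (e2.symm fun i => e1 c i.1.1)) ∨
      p = (Sum.inl (1, c), Sum.inr (e2.symm fun i => e1 c i.1.2))}
  refine ⟨n, m, Es, Qs, fun x y => ∃ s : Fin m → Fin kB,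
              (∀ p ∈ Es,
                B.Adj (Sum.elim (fun q : Fin 2 × Fin n => (![x, y] q.1) q.2) s p.1)
                      (Sum.elim (fun q : Fin 2 × Fin n => (![x, y] q.1) q.2) s p.2)) ∧
              (∀ p ∈ Qs,
                Sum.elim (fun q : Fin 2 × Fin n => (![x, y] q.1) q.2) s p.1 =
                  Sum.elim (fun q : Fin 2 × Fin n => (![x, y] q.1) q.2) s p.2),
              ?_, fun x y => Iff.rfl, ?_, ?_⟩
  · have : Nonempty (Fin kB) := ⟨⟨0, hB⟩⟩
    exact Fintype.card_pos
  · refine ⟨fun a c => e1 c a, fun a b hab => ⟨fun u => e2 u ⟨(a, b), hab⟩, ?_, ?_⟩⟩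
    · rintro p ⟨u, v, rfl, huv⟩
      simpa using huv ⟨(a, b), hab⟩
    · rintro p ⟨c, rfl | rfl⟩
      · simp
      · simp
  · refine ⟨fun x => g (fun u => x (e1.symm u)), ?_⟩
    rintro x y ⟨s, hE, hQ⟩
    let F : (N → Fin kB) → Fin kB := fun w => s (e2.symm w)
    have hF : Pol B.Adj F := by
      intro x' y' hxy
      have := hE (Sum.inr (e2.symm x'), Sum.inr (e2.symm y'))
        ⟨_, _, rfl, by simpa using hxy⟩
      simpa using this
    have h1 := hg N F hF (fun i => i.1.1) (fun i => i.1.2) (fun i => i.2)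
    have hx : (fun u => x (e1.symm u)) = fun u => F fun i => u i.1.1 := by
      funext u
      have := hQ (Sum.inl (0, e1.symm u), Sum.inr (e2.symm fun i => u i.1.1))
        ⟨e1.symm u, Or.inl (by simp)⟩
      simpa using this
    have hy : (fun u => y (e1.symm u)) = fun u => F fun i => u i.1.2 := by
      funext u
      have := hQ (Sum.inl (1, e1.symm u), Sum.inr (e2.symm fun i => u i.1.2))
        ⟨e1.symm u, Or.inr (by simp)⟩
      simpa using this
    simp only [hx, hy]
    exact h1

/-- `R` has a totally symmetric polymorphism of arity `n`. -/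
def HasTS {V : Type} (R : V → V → Prop) (n : ℕ) : Prop :=
  ∃ t : (Fin n → V) → V, Pol R t ∧ ∀ x y : Fin n → V, Set.range x = Set.range y → t x = t y

theorem hasTS_of_ppc (kB : ℕ) (B : Digraph (Fin kB)) (kA : ℕ) (A : Digraph (Fin kA)) (n : ℕ)
    (h : PPC kB B kA A) (hB : HasTS B.Adj n) : HasTS A.Adj n := by
  obtain ⟨d, m, Es, Qs, E, hd, hE, ⟨f, hf⟩, ⟨g, hg⟩⟩ := h
  obtain ⟨t, htp, hts⟩ := hB
  refine ⟨fun a => g fun c => t fun i => f (a i) c, ?_, ?_⟩
  · intro x y hxy
    apply hg
    rw [hE]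
    have h1 : ∀ i, ∃ s : Fin m → Fin kB,
              (∀ p ∈ Es,
                B.Adj (Sum.elim (fun q : Fin 2 × Fin d => (![f (x i), f (y i)] q.1) q.2) s p.1)
                      (Sum.elim (fun q : Fin 2 × Fin d => (![f (x i), f (y i)] q.1) q.2) s p.2)) ∧
              (∀ p ∈ Qs,
                Sum.elim (fun q : Fin 2 × Fin d => (![f (x i), f (y i)] q.1) q.2) s p.1 =
                  Sum.elim (fun q : Fin 2 × Fin d => (![f (x i), f (y i)] q.1) q.2) s p.2) :=
      fun i => (hE _ _).1 (hf _ _ (hxy i))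
    choose s hs1 hs2 using h1
    refine ⟨fun v => t fun i => s i v, ?_, ?_⟩
    all_goals
      have key : ∀ q : (Fin 2 × Fin d) ⊕ Fin m,
        Sum.elim (fun q : Fin 2 × Fin d => (![fun c => t fun i => f (x i) c,
          fun c => t fun i => f (y i) c] q.1) q.2) (fun v => t fun i => s i v) q =
        t fun i => Sum.elim (fun q : Fin 2 × Fin d => (![f (x i), f (y i)] q.1) q.2) (s i) q := by
        rintro (⟨b, c⟩ | v)
        · fin_cases b <;> simp
        · simp
    · intro p hp
      rw [key, key]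
      exact htp _ _ fun i => hs1 i p hp
    · intro p hp
      rw [key, key]
      congr 1
      funext i
      exact hs2 i p hp
  · intro x y hxy
    show g _ = g _
    congr 1
    funext c
    apply hts
    have : ∀ z : Fin n → Fin kA, Set.range (fun i => f (z i) c) = (fun a => f a c) '' Set.range z := by
      intro z
      ext w
      simp
    rw [this, this, hxy]

end Pool.Agent.H845.Asc
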