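import Pool.Agent.H845.AscGraph

/-! The relations on `{m, z, p}`. -/

set_option autoImplicit false

namespace Pool.Agent.H845.Asc

open A3

def neg3 : A3 → A3
  | m => p
  | z => z
  | p => m

/-- either all entries are `z` or `p` and some entry is `p`, or exactly one entry is `m`
and all the others are `p`. -/
def Rp (n : ℕ) (x : Fin n → A3) : Prop :=
  ((∀ i, x i ≠ m) ∧ ∃ i, x i = p) ∨ (∃ j, x j = m ∧ ∀ i, i ≠ j → x i = p)

def Rh (n : ℕ) (x : Fin n → A3) (t : A3) : Prop :=
  (t = p ∧ Rp n x) ∨ (t = z ∧ ∀ i, x i = z)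

/-- the interpolation relation -/
def Ph (a b y w t : A3) : Prop :=
  (t = p ∧
    ((w = z ∧ y = z ∧ a ≠ m ∧ b ≠ m ∧ (a = p ∨ b = p)) ∨
     (w = p ∧
      ((y = p ∧ a = p ∧ b = p) ∨ (y = z ∧ a ≠ m ∧ b ≠ m) ∨
       (y = m ∧ ((a ≠ m ∧ b ≠ m) ∨ (a = m ∧ b = p) ∨ (a = p ∧ b = m))))))) ∨
  (t = z ∧ a = z ∧ b = z ∧ y = z ∧ w = z)

structure Good {ι : Type} (n : ℕ) (f : (ι → A3) → A3) : Prop where
  h1 : f (fun _ => p) = p
  hneg : ∀ x : ι → A3, f (fun i => neg3 (x i)) = neg3 (f x)
  hI : ∀ g a b : ι → A3, (∀ i, g i ≠ m ∧ (g i = z → a i = b i)) →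
    f g ≠ m ∧ (f g = z → f a = f b)
  hPh : ∀ a b y w t : ι → A3, (∀ i, Ph (a i) (b i) (y i) (w i) (t i)) →
    Ph (f a) (f b) (f y) (f w) (f t)
  hR : ∀ (x : Fin n → ι → A3) (t : ι → A3), (∀ i, Rh n (fun j => x j i) (t i)) →
    Rh n (fun j => f (x j)) (f t)

theorem Good.h0 {ι : Type} {n : ℕ} {f : (ι → A3) → A3} (hf : Good n f) :
    f (fun _ => z) = z := by
  have := hf.hneg (fun _ => z)
  simp only [neg3] at this
  cases h : f (fun _ => z) <;> rw [h] at this <;> simp [neg3] at this ⊢

theorem Good.base {ι : Type} {n : ℕ} {f : (ι → A3) → A3} (hf : Good n f) : Base f where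
  h1 := hf.h1
  h0 := hf.h0
  hm := fun g hg => (hf.hI g (fun _ => z) (fun _ => z) fun i => ⟨hg i, fun _ => rfl⟩).1
  hI := fun g a b h1 h2 h3 => (hf.hI g a b fun i => ⟨h1 i, h2 i⟩).2 h3

/-- index type of the combined relation -/
abbrev Kap (n : ℕ) : Type := Fin 11 ⊕ Option (Fin n)

def Rel (n : ℕ) (r : Kap n → A3) : Prop :=
  r (Sum.inl 0) = p ∧ r (Sum.inl 2) = neg3 (r (Sum.inl 1)) ∧
  (r (Sum.inl 3) ≠ m ∧ (r (Sum.inl 3) = z → r (Sum.inl 4) = r (Sum.inl 5))) ∧
  Ph (r (Sum.inl 6)) (r (Sum.inl 7)) (r (Sum.inl 8)) (r (Sum.inl 9)) (r (Sum.inl 10)) ∧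
  Rh n (fun j => r (Sum.inr (some j))) (r (Sum.inr none))

theorem Good.rel {ι : Type} {n : ℕ} {f : (ι → A3) → A3} (hf : Good n f)
    (r : ι → Kap n → A3) (hr : ∀ i, Rel n (r i)) : Rel n fun k => f fun i => r i k := by
  refine ⟨?_, ?_, ?_, ?_, ?_⟩
  · have : (fun i => r i (Sum.inl 0)) = fun _ : ι => p := by funext i; exact (hr i).1
    show f (fun i => r i (Sum.inl 0)) = p
    rw [this]; exact hf.h1
  · have : (fun i => r i (Sum.inl 2)) = fun i => neg3 (r i (Sum.inl 1)) := by
      funext i; exact (hr i).2.1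
    show f (fun i => r i (Sum.inl 2)) = _
    rw [this]; exact hf.hneg _
  · exact hf.hI _ _ _ fun i => (hr i).2.2.1
  · exact hf.hPh _ _ _ _ _ fun i => (hr i).2.2.2.1
  · exact hf.hR (fun j i => r i (Sum.inr (some j))) _ fun i => (hr i).2.2.2.2

theorem good_of_rel {ι : Type} {n : ℕ} {f : (ι → A3) → A3}
    (h : ∀ r : ι → Kap n → A3, (∀ i, Rel n (r i)) → Rel n fun k => f fun i => r i k) :
    Good n f := by
  have hRz : Rh n (fun _ => z) z := Or.inr ⟨rfl, fun _ => rfl⟩
  have hPz : Ph z z z z z := Or.inr ⟨rfl, rfl, rfl, rfl, rfl⟩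
  refine ⟨?_, ?_, ?_, ?_, ?_⟩
  · exact (h (fun _ => Sum.elim ![p, z, z, z, z, z, z, z, z, z, z] fun _ => z) (fun i =>
      ⟨rfl, rfl, ⟨by simp, fun _ => rfl⟩, hPz, hRz⟩)).1
  · intro x
    exact (h (fun i => Sum.elim ![p, x i, neg3 (x i), z, z, z, z, z, z, z, z] fun _ => z)
      (fun i => ⟨rfl, rfl, ⟨by simp, fun _ => rfl⟩, hPz, hRz⟩)).2.1
  · intro g a b hg
    exact (h (fun i => Sum.elim ![p, z, z, g i, a i, b i, z, z, z, z, z] fun _ => z)
      (fun i => ⟨rfl, rfl, hg i, hPz, hRz⟩)).2.2.1
  · intro a b y w t ht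
    exact (h (fun i => Sum.elim ![p, z, z, z, z, z, a i, b i, y i, w i, t i] fun _ => z)
      (fun i => ⟨rfl, rfl, ⟨by simp, fun _ => rfl⟩, ht i, hRz⟩)).2.2.2.1
  · intro x t ht
    exact (h (fun i => Sum.elim ![p, z, z, z, z, z, z, z, z, z, z]
        fun o => o.elim (t i) fun j => x j i)
      (fun i => ⟨rfl, rfl, ⟨by simp, fun _ => rfl⟩, hPz, ht i⟩)).2.2.2.2

/-- the step: preservation of the relations of parameter `n + 2` implies that of parameter
`n + 3`. -/
theorem Good.succ {ι : Type} {n : ℕ} {f : (ι → A3) → A3} (hf : Good (n + 2) f) :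
    Good (n + 3) f := by
  classical
  refine ⟨hf.h1, hf.hneg, hf.hI, hf.hPh, ?_⟩
  intro x t hx
  -- rows: choose y and w
  have hrow : ∀ i, ∃ y w : A3,
      Rh (n + 2) (Fin.cons y fun j : Fin (n + 1) => x j.succ.succ i) w ∧
      Ph (x 0 i) (x 1 i) y w (t i) := by
    intro i
    rcases hx i with ⟨ht, hp⟩ | ⟨ht, hz⟩
    · rcases hp with ⟨h1, h2⟩ | ⟨j, h1, h2⟩
      · by_cases h3 : ∃ j : Fin (n + 1), x j.succ.succ i = p
        · obtain ⟨j, hj⟩ := h3
          refine ⟨z, p, Or.inl ⟨rfl, Or.inl ⟨?_, ⟨j.succ, by simpa using hj⟩⟩⟩,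
            Or.inl ⟨ht, Or.inr ⟨rfl, Or.inr (Or.inl ⟨rfl, h1 0, h1 1⟩)⟩⟩⟩
          intro k
          refine Fin.cases ?_ ?_ k
          · simp
          · intro k'; simpa using h1 k'.succ.succ
        · push Not at h3
          have h4 : ∀ j : Fin (n + 1), x j.succ.succ i = z := by
            intro j
            have h5 := h1 j.succ.succ
            have h6 := h3 j
            dsimp only at h5
            cases h7 : x j.succ.succ i <;> simp_all
          refine ⟨z, z, Or.inr ⟨rfl, ?_⟩,
            Or.inl ⟨ht, Or.inl ⟨rfl, rfl, h1 0, h1 1, ?_⟩⟩⟩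
          · intro k
            refine Fin.cases ?_ ?_ k
            · simp
            · intro k'; simpa using h4 k'
          · obtain ⟨j, hj⟩ := h2
            revert hj
            refine Fin.cases ?_ ?_ j
            · intro hj; exact Or.inl hj
            · intro j'
              refine Fin.cases ?_ ?_ j'
              · intro hj; exact Or.inr hj
              · intro j'' hj
                exact absurd (h4 j'') (by dsimp only at hj; rw [hj]; simp)
      · revert h1 h2
        refine Fin.cases ?_ ?_ j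
        · intro h1 h2
          refine ⟨m, p, Or.inl ⟨rfl, Or.inr ⟨0, by simp, ?_⟩⟩,
            Or.inl ⟨ht, Or.inr ⟨rfl, Or.inr (Or.inr ⟨rfl, Or.inr (Or.inl ⟨h1, h2 1 (by simp)⟩)⟩)⟩⟩⟩
          intro k
          refine Fin.cases ?_ ?_ k
          · intro hk; exact absurd rfl hk
          · intro k' _
            simpa using h2 k'.succ.succ (Fin.succ_ne_zero _)
        · intro j'
          refine Fin.cases ?_ ?_ j'
          · intro h1 h2
            refine ⟨m, p, Or.inl ⟨rfl, Or.inr ⟨0, by simp, ?_⟩⟩,
              Or.inl ⟨ht, Or.inr ⟨rfl, Or.inr (Or.inr ⟨rfl, Or.inr (Or.inr ⟨h2 0 ?_, h1⟩)⟩)⟩⟩⟩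
            · intro k
              refine Fin.cases ?_ ?_ k
              · intro hk; exact absurd rfl hk
              · intro k' _
                simpa using h2 k'.succ.succ (by
                  intro h; exact Fin.succ_ne_zero _ (Fin.succ_injective _ h))
            · exact (Fin.succ_ne_zero _).symm
          · intro j'' h1 h2
            refine ⟨p, p, Or.inl ⟨rfl, Or.inr ⟨j''.succ, by simpa using h1, ?_⟩⟩,
              Or.inl ⟨ht, Or.inr ⟨rfl, Or.inl ⟨rfl, h2 0 ?_, h2 1 ?_⟩⟩⟩⟩
            · intro k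
              refine Fin.cases ?_ ?_ k
              · simp
              · intro k' hk
                simpa using h2 k'.succ.succ (by
                  intro h
                  exact hk (Fin.succ_injective _ h))
            · exact (Fin.succ_ne_zero _).symm
            · intro h
              have h' : (0 : Fin (n + 2)).succ = j''.succ.succ := h
              exact Fin.succ_ne_zero j'' (Fin.succ_injective _ h').symm
    · refine ⟨z, z, Or.inr ⟨rfl, ?_⟩, Or.inr ⟨ht, hz 0, hz 1, rfl, rfl⟩⟩
      intro k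
      refine Fin.cases ?_ ?_ k
      · simp
      · intro k'; simpa using hz k'.succ.succ
  choose y w hyw using hrow
  have h1 := hf.hR (Fin.cons y fun j : Fin (n + 1) => x j.succ.succ) w (by
    intro i
    convert (hyw i).1 using 2 with k
    refine Fin.cases ?_ ?_ k
    · simp
    · intro k'; simp)
  have h1' : Rh (n + 2) (Fin.cons (f y) fun j : Fin (n + 1) => f (x j.succ.succ)) (f w) := by
    convert h1 using 2 with k
    refine Fin.cases ?_ ?_ k
    · simp
    · intro k'; simp
  have h2 := hf.hPh (x 0) (x 1) y w t fun i => (hyw i).2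
  -- all entries of the result
  have hall : ∀ Q : A3 → Prop, Q (f (x 0)) → Q (f (x 1)) →
      (∀ j : Fin (n + 1), Q (f (x j.succ.succ))) → ∀ j : Fin (n + 3), Q (f (x j)) := by
    intro Q q0 q1 q2 j
    refine Fin.cases q0 ?_ j
    intro j'
    refine Fin.cases q1 ?_ j'
    exact q2
  rcases h2 with ⟨ht, h2⟩ | ⟨ht, ha, hb, hy, hw⟩
  · left
    refine ⟨ht, ?_⟩
    rcases h2 with ⟨hw, hy, ha, hb, hab⟩ | ⟨hw, h2⟩
    · -- w = z
      rcases h1' with ⟨h3, -⟩ | ⟨-, h3⟩
      · rw [hw] at h3; exact absurd h3 (by simp)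
      · left
        refine ⟨hall (· ≠ m) ha hb fun j => ?_, ?_⟩
        · have := h3 j.succ
          simp only [Fin.cons_succ] at this
          rw [this]; simp
        · rcases hab with h | h
          · exact ⟨0, h⟩
          · exact ⟨1, h⟩
    · rcases h1' with ⟨-, h3⟩ | ⟨h3, -⟩
      swap
      · rw [hw] at h3; exact absurd h3 (by simp)
      rcases h2 with ⟨hy, ha, hb⟩ | ⟨hy, ha, hb⟩ | ⟨hy, hab⟩
      · -- y = p
        rcases h3 with ⟨h4, -⟩ | ⟨j, h4, h5⟩
        · left
          refine ⟨hall (· ≠ m) (by rw [ha]; simp) (by rw [hb]; simp) fun j => ?_, ⟨0, ha⟩⟩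
          have := h4 j.succ
          simpa using this
        · right
          have hj0 : j ≠ 0 := by
            rintro rfl
            simp only [Fin.cons_zero] at h4
            rw [hy] at h4
            exact absurd h4 (by simp)
          obtain ⟨j', rfl⟩ := Fin.exists_succ_eq.2 hj0
          refine ⟨j'.succ.succ, by simpa using h4, ?_⟩
          intro k
          refine Fin.cases ?_ ?_ k
          · intro _; exact ha
          · intro k'
            refine Fin.cases ?_ ?_ k'
            · intro _; exact hb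
            · intro k'' hk
              have := h5 k''.succ (by
                intro h
                exact hk (by rw [h]))
              simpa using this
      · -- y = z
        rcases h3 with ⟨h4, j, h5⟩ | ⟨j, h4, h5⟩
        · left
          have hj0 : j ≠ 0 := by
            rintro rfl
            simp only [Fin.cons_zero] at h5
            rw [hy] at h5
            exact absurd h5 (by simp)
          obtain ⟨j', rfl⟩ := Fin.exists_succ_eq.2 hj0
          refine ⟨hall (· ≠ m) ha hb fun j => ?_, ⟨j'.succ.succ, by simpa using h5⟩⟩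
          have := h4 j.succ
          simpa using this
        · exfalso
          by_cases hj0 : j = 0
          · subst hj0
            simp only [Fin.cons_zero] at h4
            rw [hy] at h4
            exact absurd h4 (by simp)
          · have := h5 0 (Ne.symm hj0)
            simp only [Fin.cons_zero] at this
            rw [hy] at this
            exact absurd this (by simp)
      · -- y = m
        rcases h3 with ⟨h4, -⟩ | ⟨j, h4, h5⟩
        · exact absurd hy (by simpa using h4 0)
        · have hj0 : j = 0 := by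
            by_contra hj0
            have := h5 0 (Ne.symm hj0)
            simp only [Fin.cons_zero] at this
            rw [hy] at this
            exact absurd this (by simp)
          subst hj0
          have h6 : ∀ k : Fin (n + 1), f (x k.succ.succ) = p := by
            intro k
            have := h5 k.succ (Fin.succ_ne_zero _)
            simpa using this
          rcases hab with ⟨ha, hb⟩ | ⟨ha, hb⟩ | ⟨ha, hb⟩
          · left
            refine ⟨hall (· ≠ m) ha hb fun j => ?_, ⟨(0 : Fin (n + 1)).succ.succ, h6 0⟩⟩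
            rw [h6 j]; simp
          · right
            refine ⟨0, ha, ?_⟩
            intro k
            refine Fin.cases ?_ ?_ k
            · intro hk; exact absurd rfl hk
            · intro k'
              refine Fin.cases ?_ ?_ k'
              · intro _; exact hb
              · intro k'' _; exact h6 k''
          · right
            refine ⟨1, hb, ?_⟩
            intro k
            refine Fin.cases ?_ ?_ k
            · intro _; exact ha
            · intro k'
              refine Fin.cases ?_ ?_ k'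
              · intro hk; exact absurd rfl hk
              · intro k'' _; exact h6 k''
  · right
    refine ⟨ht, ?_⟩
    rcases h1' with ⟨h3, -⟩ | ⟨-, h3⟩
    · rw [hw] at h3; exact absurd h3 (by simp)
    · exact hall (· = z) ha hb fun j => by simpa using h3 j.succ

/-- No totally symmetric operation of arity `n + 2` is good for parameter `n + 2`. -/
theorem not_ts {n : ℕ} {f : (Fin (n + 2) → A3) → A3} (hf : Good (n + 2) f)
    (hts : ∀ x y : Fin (n + 2) → A3, Set.range x = Set.range y → f x = f y) : False := by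
  classical
  -- the columns
  let x : Fin (n + 2) → Fin (n + 2) → A3 := fun j i => if i = j then m else p
  have hrange : ∀ j, Set.range (x j) = {m, p} := by
    intro j
    ext a
    constructor
    · rintro ⟨i, rfl⟩
      show x j i = m ∨ x j i = p
      by_cases h : i = j
      · left; simp [x, h]
      · right; simp [x, h]
    · rintro (rfl | rfl)
      · exact ⟨j, by simp [x]⟩
      · obtain ⟨i, hi⟩ := exists_ne j
        exact ⟨i, by simp [x, hi]⟩
  have hrange' : ∀ j, Set.range (fun i => neg3 (x j i)) = {m, p} := by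
    intro j
    ext a
    constructor
    · rintro ⟨i, rfl⟩
      show neg3 (x j i) = m ∨ neg3 (x j i) = p
      by_cases h : i = j
      · right; simp [x, h, neg3]
      · left; simp [x, h, neg3]
    · rintro (rfl | rfl)
      · obtain ⟨i, hi⟩ := exists_ne j
        exact ⟨i, by simp [x, hi, neg3]⟩
      · exact ⟨j, by simp [x, neg3]⟩
  have h1 := hf.hR x (fun _ => p) (by
    intro i
    left
    refine ⟨rfl, Or.inr ⟨i, by simp [x], ?_⟩⟩
    intro k hk
    simp [x, Ne.symm hk])
  have hc : ∀ j, f (x j) = f (x 0) := fun j => hts _ _ (by rw [hrange, hrange])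
  have hneg : f (x 0) = z := by
    have h2 := hf.hneg (x 0)
    have h3 : f (fun i => neg3 (x 0 i)) = f (x 0) := hts _ _ (by rw [hrange, hrange'])
    rw [h3] at h2
    cases h : f (x 0) <;> rw [h] at h2 <;> simp [neg3] at h2 ⊢
  rcases h1 with ⟨-, ⟨-, j, hj⟩ | ⟨j, hj, -⟩⟩ | ⟨h, -⟩
  · dsimp only at hj; rw [hc j, hneg] at hj; exact absurd hj (by simp)
  · dsimp only at hj; rw [hc j, hneg] at hj; exact absurd hj (by simp)
  · rw [hf.h1] at h; exact absurd h (by simp)

open Classical in
/-- the totally symmetric operation -/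
noncomputable def tsop {ι : Type} (x : ι → A3) : A3 :=
  if (∃ i, x i = p) ∧ (∃ i, x i = m) then z
  else if ∃ i, x i = p then p else if ∃ i, x i = m then m else z

theorem tsop_p {ι : Type} (x : ι → A3) :
    tsop x = p ↔ (∃ i, x i = p) ∧ ∀ i, x i ≠ m := by
  unfold tsop
  split_ifs with h1 h2 h3
  · simp only [reduceCtorEq, false_iff]
    rintro ⟨-, h⟩
    obtain ⟨i, hi⟩ := h1.2
    exact h i hi
  · simp only [true_iff]
    refine ⟨h2, fun i hi => h1 ⟨h2, i, hi⟩⟩
  · simp only [reduceCtorEq, false_iff]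
    rintro ⟨h, -⟩; exact h2 h
  · simp only [reduceCtorEq, false_iff]
    rintro ⟨h, -⟩; exact h2 h

theorem tsop_m {ι : Type} (x : ι → A3) :
    tsop x = m ↔ (∃ i, x i = m) ∧ ∀ i, x i ≠ p := by
  unfold tsop
  split_ifs with h1 h2 h3
  · simp only [reduceCtorEq, false_iff]
    rintro ⟨-, h⟩
    obtain ⟨i, hi⟩ := h1.1
    exact h i hi
  · simp only [reduceCtorEq, false_iff]
    rintro ⟨-, h⟩
    obtain ⟨i, hi⟩ := h2
    exact h i hi
  · simp only [true_iff]
    exact ⟨h3, fun i hi => h2 ⟨i, hi⟩⟩
  · simp only [reduceCtorEq, false_iff]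
    rintro ⟨h, -⟩; exact h3 h

theorem tsop_range {ι : Type} (x y : ι → A3) (h : Set.range x = Set.range y) :
    tsop x = tsop y := by
  have h1 : ∀ a, (∃ i, x i = a) ↔ (∃ i, y i = a) := by
    intro a
    have : a ∈ Set.range x ↔ a ∈ Set.range y := by rw [h]
    simpa using this
  unfold tsop
  rw [propext (h1 p), propext (h1 m)]

end Pool.Agent.H845.Asc
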