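import Pool.Agent.H845.AscRel

set_option autoImplicit false

namespace Pool.Agent.H845.Asc

open A3

theorem tsop_ne_m {ι : Type} (x : ι → A3) (h : ∀ i, x i ≠ m) : tsop x ≠ m := by
  intro h'
  obtain ⟨⟨i, hi⟩, -⟩ := (tsop_m x).1 h'
  exact h i hi

theorem tsop_ne_m' {ι : Type} (x : ι → A3) (i : ι) (h : x i = p) : tsop x ≠ m := by
  intro h'
  exact ((tsop_m x).1 h').2 i h

theorem tsop_z {ι : Type} (x : ι → A3) (h : ∀ i, x i = z) : tsop x = z := by
  have h1 : tsop x ≠ m := tsop_ne_m x fun i => by rw [h i]; simp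
  have h2 : tsop x ≠ p := by
    intro h'
    obtain ⟨⟨i, hi⟩, -⟩ := (tsop_p x).1 h'
    rw [h i] at hi
    exact absurd hi (by simp)
  cases h3 : tsop x <;> simp_all

theorem tsop_eq_p {ι : Type} (x : ι → A3) (i : ι) (h : x i = p) (h' : ∀ i, x i ≠ m) :
    tsop x = p := (tsop_p x).2 ⟨⟨i, h⟩, h'⟩

theorem rh_m {N : ℕ} {x : Fin N → A3} {t : A3} (h : Rh N x t) (j : Fin N) (hj : x j = m) :
    t = p ∧ ∀ k, k ≠ j → x k = p := by
  rcases h with ⟨h1, ⟨h2, -⟩ | ⟨k, h2, h3⟩⟩ | ⟨-, h1⟩
  · exact absurd hj (h2 j)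
  · refine ⟨h1, ?_⟩
    have : j = k := by
      by_contra hjk
      rw [h3 j hjk] at hj
      exact absurd hj (by simp)
    subst this
    exact h3
  · rw [h1 j] at hj; exact absurd hj (by simp)

theorem ph_t {a b y w t : A3} (h : Ph a b y w t) : t ≠ m := by
  rcases h with ⟨rfl, -⟩ | ⟨rfl, -⟩ <;> simp

theorem ph_w {a b y w t : A3} (h : Ph a b y w t) : w ≠ m := by
  rcases h with ⟨-, ⟨rfl, -⟩ | ⟨rfl, -⟩⟩ | ⟨-, -, -, -, rfl⟩ <;> simp

theorem ph_yp {a b y w t : A3} (h : Ph a b y w t) (hy : y = p) : a = p ∧ b = p := by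
  subst hy
  rcases h with ⟨-, ⟨-, h, -⟩ | ⟨-, ⟨-, h1, h2⟩ | ⟨h, -⟩ | ⟨h, -⟩⟩⟩ | ⟨-, -, -, h, -⟩
  · exact absurd h (by simp)
  · exact ⟨h1, h2⟩
  · exact absurd h (by simp)
  · exact absurd h (by simp)
  · exact absurd h (by simp)

theorem ph_yz {a b y w t : A3} (h : Ph a b y w t) (hy : y = z) : a ≠ m ∧ b ≠ m := by
  subst hy
  rcases h with ⟨-, ⟨-, -, h1, h2, -⟩ | ⟨-, ⟨h, -⟩ | ⟨-, h1, h2⟩ | ⟨h, -⟩⟩⟩ | ⟨-, rfl, rfl, -⟩
  · exact ⟨h1, h2⟩
  · exact absurd h (by simp)
  · exact ⟨h1, h2⟩
  · exact absurd h (by simp)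
  · simp

theorem ph_am {a b y w t : A3} (h : Ph a b y w t) (ha : a = m) : b = p := by
  subst ha
  rcases h with ⟨-, ⟨-, -, h1, h2, -⟩ | ⟨-, ⟨-, h, -⟩ | ⟨-, h1, h2⟩ | ⟨-, ⟨h, -⟩ | ⟨-, h⟩ | ⟨h, -⟩⟩⟩⟩ |
    ⟨-, h, -⟩
  · exact absurd rfl h1
  · exact absurd h (by simp)
  · exact absurd rfl h1
  · exact absurd rfl h
  · exact h
  · exact absurd h (by simp)
  · exact absurd h (by simp)

theorem ph_bm {a b y w t : A3} (h : Ph a b y w t) (ha : b = m) : a = p := by
  subst ha
  rcases h with ⟨-, ⟨-, -, h1, h2, -⟩ | ⟨-, ⟨-, -, h⟩ | ⟨-, h1, h2⟩ | ⟨-, ⟨-, h⟩ | ⟨-, h⟩ | ⟨h, -⟩⟩⟩⟩ |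
    ⟨-, -, h, -⟩
  · exact absurd rfl h2
  · exact absurd h (by simp)
  · exact absurd rfl h2
  · exact absurd rfl h
  · exact absurd h (by simp)
  · exact h
  · exact absurd h (by simp)

theorem ph_wz {a b y w t : A3} (h : Ph a b y w t) (hw : w = z) :
    y = z ∧ a ≠ m ∧ b ≠ m ∧ (t = p → a = p ∨ b = p) := by
  subst hw
  rcases h with ⟨-, ⟨-, h1, h2, h3, h4⟩ | ⟨h, -⟩⟩ | ⟨ht, rfl, rfl, h1, -⟩
  · exact ⟨h1, h2, h3, fun _ => h4⟩
  · exact absurd h (by simp)
  · refine ⟨h1, by simp, by simp, ?_⟩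
    intro h; rw [ht] at h; exact absurd h (by simp)

theorem ph_tz {a b y w t : A3} (h : Ph a b y w t) (ht : t = z) :
    a = z ∧ b = z ∧ y = z ∧ w = z := by
  subst ht
  rcases h with ⟨h, -⟩ | ⟨-, h⟩
  · exact absurd h (by simp)
  · exact h

theorem tsop_good (n : ℕ) (hn : 0 < n) : Good (n + 1) (tsop : (Fin n → A3) → A3) := by
  classical
  refine ⟨?_, ?_, ?_, ?_, ?_⟩
  · exact tsop_eq_p _ ⟨0, hn⟩ rfl fun i => by simp
  · intro x
    have k1 : ∀ a, neg3 a = p ↔ a = m := by intro a; cases a <;> simp [neg3]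
    have k2 : ∀ a, neg3 a = m ↔ a = p := by intro a; cases a <;> simp [neg3]
    have h1 := tsop_p x
    have h2 := tsop_m x
    have h3 := tsop_p fun i => neg3 (x i)
    have h4 := tsop_m fun i => neg3 (x i)
    simp only [ne_eq, k1, k2] at h1 h2 h3 h4
    rw [← h2] at h3
    rw [← h1] at h4
    cases h5 : tsop x
    · rw [h5] at h3; simpa [neg3] using h3
    · rw [h5] at h3 h4
      simp only [reduceCtorEq, iff_false] at h3 h4
      show _ = z
      cases h6 : tsop fun i => neg3 (x i)
      · exact absurd h6 h4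
      · rfl
      · exact absurd h6 h3
    · rw [h5] at h4; simpa [neg3] using h4
  · intro g a b hg
    refine ⟨tsop_ne_m g fun i => (hg i).1, fun h => ?_⟩
    have : ∀ i, g i = z := by
      intro i
      cases h' : g i
      · exact absurd h' (hg i).1
      · rfl
      · rw [tsop_eq_p g i h' fun i => (hg i).1] at h
        exact absurd h (by simp)
    congr 1
    funext i
    exact (hg i).2 (this i)
  · intro a b y w t h
    by_cases ht : ∃ i, t i = p
    · obtain ⟨i0, hi0⟩ := ht
      left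
      refine ⟨tsop_eq_p t i0 hi0 fun i => ph_t (h i), ?_⟩
      by_cases hw : ∃ i, w i = p
      · obtain ⟨i1, hi1⟩ := hw
        right
        refine ⟨tsop_eq_p w i1 hi1 fun i => ph_w (h i), ?_⟩
        cases hY : tsop y
        · right; right
          refine ⟨rfl, ?_⟩
          by_cases hA : tsop a = m
          · right; left
            refine ⟨hA, ?_⟩
            obtain ⟨⟨i, hi⟩, hp⟩ := (tsop_m a).1 hA
            exact tsop_eq_p b i (ph_am (h i) hi) fun k hk => hp k (ph_bm (h k) hk)
          · by_cases hB : tsop b = m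
            · right; right
              refine ⟨?_, hB⟩
              obtain ⟨⟨i, hi⟩, hp⟩ := (tsop_m b).1 hB
              exact tsop_eq_p a i (ph_bm (h i) hi) fun k hk => hp k (ph_am (h k) hk)
            · left; exact ⟨hA, hB⟩
        · right; left
          refine ⟨rfl, ?_⟩
          by_cases hyp : ∃ i, y i = p
          · obtain ⟨i, hi⟩ := hyp
            obtain ⟨h1, h2⟩ := ph_yp (h i) hi
            exact ⟨tsop_ne_m' a i h1, tsop_ne_m' b i h2⟩
          · push Not at hyp
            have hyz : ∀ i, y i = z := by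
              intro i
              cases h' : y i
              · exfalso
                have : tsop y = m := (tsop_m y).2 ⟨⟨i, h'⟩, hyp⟩
                rw [hY] at this
                exact absurd this (by simp)
              · rfl
              · exact absurd h' (hyp i)
            exact ⟨tsop_ne_m a fun i => (ph_yz (h i) (hyz i)).1,
              tsop_ne_m b fun i => (ph_yz (h i) (hyz i)).2⟩
        · left
          obtain ⟨⟨i, hi⟩, hm⟩ := (tsop_p y).1 hY
          obtain ⟨h1, h2⟩ := ph_yp (h i) hi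
          have h3 : ∀ i, a i ≠ m ∧ b i ≠ m := by
            intro i
            cases h' : y i
            · exact absurd h' (hm i)
            · exact ph_yz (h i) h'
            · obtain ⟨h4, h5⟩ := ph_yp (h i) h'
              rw [h4, h5]; simp
          exact ⟨rfl, tsop_eq_p a i h1 fun i => (h3 i).1, tsop_eq_p b i h2 fun i => (h3 i).2⟩
      · push Not at hw
        have hwz : ∀ i, w i = z := by
          intro i
          cases h' : w i
          · exact absurd h' (ph_w (h i))
          · rfl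
          · exact absurd h' (hw i)
        left
        have h1 := fun i => ph_wz (h i) (hwz i)
        refine ⟨tsop_z w hwz, tsop_z y fun i => (h1 i).1, tsop_ne_m a fun i => (h1 i).2.1,
          tsop_ne_m b fun i => (h1 i).2.2.1, ?_⟩
        rcases (h1 i0).2.2.2 hi0 with h2 | h2
        · left; exact tsop_eq_p a i0 h2 fun i => (h1 i).2.1
        · right; exact tsop_eq_p b i0 h2 fun i => (h1 i).2.2.1
    · push Not at ht
      have htz : ∀ i, t i = z := by
        intro i
        cases h' : t i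
        · exact absurd h' (ph_t (h i))
        · rfl
        · exact absurd h' (ht i)
      right
      have h1 := fun i => ph_tz (h i) (htz i)
      exact ⟨tsop_z t htz, tsop_z a fun i => (h1 i).1, tsop_z b fun i => (h1 i).2.1,
        tsop_z y fun i => (h1 i).2.2.1, tsop_z w fun i => (h1 i).2.2.2⟩
  · intro x t h
    by_cases ht : ∃ i, t i = p
    · left
      obtain ⟨i0, hi0⟩ := ht
      have htm : ∀ i, t i ≠ m := by
        intro i
        rcases h i with ⟨h1, -⟩ | ⟨h1, -⟩ <;> rw [h1] <;> simp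
      refine ⟨tsop_eq_p t i0 hi0 htm, ?_⟩
      by_cases hm : ∃ j, tsop (x j) = m
      · obtain ⟨j, hj⟩ := hm
        right
        refine ⟨j, hj, ?_⟩
        obtain ⟨⟨i1, hi1⟩, hp⟩ := (tsop_m (x j)).1 hj
        intro k hk
        have h1 := (rh_m (h i1) j hi1).2 k hk
        refine tsop_eq_p (x k) i1 h1 ?_
        intro i hi
        exact hp i ((rh_m (h i) k hi).2 j (Ne.symm hk))
      · push Not at hm
        left
        refine ⟨hm, ?_⟩
        by_contra hcon
        push Not at hcon
        -- there is a row with an `m`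
        have hex : ∃ i1 j1, x j1 i1 = m := by
          rcases h i0 with ⟨-, ⟨-, j0, hj0⟩ | ⟨j, hj, -⟩⟩ | ⟨h1, -⟩
          · by_contra hno
            push Not at hno
            exact hcon j0 (tsop_eq_p _ i0 hj0 fun i => hno i j0)
          · exact ⟨i0, j, hj⟩
          · rw [h1] at hi0; exact absurd hi0 (by simp)
        obtain ⟨i1, j1, h11⟩ := hex
        have hcol : ∀ j, ∃ i, x j i = m := by
          intro j
          by_cases hj : j = j1
          · subst hj; exact ⟨i1, h11⟩
          · have h1 := (rh_m (h i1) j1 h11).2 j hj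
            by_contra hno
            push Not at hno
            exact hcon j (tsop_eq_p _ i1 h1 hno)
        choose c hc using hcol
        have hinj : Function.Injective c := by
          intro j j' hjj
          by_contra hne
          have h1 := (rh_m (h (c j)) j (hc j)).2 j' (Ne.symm hne)
          rw [hjj, hc j'] at h1
          exact absurd h1 (by simp)
        have := Fintype.card_le_of_injective c hinj
        simp at this
    · push Not at ht
      right
      have h1 : ∀ i, t i = z ∧ ∀ j, x j i = z := by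
        intro i
        rcases h i with ⟨h2, -⟩ | ⟨h2, h3⟩
        · exact absurd h2 (ht i)
        · exact ⟨h2, h3⟩
      exact ⟨tsop_z t fun i => (h1 i).1, fun j => tsop_z _ fun i => (h1 i).2 j⟩

end Pool.Agent.H845.Asc
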