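import Mathlib

/-!
Local clones on `ℕ`, and the finitary character of their joins.
An operation of arity `n+1` is a map `(Fin (n+1) → ℕ) → ℕ`.
-/

set_option autoImplicit false

namespace Pool.H845.LocClone

/-- A family of sets of operations; the `n`-th member consists of operations of arity `n+1`. -/
abbrev Ops : Type := ∀ n : ℕ, Set ((Fin (n + 1) → ℕ) → ℕ)

/-- `C` is a local clone on `ℕ`: it contains the projections, is closed under composition, and
contains every operation that agrees on each finite set with a member of `C`. -/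
def IsLocalClone (C : Ops) : Prop :=
  (∀ (n : ℕ) (i : Fin (n + 1)), (fun x : Fin (n + 1) → ℕ => x i) ∈ C n) ∧
  (∀ (n m : ℕ) (g : (Fin (n + 1) → ℕ) → ℕ) (hs : Fin (n + 1) → (Fin (m + 1) → ℕ) → ℕ),
    g ∈ C n → (∀ i, hs i ∈ C m) → (fun x : Fin (m + 1) → ℕ => g (fun i => hs i x)) ∈ C m) ∧
  (∀ (n : ℕ) (g : (Fin (n + 1) → ℕ) → ℕ),
    (∀ F : Finset (Fin (n + 1) → ℕ), ∃ h ∈ C n, ∀ x ∈ F, h x = g x) → g ∈ C n)

/-- `f` maps the lattice `L` injectively into the lattice of local clones and preserves binary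
joins (`f (a ⊔ b)` is the least local clone containing `f a` and `f b`). -/
def IsJoinEmbedding {L : Type} [Lattice L] (f : L → Ops) : Prop :=
  Function.Injective f ∧ (∀ a, IsLocalClone (f a)) ∧
  (∀ a b, f a ≤ f (a ⊔ b) ∧ f b ≤ f (a ⊔ b)) ∧
  (∀ a b C, IsLocalClone C → f a ≤ C → f b ≤ C → f (a ⊔ b) ≤ C)

/-- `f` is a lattice embedding of `L` into the lattice of local clones on `ℕ`
(meets are intersections). -/
def IsLatticeEmbedding {L : Type} [Lattice L] (f : L → Ops) : Prop :=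
  IsJoinEmbedding f ∧ ∀ a b, f (a ⊓ b) = f a ⊓ f b

/-- Finite partial operations, given by finite sets of (argument, value) pairs. -/
abbrev Piece : Type := Σ n : ℕ, Finset ((Fin (n + 1) → ℕ) × ℕ)

/-- The finite partial operations that extend to a member of `C`. -/
def W (C : Ops) : Set Piece :=
  {p | ∃ h ∈ C p.1, ∀ xy ∈ p.2, h xy.1 = xy.2}

lemma W_mono {C D : Ops} (h : C ≤ D) : W C ⊆ W D := by
  rintro p ⟨g, hg, hp⟩
  exact ⟨g, h p.1 hg, hp⟩

/-- a local clone is determined by its finite pieces -/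
lemma le_of_W {C D : Ops} (hD : IsLocalClone D) (h : W C ⊆ W D) : C ≤ D := by
  intro n g hg
  refine hD.2.2 n g fun F => ?_
  have hp : (⟨n, F.image (fun x => (x, g x))⟩ : Piece) ∈ W C := by
    refine ⟨g, hg, ?_⟩
    intro xy hxy
    rw [Finset.mem_image] at hxy
    obtain ⟨x, -, rfl⟩ := hxy
    rfl
  obtain ⟨k, hk, hk2⟩ := h hp
  exact ⟨k, hk, fun x hx => hk2 (x, g x) (Finset.mem_image.2 ⟨x, hx, rfl⟩)⟩

/-- The operations all of whose finite restrictions are forced by finitely many pieces of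
`C` and finitely many pieces of `D`. -/
def Forced (C D : Ops) : Ops := fun n =>
  {h | ∀ A : Finset (Fin (n + 1) → ℕ), ∃ F G : Finset Piece, (↑F ⊆ W C) ∧ (↑G ⊆ W D) ∧
    ∀ E : Ops, IsLocalClone E → ↑F ⊆ W E → ↑G ⊆ W E → ∃ k ∈ E n, ∀ x ∈ A, k x = h x}

lemma le_forced_left (C D : Ops) : C ≤ Forced C D := by
  intro n g hg A
  refine ⟨{⟨n, A.image (fun x => (x, g x))⟩}, ∅, ?_, by simp, ?_⟩
  · intro p hp
    simp only [Finset.coe_singleton, Set.mem_singleton_iff] at hp
    subst hp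
    refine ⟨g, hg, ?_⟩
    intro xy hxy
    obtain ⟨x, -, rfl⟩ := Finset.mem_image.1 hxy
    rfl
  · intro E hE hF _
    obtain ⟨k, hk, hk2⟩ := hF (Finset.mem_coe.2 (Finset.mem_singleton_self _))
    exact ⟨k, hk, fun x hx => hk2 (x, g x) (Finset.mem_image.2 ⟨x, hx, rfl⟩)⟩

lemma le_forced_right (C D : Ops) : D ≤ Forced C D := by
  intro n g hg A
  refine ⟨∅, {⟨n, A.image (fun x => (x, g x))⟩}, by simp, ?_, ?_⟩
  · intro p hp
    simp only [Finset.coe_singleton, Set.mem_singleton_iff] at hp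
    subst hp
    refine ⟨g, hg, ?_⟩
    intro xy hxy
    obtain ⟨x, -, rfl⟩ := Finset.mem_image.1 hxy
    rfl
  · intro E hE _ hF
    obtain ⟨k, hk, hk2⟩ := hF (Finset.mem_coe.2 (Finset.mem_singleton_self _))
    exact ⟨k, hk, fun x hx => hk2 (x, g x) (Finset.mem_image.2 ⟨x, hx, rfl⟩)⟩

lemma forced_isLocalClone (C D : Ops) : IsLocalClone (Forced C D) := by
  classical
  refine ⟨?_, ?_, ?_⟩
  · intro n i A
    refine ⟨∅, ∅, by simp, by simp, ?_⟩
    intro E hE _ _
    exact ⟨_, hE.1 n i, fun x _ => rfl⟩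
  · intro n m g hs hg hhs A
    -- pieces for g on the image of A
    obtain ⟨F0, G0, hF0, hG0, h0⟩ := hg (A.image (fun x => fun i => hs i x))
    choose Fi Gi hFi hGi hi using fun i => hhs i A
    refine ⟨F0 ∪ Finset.univ.biUnion Fi, G0 ∪ Finset.univ.biUnion Gi, ?_, ?_, ?_⟩
    · intro p hp
      rcases Finset.mem_union.1 (Finset.mem_coe.1 hp) with h | h
      · exact hF0 h
      · obtain ⟨i, -, hi'⟩ := Finset.mem_biUnion.1 h
        exact hFi i hi'
    · intro p hp
      rcases Finset.mem_union.1 (Finset.mem_coe.1 hp) with h | h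
      · exact hG0 h
      · obtain ⟨i, -, hi'⟩ := Finset.mem_biUnion.1 h
        exact hGi i hi'
    · intro E hE hF hG
      obtain ⟨k0, hk0, hk0'⟩ := h0 E hE (fun p hp => hF (Finset.mem_coe.2 (Finset.mem_union_left _ hp)))
        (fun p hp => hG (Finset.mem_coe.2 (Finset.mem_union_left _ hp)))
      have hex : ∀ i, ∃ k ∈ E m, ∀ x ∈ A, k x = hs i x := fun i =>
        hi i E hE
          (fun p hp => hF (Finset.mem_coe.2 (Finset.mem_union_right _
            (Finset.mem_biUnion.2 ⟨i, Finset.mem_univ _, hp⟩))))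
          (fun p hp => hG (Finset.mem_coe.2 (Finset.mem_union_right _
            (Finset.mem_biUnion.2 ⟨i, Finset.mem_univ _, hp⟩))))
      choose k hk hk' using hex
      refine ⟨_, hE.2.1 n m k0 k hk0 hk, ?_⟩
      intro x hx
      have e1 : (fun i => k i x) = fun i => hs i x := funext fun i => hk' i x hx
      simp only [e1]
      exact hk0' _ (Finset.mem_image.2 ⟨x, hx, rfl⟩)
  · intro n g hg A
    obtain ⟨h, hh, hhA⟩ := hg A
    obtain ⟨F, G, hF, hG, hE⟩ := hh A
    refine ⟨F, G, hF, hG, ?_⟩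
    intro E hEl h1 h2
    obtain ⟨k, hk, hk'⟩ := hE E hEl h1 h2
    exact ⟨k, hk, fun x hx => (hk' x hx).trans (hhA x hx)⟩

/-- the pairs of finite sets of pieces that together force the piece `p` -/
def Forces (FG : Finset Piece × Finset Piece) (p : Piece) : Prop :=
  ∀ E : Ops, IsLocalClone E → ↑FG.1 ⊆ W E → ↑FG.2 ⊆ W E → p ∈ W E

/-- finitary character of the join -/
lemma join_finitary {C D J : Ops} (hlub : ∀ E : Ops, IsLocalClone E → C ≤ E → D ≤ E → J ≤ E)
    {p : Piece} (hp : p ∈ W J) :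
    ∃ FG : Finset Piece × Finset Piece, (↑FG.1 ⊆ W C) ∧ (↑FG.2 ⊆ W D) ∧ Forces FG p := by
  classical
  obtain ⟨h, hh, hp⟩ := hp
  have h1 := hlub (Forced C D) (forced_isLocalClone C D) (le_forced_left C D) (le_forced_right C D)
    p.1 hh
  obtain ⟨F, G, hF, hG, hE⟩ := h1 (p.2.image Prod.fst)
  refine ⟨(F, G), hF, hG, ?_⟩
  intro E hEl e1 e2
  obtain ⟨k, hk, hk'⟩ := hE E hEl e1 e2
  refine ⟨k, hk, ?_⟩
  intro xy hxy
  rw [hk' xy.1 (Finset.mem_image.2 ⟨xy, hxy, rfl⟩)]
  exact hp xy hxy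

end Pool.H845.LocClone
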