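import Mathlib

/-!
The lattices `Lat R` of height three attached to a relation `R ⊆ ℝ × ℝ`.
-/

set_option autoImplicit false

namespace Pool.H845.LocClone

open Set
open scoped Cardinal

/-- Sets with at most one element, the pairs `{inl x, inr y}` with `(x, y) ∈ R`, everything. -/
def Good (R : Set (ℝ × ℝ)) (S : Set (ℝ ⊕ ℝ)) : Prop :=
  S.Subsingleton ∨ (∃ x y, (x, y) ∈ R ∧ S = {Sum.inl x, Sum.inr y}) ∨ S = univ

lemma good_sInter (R : Set (ℝ × ℝ)) (s : Set (Set (ℝ ⊕ ℝ))) (hs : ∀ S ∈ s, Good R S) :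
    Good R (⋂₀ s) := by
  by_cases hall : ∀ S ∈ s, S = univ
  · right; right
    ext z
    simp only [mem_sInter, mem_univ, iff_true]
    intro S hS
    rw [hall S hS]; trivial
  · push Not at hall
    obtain ⟨S, hS, hne⟩ := hall
    rcases hs S hS with h | ⟨x, y, hxy, rfl⟩ | h
    · left
      exact h.anti (sInter_subset_of_mem hS)
    · by_cases hx : Sum.inl x ∈ ⋂₀ s
      · by_cases hy : Sum.inr y ∈ ⋂₀ s
        · right; left
          refine ⟨x, y, hxy, ?_⟩
          apply Subset.antisymm (sInter_subset_of_mem hS)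
          rintro z (rfl | rfl)
          · exact hx
          · exact hy
        · left
          intro a ha b hb
          have ha' := sInter_subset_of_mem hS ha
          have hb' := sInter_subset_of_mem hS hb
          rcases ha' with rfl | rfl
          · rcases hb' with rfl | rfl
            · rfl
            · exact absurd hb hy
          · exact absurd ha hy
      · left
        intro a ha b hb
        have ha' := sInter_subset_of_mem hS ha
        have hb' := sInter_subset_of_mem hS hb
        rcases ha' with rfl | rfl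
        · exact absurd ha hx
        · rcases hb' with rfl | rfl
          · exact absurd hb hx
          · rfl
    · exact absurd h hne

/-- The lattice attached to `R`, ordered by inclusion. -/
def Lat (R : Set (ℝ × ℝ)) : Type := {S : Set (ℝ ⊕ ℝ) // Good R S}

instance (R : Set (ℝ × ℝ)) : PartialOrder (Lat R) :=
  inferInstanceAs (PartialOrder {S : Set (ℝ ⊕ ℝ) // Good R S})

instance (R : Set (ℝ × ℝ)) : InfSet (Lat R) :=
  ⟨fun s => ⟨⋂₀ (Subtype.val '' s), good_sInter R _ (by rintro _ ⟨a, -, rfl⟩; exact a.2)⟩⟩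

lemma le_def {R : Set (ℝ × ℝ)} (a b : Lat R) : a ≤ b ↔ a.1 ⊆ b.1 := Iff.rfl

noncomputable instance (R : Set (ℝ × ℝ)) : CompleteLattice (Lat R) :=
  completeLatticeOfInf (Lat R) (by
    intro s
    refine ⟨?_, ?_⟩
    · intro a ha
      exact sInter_subset_of_mem ⟨a, ha, rfl⟩
    · intro b hb
      refine subset_sInter ?_
      rintro _ ⟨a, ha, rfl⟩
      exact hb ha)

/-- the atom of a point -/
def pt (R : Set (ℝ × ℝ)) (z : ℝ ⊕ ℝ) : Lat R := ⟨{z}, Or.inl subsingleton_singleton⟩

/-- the top element -/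
def tp (R : Set (ℝ × ℝ)) : Lat R := ⟨univ, Or.inr (Or.inr rfl)⟩

lemma sup_eq_tp {R : Set (ℝ × ℝ)} {x y : ℝ} (h : (x, y) ∉ R) :
    pt R (Sum.inl x) ⊔ pt R (Sum.inr y) = tp R := by
  apply le_antisymm
  · exact fun z _ => mem_univ z
  · have h1 : (pt R (Sum.inl x)).1 ⊆ (pt R (Sum.inl x) ⊔ pt R (Sum.inr y)).1 :=
      (le_sup_left : pt R (Sum.inl x) ≤ _)
    have h2 : (pt R (Sum.inr y)).1 ⊆ (pt R (Sum.inl x) ⊔ pt R (Sum.inr y)).1 :=
      (le_sup_right : pt R (Sum.inr y) ≤ _)
    have h1' : Sum.inl x ∈ (pt R (Sum.inl x) ⊔ pt R (Sum.inr y)).1 := h1 rfl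
    have h2' : Sum.inr y ∈ (pt R (Sum.inl x) ⊔ pt R (Sum.inr y)).1 := h2 rfl
    rcases (pt R (Sum.inl x) ⊔ pt R (Sum.inr y)).2 with g | ⟨x', y', hxy, g⟩ | g
    · exact absurd (g h1' h2') (by simp)
    · rw [g] at h1' h2'
      simp at h1' h2'
      subst h1' h2'
      exact absurd hxy h
    · change univ ⊆ _
      rw [g]

lemma sup_ne_tp {R : Set (ℝ × ℝ)} {x y : ℝ} (h : (x, y) ∈ R) :
    pt R (Sum.inl x) ⊔ pt R (Sum.inr y) ≠ tp R := by
  intro he
  have hle : pt R (Sum.inl x) ⊔ pt R (Sum.inr y) ≤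
      (⟨{Sum.inl x, Sum.inr y}, Or.inr (Or.inl ⟨x, y, h, rfl⟩)⟩ : Lat R) := by
    apply sup_le
    · intro z hz
      rw [mem_singleton_iff.1 hz]; simp
    · intro z hz
      rw [mem_singleton_iff.1 hz]; simp
  rw [he] at hle
  have : (Sum.inl (x + 1) : ℝ ⊕ ℝ) ∈ ({Sum.inl x, Sum.inr y} : Set (ℝ ⊕ ℝ)) := hle (mem_univ _)
  simp at this

open Classical in
/-- height -/
noncomputable def rk {R : Set (ℝ × ℝ)} (a : Lat R) : Fin 4 :=
  if a.1 = ∅ then 0 else if a.1.Subsingleton then 1 else if a.1 = univ then 3 else 2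

lemma rk_strictMono {R : Set (ℝ × ℝ)} {a b : Lat R} (h : a < b) : rk a < rk b := by
  classical
  have hle : a.1 ⊆ b.1 := h.le
  have hne : a.1 ≠ b.1 := fun e => h.ne (Subtype.ext e)
  unfold rk
  by_cases ha : a.1 = ∅
  · have hb : b.1 ≠ ∅ := fun e => hne (ha.trans e.symm)
    simp only [ha, if_true, hb, if_false]
    split_ifs <;> decide
  · have hb : b.1 ≠ ∅ := fun e => ha (subset_empty_iff.1 (e ▸ hle))
    by_cases ha1 : a.1.Subsingleton
    · have hb1 : ¬ b.1.Subsingleton := by
        intro hb1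
        apply hne
        obtain ⟨z, hz⟩ := nonempty_iff_ne_empty.2 ha
        apply Subset.antisymm hle
        intro w hw
        rw [hb1 hw (hle hz)]; exact hz
      simp only [ha, if_false, ha1, if_true, hb, hb1]
      split_ifs <;> decide
    · have hb1 : ¬ b.1.Subsingleton := fun hb1 => ha1 (hb1.anti hle)
      have ha2 : a.1 ≠ univ := by
        intro e
        apply hne
        rw [e] at hle ⊢
        exact (univ_subset_iff.1 hle).symm
      have hb2 : b.1 = univ := by
        rcases b.2 with g | ⟨x', y', hxy, g⟩ | g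
        · exact absurd g hb1
        · exfalso
          rcases a.2 with k | ⟨x, y, hxy2, k⟩ | k
          · exact ha1 k
          · apply hne
            rw [k, g] at hle
            have e1 := hle (mem_insert _ _)
            have e2 := hle (mem_insert_of_mem _ (mem_singleton _))
            simp at e1 e2
            rw [k, g, e1, e2]
          · exact ha2 k
        · exact g
      rw [if_neg ha, if_neg ha1, if_neg ha2, if_neg hb, if_neg hb1, if_pos hb2]
      decide

lemma chain_card {R : Set (ℝ × ℝ)} (s : Set (Lat R)) (hs : IsChain (· ≤ ·) s) :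
    s.encard ≤ 4 := by
  have hinj : InjOn (rk (R := R)) s := by
    intro a ha b hb hab
    by_contra hne
    rcases hs ha hb hne with h | h
    · exact absurd hab (rk_strictMono (lt_of_le_of_ne h hne)).ne
    · exact absurd hab (rk_strictMono (lt_of_le_of_ne h (Ne.symm hne))).ne'
  rw [← hinj.encard_image]
  calc (rk (R := R) '' s).encard ≤ (univ : Set (Fin 4)).encard := encard_le_encard (subset_univ _)
    _ = 4 := by simp [Set.encard_univ]

lemma card_lat (R : Set (ℝ × ℝ)) : #(Lat R) = 𝔠 := by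
  classical
  apply le_antisymm
  · let g : Option (ℝ ⊕ ℝ) ⊕ Option (ℝ × ℝ) → Lat R := fun z =>
      match z with
      | Sum.inl none => ⟨∅, Or.inl subsingleton_empty⟩
      | Sum.inl (some z) => pt R z
      | Sum.inr none => tp R
      | Sum.inr (some p) =>
        if h : (p.1, p.2) ∈ R then
          ⟨{Sum.inl p.1, Sum.inr p.2}, Or.inr (Or.inl ⟨p.1, p.2, h, rfl⟩)⟩
        else tp R
    have hg : Function.Surjective g := by
      rintro ⟨S, hS⟩
      rcases hS with h | ⟨x, y, hxy, rfl⟩ | h
      · rcases h.eq_empty_or_singleton with rfl | ⟨z, rfl⟩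
        · exact ⟨Sum.inl none, rfl⟩
        · exact ⟨Sum.inl (some z), rfl⟩
      · refine ⟨Sum.inr (some (x, y)), ?_⟩
        exact dif_pos hxy
      · subst h
        exact ⟨Sum.inr none, rfl⟩
    calc #(Lat R) ≤ #(Option (ℝ ⊕ ℝ) ⊕ Option (ℝ × ℝ)) := Cardinal.mk_le_of_surjective hg
      _ = 𝔠 := by
        have h1 : (𝔠 : Cardinal.{0}) + 1 = 𝔠 := by
          have := Cardinal.continuum_add_nat.{0} 1
          simpa using this
        simp [Cardinal.mk_real, h1]
  · calc 𝔠 = #ℝ := Cardinal.mk_real.symm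
      _ ≤ #(Lat R) := by
        refine Cardinal.mk_le_of_injective (f := fun x => pt R (Sum.inl x)) ?_
        intro x y hxy
        have := congrArg Subtype.val hxy
        simp only [pt, singleton_eq_singleton_iff, Sum.inl.injEq] at this
        exact this

end Pool.H845.LocClone
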