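import Pool.Agent.H845.StubDefs

/-!
A general back-and-forth lemma, a cut lemma, and the classification of the functions
`(K → Bool) → Bool` that preserve the not-all-equal relation.
-/

namespace Pool.Agent.H845.Stub

theorem backForth {X Y : Type} [Countable X] [Countable Y] [DecidableEq (X × Y)]
    (G : Finset (X × Y) → Prop)
    (hinj : ∀ p, G p → ∀ a ∈ p, ∀ b ∈ p, a.1 = b.1 ↔ a.2 = b.2)
    (forth : ∀ p, G p → ∀ x, ∃ y, G (insert (x, y) p))
    (back : ∀ p, G p → ∀ y, ∃ x, G (insert (x, y) p))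
    (p₀ : Finset (X × Y)) (h₀ : G p₀) :
    ∃ e : X ≃ Y, (∀ a ∈ p₀, e a.1 = a.2) ∧
      ∀ S : Finset X, ∃ q, G q ∧ ∀ x ∈ S, (x, e x) ∈ q := by
  classical
  have : Encodable X := Encodable.ofCountable _
  have : Encodable Y := Encodable.ofCountable _
  let P := {p : Finset (X × Y) // G p}
  let 𝒟 : X ⊕ Y → Order.Cofinal P := fun i => match i with
    | Sum.inl x =>
      { carrier := {q | ∃ y, (x, y) ∈ q.1}
        isCofinal := by
          intro q
          obtain ⟨y, hy⟩ := forth q.1 q.2 x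
          exact ⟨⟨insert (x, y) q.1, hy⟩, ⟨y, Finset.mem_insert_self _ _⟩,
            Finset.subset_insert _ _⟩ }
    | Sum.inr y =>
      { carrier := {q | ∃ x, (x, y) ∈ q.1}
        isCofinal := by
          intro q
          obtain ⟨x, hx⟩ := back q.1 q.2 y
          exact ⟨⟨insert (x, y) q.1, hx⟩, ⟨x, Finset.mem_insert_self _ _⟩,
            Finset.subset_insert _ _⟩ }
  let I := Order.idealOfCofinals (⟨p₀, h₀⟩ : P) 𝒟
  have h1 : ∀ x : X, ∃ y : Y, ∃ q : P, q ∈ I ∧ (x, y) ∈ q.1 := by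
    intro x
    obtain ⟨q, ⟨y, hy⟩, hq⟩ := Order.cofinal_meets_idealOfCofinals (⟨p₀, h₀⟩ : P) 𝒟 (Sum.inl x)
    exact ⟨y, q, hq, hy⟩
  have h2 : ∀ y : Y, ∃ x : X, ∃ q : P, q ∈ I ∧ (x, y) ∈ q.1 := by
    intro y
    obtain ⟨q, ⟨x, hx⟩, hq⟩ := Order.cofinal_meets_idealOfCofinals (⟨p₀, h₀⟩ : P) 𝒟 (Sum.inr y)
    exact ⟨x, q, hq, hx⟩
  choose f qf hqf hf using h1
  choose g qg hqg hg using h2
  have h3 : ∀ a b : X × Y, (∃ q : P, q ∈ I ∧ a ∈ q.1) → (∃ q : P, q ∈ I ∧ b ∈ q.1) →
      (a.1 = b.1 ↔ a.2 = b.2) := by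
    rintro a b ⟨q, hq, ha⟩ ⟨r, hr, hb⟩
    obtain ⟨w, hw, h4, h5⟩ := I.directed _ hq _ hr
    exact hinj w.1 w.2 a (h4 ha) b (h5 hb)
  have hgf : ∀ x, g (f x) = x := fun x =>
    (h3 (g (f x), f x) (x, f x) ⟨_, hqg _, hg _⟩ ⟨_, hqf _, hf _⟩).2 rfl
  have hfg : ∀ y, f (g y) = y := fun y =>
    (h3 (g y, f (g y)) (g y, y) ⟨_, hqf _, hf _⟩ ⟨_, hqg _, hg _⟩).1 rfl
  refine ⟨⟨f, g, hgf, hfg⟩, ?_, ?_⟩
  · intro a ha
    exact (h3 (a.1, f a.1) a ⟨_, hqf _, hf _⟩
      ⟨_, Order.mem_idealOfCofinals (⟨p₀, h₀⟩ : P) 𝒟, ha⟩).1 rfl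
  · intro S
    have h6 : ∃ u : P, u ∈ I ∧ ∀ x ∈ S, (x, f x) ∈ u.1 := by
      induction S using Finset.induction with
      | empty => exact ⟨_, Order.mem_idealOfCofinals (⟨p₀, h₀⟩ : P) 𝒟, by simp⟩
      | insert x S hx ih =>
        obtain ⟨u, hu, hu'⟩ := ih
        obtain ⟨w, hw, h4, h5⟩ := I.directed _ hu _ (hqf x)
        refine ⟨w, hw, fun z hz => ?_⟩
        rw [Finset.mem_insert] at hz
        rcases hz with rfl | hz
        · exact h5 (hf _)
        · exact h4 (hu' z hz)
    obtain ⟨u, _, hu'⟩ := h6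
    exact ⟨u.1, u.2, hu'⟩

theorem cut {X Y : Type} (p : Finset (X × Y)) (φ : X → ℝ) (ψ : Y → ℝ)
    (h : ∀ a ∈ p, ∀ b ∈ p, φ a.1 < φ b.1 → ψ a.2 < ψ b.2) (x : X)
    (hx : ∀ a ∈ p, φ a.1 ≠ φ x) :
    ∃ l u : ℝ, l < u ∧ ∀ r, l < r → r < u →
      ∀ a ∈ p, (φ a.1 < φ x ↔ ψ a.2 < r) ∧ (φ x < φ a.1 ↔ r < ψ a.2) := by
  classical
  let lo : Finset ℝ := (p.filter (fun a => φ a.1 < φ x)).image (fun a => ψ a.2)
  let hi : Finset ℝ := (p.filter (fun a => φ x < φ a.1)).image (fun a => ψ a.2)
  have hlh : ∀ s ∈ lo, ∀ t ∈ hi, s < t := by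
    intro s hs t ht
    simp only [lo, hi, Finset.mem_image, Finset.mem_filter] at hs ht
    obtain ⟨a, ⟨ha, ha'⟩, rfl⟩ := hs
    obtain ⟨b, ⟨hb, hb'⟩, rfl⟩ := ht
    exact h a ha b hb (ha'.trans hb')
  obtain ⟨l, hl1, hl2⟩ := Order.exists_between_finsets lo hi hlh
  obtain ⟨u, hu1, hu2⟩ := Order.exists_between_finsets (insert l lo) hi (by
    intro s hs t ht
    rw [Finset.mem_insert] at hs
    rcases hs with rfl | hs
    · exact hl2 t ht
    · exact hlh s hs t ht)
  refine ⟨l, u, hu1 l (Finset.mem_insert_self _ _), fun r hr1 hr2 a ha => ?_⟩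
  rcases lt_trichotomy (φ a.1) (φ x) with h1 | h1 | h1
  · have h2 : ψ a.2 < l := hl1 _ (Finset.mem_image_of_mem _ (Finset.mem_filter.2 ⟨ha, h1⟩))
    constructor
    · exact ⟨fun _ => h2.trans hr1, fun _ => h1⟩
    · exact ⟨fun h3 => absurd h3 (not_lt_of_gt h1), fun h3 => absurd (h2.trans hr1)
        (not_lt_of_gt h3)⟩
  · exact absurd h1 (hx a ha)
  · have h2 : u < ψ a.2 := hu2 _ (Finset.mem_image_of_mem _ (Finset.mem_filter.2 ⟨ha, h1⟩))
    constructor
    · exact ⟨fun h3 => absurd h3 (not_lt_of_gt h1), fun h3 => absurd (hr2.trans h2)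
        (not_lt_of_gt h3)⟩
    · exact ⟨fun _ => hr2.trans h2, fun _ => h1⟩

/-- Functions preserving the not-all-equal relation depend on one coordinate. -/
theorem nae_dictator {K : Type} [Finite K] (s : (K → Bool) → Bool)
    (h : ∀ x y z : K → Bool, (∀ k, ¬ (x k = y k ∧ y k = z k)) → ¬ (s x = s y ∧ s y = s z)) :
    ∃ (k : K) (c : Bool), ∀ x, s x = xor c (x k) := by
  classical
  have := Fintype.ofFinite K
  -- the normalised function
  obtain ⟨c, s', hs', htop⟩ : ∃ (c : Bool) (s' : (K → Bool) → Bool),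
      (∀ x, s x = xor c (s' x)) ∧ s' (fun _ => true) = true := by
    refine ⟨!(s fun _ => true), fun x => xor (!(s fun _ => true)) (s x), fun x => ?_, ?_⟩
    · show s x = xor (!(s fun _ => true)) (xor (!(s fun _ => true)) (s x))
      cases s x <;> cases (s fun _ => true) <;> rfl
    · show xor (!(s fun _ => true)) (s fun _ => true) = true
      cases (s fun _ => true) <;> rfl
  have h' : ∀ x y z : K → Bool, (∀ k, ¬ (x k = y k ∧ y k = z k)) →
      ¬ (s' x = s' y ∧ s' y = s' z) := by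
    intro x y z hxyz hcon
    apply h x y z hxyz
    rw [hs' x, hs' y, hs' z, hcon.1, hcon.2]
    exact ⟨rfl, rfl⟩
  have hneg : ∀ x : K → Bool, s' (fun k => !(x k)) = !(s' x) := by
    intro x
    have := h' x (fun k => !(x k)) x (fun k => by cases x k <;> simp)
    revert this
    cases s' x <;> cases s' (fun k => !(x k)) <;> simp
  have hbot : s' (fun _ => false) = false := by
    have := hneg (fun _ => true)
    rw [htop] at this
    simpa using this
  have hand : ∀ x y : K → Bool, s' x = true → s' y = true → s' (fun k => x k && y k) = true := by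
    intro x y hx hy
    have h1 := h' x y (fun k => !(x k && y k)) (fun k => by cases x k <;> cases y k <;> simp)
    rw [hneg (fun k => x k && y k), hx, hy] at h1
    revert h1
    cases s' (fun k => x k && y k) <;> simp
  have hmono : ∀ x y : K → Bool, (∀ k, x k = true → y k = true) → s' x = true →
      s' y = true := by
    intro x y hxy hx
    by_contra hy
    have hy' : s' (fun k => !(y k)) = true := by
      rw [hneg]
      simpa using hy
    have h1 := hand x (fun k => !(y k)) hx hy'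
    have h2 : (fun k => x k && !(y k)) = fun _ => false := by
      funext k
      have := hxy k
      revert this
      cases x k <;> cases y k <;> simp
    rw [h2, hbot] at h1
    exact absurd h1 (by simp)
  -- the intersection of all accepted vectors
  have hinter : ∀ T : Finset (K → Bool), (∀ x ∈ T, s' x = true) →
      s' (fun k => decide (∀ x ∈ T, x k = true)) = true := by
    intro T
    induction T using Finset.induction with
    | empty =>
      intro _
      have : (fun k : K => decide (∀ x ∈ (∅ : Finset (K → Bool)), x k = true)) =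
          fun _ => true := by
        funext k; simp
      rw [this, htop]
    | insert x T hx ih =>
      intro hT
      have h1 := hand x _ (hT x (Finset.mem_insert_self _ _))
        (ih fun y hy => hT y (Finset.mem_insert_of_mem hy))
      convert h1 using 2
      funext k
      simp [Bool.decide_and]
  let T : Finset (K → Bool) := Finset.univ.filter (fun x => s' x = true)
  have hT : s' (fun k => decide (∀ x ∈ T, x k = true)) = true :=
    hinter T (fun x hx => by simpa [T] using hx)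
  obtain ⟨k, hk⟩ : ∃ k : K, ∀ x ∈ T, x k = true := by
    by_contra hcon
    push Not at hcon
    have : (fun k : K => decide (∀ x ∈ T, x k = true)) = fun _ => false := by
      funext k
      obtain ⟨x, hx, hx'⟩ := hcon k
      rw [decide_eq_false_iff_not]
      intro h1
      exact hx' (h1 x hx)
    rw [this, hbot] at hT
    exact absurd hT (by simp)
  refine ⟨k, c, fun x => ?_⟩
  rw [hs' x]
  congr 1
  rcases hx : s' x with _ | _
  · have h1 : s' (fun k => !(x k)) = true := by rw [hneg, hx]; rfl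
    have h2 := hk _ (by simpa [T] using h1)
    simp at h2
    exact h2.symm
  · exact (hk x (by simpa [T] using hx)).symm

end Pool.Agent.H845.Stub
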