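import Pool.Agent.H845.StubStub

/-!
Homogeneous structures in finite relational languages are `ω`-categorical; homogeneity of `BS`
and `AS`; `AS` is a model-complete core with a commutative polymorphism.
-/

namespace Pool.Agent.H845.Stub

open FirstOrder FirstOrder.Language

section Categorical

variable {L : FirstOrder.Language.{0, 0}}

/-- Atomic formulas in the variables `I`. -/
abbrev AtIdx (L : FirstOrder.Language.{0, 0}) (I : Type) : Type :=
  (I × I) ⊕ (Σ R : (Σ n, L.Relations n), (Fin R.1 → I))

/-- The Mathlib formula of an atomic formula. -/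
def atFormula {I : Type} : AtIdx L I → L.Formula I
  | .inl p => (Term.var p.1).equal (Term.var p.2)
  | .inr r => r.1.2.formula (fun i => Term.var (r.2 i))

/-- Two tuples (possibly in different structures) satisfy the same atomic formulas. -/
def SameAt {M N I : Type} (A : L.Structure M) (B : L.Structure N) (t : I → M) (s : I → N) : Prop :=
  (∀ i j, t i = t j ↔ s i = s j) ∧
    ∀ (n : ℕ) (R : L.Relations n) (v : Fin n → I),
      A.RelMap R (fun i => t (v i)) ↔ B.RelMap R (fun i => s (v i))

/-- The truth value of an atomic formula. -/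
def atTrue {M I : Type} (A : L.Structure M) (t : I → M) : AtIdx L I → Prop
  | .inl p => t p.1 = t p.2
  | .inr r => A.RelMap r.1.2 (fun i => t (r.2 i))

theorem realize_atFormula {M I : Type} (A : L.Structure M) (t : I → M) (a : AtIdx L I) :
    (atFormula a).Realize t ↔ atTrue A t a := by
  rcases a with p | r
  · simp [atFormula, atTrue, Formula.realize_equal]
  · simp [atFormula, atTrue, Formula.realize_rel]

open Classical in
/-- The complete atomic description of a tuple. -/
noncomputable def diag [Finite (Σ n, L.Relations n)] {M I : Type} [Finite I]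
    (A : L.Structure M) (t : I → M) : L.Formula I :=
  Formula.iInf (fun a : AtIdx L I => if atTrue A t a then atFormula a else (atFormula a).not)

theorem realize_diag [Finite (Σ n, L.Relations n)] {M N I : Type} [Finite I]
    (A : L.Structure M) (B : L.Structure N) (t : I → M) (s : I → N) :
    (diag A t).Realize s ↔ SameAt A B t s := by
  classical
  rw [diag, Formula.realize_iInf]
  have key : ∀ a : AtIdx L I, (Formula.Realize
      (if atTrue A t a then atFormula a else (atFormula a).not) s) ↔
      (atTrue A t a ↔ atTrue B s a) := by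
    intro a
    split_ifs with h
    · rw [realize_atFormula B]; tauto
    · rw [Formula.realize_not, realize_atFormula B]; tauto
  simp only [key]
  constructor
  · intro h
    exact ⟨fun i j => h (.inl (i, j)), fun n R v => h (.inr ⟨⟨n, R⟩, v⟩)⟩
  · rintro ⟨h1, h2⟩ (⟨i, j⟩ | ⟨⟨n, R⟩, v⟩)
    · exact h1 i j
    · exact h2 n R v

theorem SameAt.symm' {M N I : Type} {A : L.Structure M} {B : L.Structure N} {t : I → M}
    {s : I → N} (h : SameAt A B t s) : SameAt B A s t :=
  ⟨fun i j => (h.1 i j).symm, fun n R v => (h.2 n R v).symm⟩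

theorem SameAt.trans' {M N Q I : Type} {A : L.Structure M} {B : L.Structure N}
    {C : L.Structure Q} {t : I → M} {s : I → N} {r : I → Q} (h : SameAt A B t s)
    (h' : SameAt B C s r) : SameAt A C t r :=
  ⟨fun i j => (h.1 i j).trans (h'.1 i j), fun n R v => (h.2 n R v).trans (h'.2 n R v)⟩

theorem SameAt.comp {M N I J : Type} {A : L.Structure M} {B : L.Structure N} {t : I → M}
    {s : I → N} (h : SameAt A B t s) (f : J → I) :
    SameAt A B (fun j => t (f j)) (fun j => s (f j)) :=
  ⟨fun i j => h.1 (f i) (f j), fun n R v => h.2 n R (fun i => f (v i))⟩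

theorem SameAt.of_aut {M I : Type} {A : L.Structure M} {g : M ≃ M} (hg : IsAut A g) (t : I → M) :
    SameAt A A t (fun i => g (t i)) :=
  ⟨fun i j => (g.injective.eq_iff).symm, fun n R v => (hg n R (fun i => t (v i))).symm⟩

theorem Homogeneous.sameAt {M : Type} {A : L.Structure M} (hA : Homogeneous A) {I : Type}
    [Finite I] {t s : I → M} (h : SameAt A A t s) :
    ∃ g : M ≃ M, IsAut A g ∧ ∀ i, g (t i) = s i := by
  classical
  have := Fintype.ofFinite I
  rcases isEmpty_or_nonempty I with hI | hI
  · exact ⟨Equiv.refl M, fun n R x => Iff.rfl, fun i => hI.elim i⟩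
  let r : M → I := fun x => if hx : ∃ i, t i = x then hx.choose else Classical.arbitrary I
  have hr : ∀ i, t (r (t i)) = t i := by
    intro i
    have hx : ∃ j, t j = t i := ⟨i, rfl⟩
    have : r (t i) = hx.choose := dif_pos hx
    rw [this]
    exact hx.choose_spec
  have hp : ∀ i, s (r (t i)) = s i := fun i => (h.1 _ _).1 (hr i)
  obtain ⟨g, hg, hg'⟩ := hA (Finset.univ.image t) (fun x => s (r x)) (by
    intro x hx y hy hxy
    simp only [Finset.coe_image, Finset.coe_univ, Set.image_univ, Set.mem_range] at hx hy
    obtain ⟨i, rfl⟩ := hx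
    obtain ⟨j, rfl⟩ := hy
    simp only [hp] at hxy
    exact (h.1 i j).2 hxy) (by
    intro n R x hx
    have h1 : ∀ i, ∃ j, t j = x i := by
      intro i
      simpa using hx i
    choose v hv using h1
    have h2 : x = fun i => t (v i) := funext fun i => (hv i).symm
    rw [h2]
    simp only [hp]
    exact (h.2 n R v).symm)
  exact ⟨g, hg, fun i => by rw [hg' (t i) (by simp), hp]⟩

theorem omega_of_homogeneous [Finite (Σ n, L.Relations n)] {M : Type}
    (hM : Countable M) {A : L.Structure M} (hA : Homogeneous A) : OmegaCategorical A := by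
  classical
  refine ⟨hM, fun N B hN hB => ?_⟩
  have hB' : ∀ φ : L.Sentence, (@Sentence.Realize L N B φ ↔ @Sentence.Realize L M A φ) := by
    intro φ
    let := A
    let := B
    have := hB
    exact realize_iff_of_model_completeTheory M N φ
  -- transfer of existential closures of formulas
  have tr : ∀ (k : ℕ) (φ : L.Formula (Fin k)),
      (∃ t : Fin k → M, @Formula.Realize L M A _ φ t) ↔
        ∃ s : Fin k → N, @Formula.Realize L N B _ φ s := by
    intro k φ
    have h1 := hB' (Formula.iExs (α := Empty) (Fin k) (φ.relabel Sum.inr))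
    let := A
    let := B
    unfold Sentence.Realize at h1
    rw [Formula.realize_iExs, Formula.realize_iExs] at h1
    simp only [Formula.realize_relabel, Sum.elim_comp_inr] at h1
    exact h1.symm
  let G : Finset (M × N) → Prop := fun p =>
    SameAt A B (fun i : ↥p => i.1.1) (fun i : ↥p => i.1.2)
  -- the one-point extension property for tuples
  have ext1 : ∀ (k : ℕ) (t : Fin k → M) (s : Fin k → N), SameAt A B t s → ∀ x : M, ∃ y : N,
      SameAt A B (Fin.snoc (α := fun _ => M) t x) (Fin.snoc (α := fun _ => N) s y) := by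
    intro k t s hts x
    by_contra hcon
    push Not at hcon
    -- the formula `diag t ∧ ¬ ∃ y diag (t, x)`
    let ψ : L.Formula (Fin k) := Formula.iExs (Fin 1)
      ((diag A (Fin.snoc (α := fun _ => M) t x)).relabel finSumFinEquiv.symm)
    have hreal : ∀ {Q : Type} (C : L.Structure Q) (u : Fin k → Q),
        @Formula.Realize L Q C _ ψ u ↔
          ∃ y : Q, SameAt A C (Fin.snoc (α := fun _ => M) t x) (Fin.snoc (α := fun _ => Q) u y) := by
      intro Q C u
      let := C
      simp only [ψ]
      rw [Formula.realize_iExs]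
      simp only [Formula.realize_relabel]
      have e : ∀ w : Fin 1 → Q, (Sum.elim u w ∘ (finSumFinEquiv.symm : Fin (k + 1) → Fin k ⊕ Fin 1))
          = Fin.snoc (α := fun _ => Q) u (w 0) := by
        intro w
        funext i
        refine Fin.lastCases ?_ (fun j => ?_) i
        · have : (finSumFinEquiv.symm (Fin.last k) : Fin k ⊕ Fin 1) = Sum.inr 0 := by
            rw [Equiv.symm_apply_eq]; rfl
          simp [this]
        · have : (finSumFinEquiv.symm j.castSucc : Fin k ⊕ Fin 1) = Sum.inl j := by
            rw [Equiv.symm_apply_eq]; rfl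
          simp [this]
      simp only [e, realize_diag A C]
      constructor
      · rintro ⟨w, hw⟩
        exact ⟨w 0, hw⟩
      · rintro ⟨y, hy⟩
        exact ⟨fun _ => y, hy⟩
    have h1 : ¬ ∃ u : Fin k → M, @Formula.Realize L M A _ (diag A t ⊓ ψ.not) u := by
      rintro ⟨u, hu⟩
      let := A
      rw [Formula.realize_inf, Formula.realize_not, realize_diag A A, hreal A] at hu
      apply hu.2
      obtain ⟨g, hg, hg'⟩ := hA.sameAt hu.1
      refine ⟨g x, ?_⟩
      convert SameAt.of_aut hg (Fin.snoc (α := fun _ => M) t x) using 1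
      funext i
      refine Fin.lastCases ?_ (fun j => ?_) i
      · simp
      · simp [hg']
    rw [tr] at h1
    apply h1
    refine ⟨s, ?_⟩
    let := B
    rw [Formula.realize_inf, Formula.realize_not, realize_diag A B, hreal B]
    refine ⟨hts, ?_⟩
    rintro ⟨y, hy⟩
    exact hcon y hy
  have ext2 : ∀ (k : ℕ) (t : Fin k → M) (s : Fin k → N), SameAt A B t s → ∀ y : N, ∃ x : M,
      SameAt A B (Fin.snoc (α := fun _ => M) t x) (Fin.snoc (α := fun _ => N) s y) := by
    intro k t s hts y
    obtain ⟨u, hu⟩ := (tr (k + 1) (diag B (Fin.snoc (α := fun _ => N) s y))).2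
      ⟨Fin.snoc (α := fun _ => N) s y, by
        rw [realize_diag B B]; exact ⟨fun _ _ => Iff.rfl, fun _ _ _ => Iff.rfl⟩⟩
    rw [realize_diag B A] at hu
    have h1 : SameAt B A s (fun i : Fin k => u i.castSucc) := by
      convert hu.comp (fun i : Fin k => i.castSucc) using 1
      funext i
      simp
    obtain ⟨g, hg, hg'⟩ := hA.sameAt (h1.symm'.trans' hts.symm')
    refine ⟨g (u (Fin.last k)), ?_⟩
    have h2 := (hu.trans' (SameAt.of_aut hg u)).symm'
    convert h2 using 1
    funext i
    refine Fin.lastCases ?_ (fun j => ?_) i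
    · simp
    · simp [hg']
  -- passing between finite partial maps and tuples
  have ofTuple : ∀ (p : Finset (M × N)) (x : M) (y : N) (k : ℕ) (e : ↥p ≃ Fin k),
      SameAt A B (Fin.snoc (α := fun _ => M) (fun i => (e.symm i).1.1) x)
        (Fin.snoc (α := fun _ => N) (fun i => (e.symm i).1.2) y) → G (insert (x, y) p) := by
    intro p x y k e h
    let f : ↥(insert (x, y) p) → Fin (k + 1) := fun i =>
      if hi : i.1 ∈ p then (e ⟨i.1, hi⟩).castSucc else Fin.last k
    have h1 := h.comp f
    have e1 : ∀ i, (Fin.snoc (α := fun _ => M) (fun i => (e.symm i).1.1) x) (f i) = i.1.1 := by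
      rintro ⟨i, hi⟩
      simp only [f]
      split_ifs with h
      · simp
      · rw [Finset.mem_insert] at hi
        rcases hi with rfl | hi
        · simp
        · exact absurd hi h
    have e2 : ∀ i, (Fin.snoc (α := fun _ => N) (fun i => (e.symm i).1.2) y) (f i) = i.1.2 := by
      rintro ⟨i, hi⟩
      simp only [f]
      split_ifs with h
      · simp
      · rw [Finset.mem_insert] at hi
        rcases hi with rfl | hi
        · simp
        · exact absurd hi h
    simpa only [e1, e2] using h1
  obtain ⟨e, he, he'⟩ := backForth G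
    (fun p hp a ha b hb => hp.1 ⟨a, ha⟩ ⟨b, hb⟩)
    (fun p hp x => by
      obtain ⟨k, ⟨e⟩⟩ := Finite.exists_equiv_fin ↥p
      obtain ⟨y, hy⟩ := ext1 k (fun i => (e.symm i).1.1) (fun i => (e.symm i).1.2)
        (hp.comp e.symm) x
      exact ⟨y, ofTuple p x y k e hy⟩)
    (fun p hp y => by
      obtain ⟨k, ⟨e⟩⟩ := Finite.exists_equiv_fin ↥p
      obtain ⟨x, hx⟩ := ext2 k (fun i => (e.symm i).1.1) (fun i => (e.symm i).1.2)
        (hp.comp e.symm) y
      exact ⟨x, ofTuple p x y k e hx⟩)
    ∅ (by
      -- the empty partial map: only nullary relations matter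
      refine ⟨fun i => absurd i.2 (Finset.notMem_empty _), fun n R v => ?_⟩
      rcases Nat.eq_zero_or_pos n with rfl | hn
      · have h0 := tr 0 (R.formula (fun i : Fin 0 => i.elim0))
        have hM0 : ∀ t : Fin 0 → M, (@Formula.Realize L M A _ (R.formula (fun i : Fin 0 => i.elim0)) t)
            ↔ A.RelMap R (fun i => (v i).1.1) := by
          intro t
          let := A
          rw [Formula.realize_rel]
          have : ∀ w w' : Fin 0 → M, (A.RelMap R w ↔ A.RelMap R w') := by
            intro w w'
            rw [Subsingleton.elim w w']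
          exact this _ _
        have hN0 : ∀ t : Fin 0 → N, (@Formula.Realize L N B _ (R.formula (fun i : Fin 0 => i.elim0)) t)
            ↔ B.RelMap R (fun i => (v i).1.2) := by
          intro t
          let := B
          rw [Formula.realize_rel]
          have : ∀ w w' : Fin 0 → N, (B.RelMap R w ↔ B.RelMap R w') := by
            intro w w'
            rw [Subsingleton.elim w w']
          exact this _ _
        constructor
        · intro h
          obtain ⟨s, hs⟩ := h0.1 ⟨fun i => i.elim0, (hM0 _).2 h⟩
          exact (hN0 s).1 hs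
        · intro h
          obtain ⟨s, hs⟩ := h0.2 ⟨fun i => i.elim0, (hN0 _).2 h⟩
          exact (hM0 s).1 hs
      · exact absurd (v ⟨0, hn⟩).2 (Finset.notMem_empty _))
  refine ⟨e.symm, fun n R x => ?_⟩
  obtain ⟨q, hq, hq'⟩ := he' (Finset.univ.image fun i => e.symm (x i))
  have h1 : ∀ i, (e.symm (x i), x i) ∈ q := by
    intro i
    have := hq' (e.symm (x i)) (by simp)
    simpa using this
  exact hq.2 n R (fun i => ⟨(e.symm (x i), x i), h1 i⟩)

end Categorical

end Pool.Agent.H845.Stub
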