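import Mathlib

/-!
Definitions for the problem on model-complete cores of reducts of stubborn structures.
Everything is for relational languages; a structure is passed as an explicit term
`A : L.Structure M`.
-/

namespace Pool.Agent.H845.Stub

open FirstOrder FirstOrder.Language

/-- Atomic formulas of a relational language `L` with variables in `V`. -/
inductive Atom (L : FirstOrder.Language.{0, 0}) (V : Type) : Type
  | eq (u v : V) : Atom L V
  | rel {n : ℕ} (R : L.Relations n) (v : Fin n → V) : Atom L V

/-- Truth of an atomic formula in the structure `A` under the assignment `s`. -/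
def Atom.Holds {L : FirstOrder.Language.{0, 0}} {M : Type} (A : L.Structure M) {V : Type} (s : V → M) :
    Atom L V → Prop
  | .eq u v => s u = s v
  | .rel R v => A.RelMap R (fun i => s (v i))

/-- `S` is primitive positive definable (without parameters) in `A`: it is defined by a formula
`∃ y₁ … y_m, c₁ ∧ … ∧ c_r` with atomic formulas `c_j`. -/
def PPDef {L : FirstOrder.Language.{0, 0}} {M : Type} (A : L.Structure M) {I : Type}
    (S : Set (I → M)) : Prop :=
  ∃ (m : ℕ) (C : List (Atom L (I ⊕ Fin m))),
    ∀ x : I → M, x ∈ S ↔ ∃ y : Fin m → M, ∀ c ∈ C, c.Holds A (Sum.elim x y)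

/-- First-order definability without parameters (Mathlib's `Set.Definable`). -/
def FODef {L : FirstOrder.Language.{0, 0}} {M : Type} (A : L.Structure M) {I : Type}
    (S : Set (I → M)) : Prop :=
  letI := A
  (∅ : Set M).Definable L S

/-- Homomorphisms between relational structures. -/
def IsHom {L : FirstOrder.Language.{0, 0}} {M N : Type} (A : L.Structure M) (B : L.Structure N)
    (h : M → N) : Prop :=
  ∀ (n : ℕ) (R : L.Relations n) (x : Fin n → M), A.RelMap R x → B.RelMap R (fun i => h (x i))

/-- Isomorphisms between relational structures. -/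
def IsIso {L : FirstOrder.Language.{0, 0}} {M N : Type} (A : L.Structure M) (B : L.Structure N)
    (g : M ≃ N) : Prop :=
  ∀ (n : ℕ) (R : L.Relations n) (x : Fin n → M), B.RelMap R (fun i => g (x i)) ↔ A.RelMap R x

/-- Automorphisms. -/
def IsAut {L : FirstOrder.Language.{0, 0}} {M : Type} (A : L.Structure M) (g : M ≃ M) : Prop :=
  IsIso A A g

/-- `A'` is a first-order reduct of `A` (same domain, every relation of `A'` is first-order
definable in `A` without parameters). -/
def IsReduct {L' L : FirstOrder.Language.{0, 0}} {M : Type} (A' : L'.Structure M) (A : L.Structure M) : Prop :=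
  ∀ (n : ℕ) (R : L'.Relations n), FODef A {x : Fin n → M | A'.RelMap R x}

/-- First-order interdefinability of two structures on the same domain. -/
def Interdefinable {L' L : FirstOrder.Language.{0, 0}} {M : Type} (A' : L'.Structure M)
    (A : L.Structure M) : Prop :=
  IsReduct A' A ∧ IsReduct A A'

/-- `A` is homogeneous: every isomorphism between finite substructures (here: from the
substructure on the finite set `S` onto the substructure on `p '' S`) extends to an
automorphism. -/
def Homogeneous {L : FirstOrder.Language.{0, 0}} {M : Type} (A : L.Structure M) : Prop :=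
  ∀ (S : Finset M) (p : M → M), Set.InjOn p (S : Set M) →
    (∀ (n : ℕ) (R : L.Relations n) (x : Fin n → M), (∀ i, x i ∈ S) →
      (A.RelMap R (fun i => p (x i)) ↔ A.RelMap R x)) →
    ∃ g : M ≃ M, IsAut A g ∧ ∀ x ∈ S, g x = p x

/-- `A` is `ω`-categorical: its domain is countable and every countable model of the complete
first-order theory of `A` is isomorphic to `A`. -/
def OmegaCategorical {L : FirstOrder.Language.{0, 0}} {M : Type} (A : L.Structure M) : Prop :=
  Countable M ∧ ∀ (N : Type) (B : L.Structure N), Countable N →
    @Theory.Model L N B (@completeTheory L M A) → ∃ e : N ≃ M, IsIso B A e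

/-- Model-complete cores: `ω`-categorical structures whose automorphism group is dense in the
endomorphism monoid (pointwise convergence). -/
def IsMCCore {L : FirstOrder.Language.{0, 0}} {M : Type} (A : L.Structure M) : Prop :=
  OmegaCategorical A ∧ ∀ h : M → M, IsHom A A h →
    ∀ S : Finset M, ∃ g : M ≃ M, IsAut A g ∧ ∀ x ∈ S, g x = h x

/-- Homomorphic equivalence. -/
def HomEquivalent {L : FirstOrder.Language.{0, 0}} {M N : Type} (A : L.Structure M)
    (B : L.Structure N) : Prop :=
  (∃ h : M → N, IsHom A B h) ∧ ∃ h : N → M, IsHom B A h

/-- `P` is a pp-power of `A` of dimension `d`: its domain is `M ^ d` and every relation of `P`,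
viewed as a relation on `M`, is primitive positive definable in `A`. -/
def IsPPPower {L L₂ : FirstOrder.Language.{0, 0}} {M : Type} (A : L.Structure M) (d : ℕ)
    (P : L₂.Structure (Fin d → M)) : Prop :=
  ∀ (n : ℕ) (R : L₂.Relations n),
    PPDef A {x : Fin n × Fin d → M | P.RelMap R (fun i j => x (i, j))}

/-- `A` pp-constructs `D`: `D` is homomorphically equivalent to a pp-power of `A`. -/
def PPConstructs {L L₂ : FirstOrder.Language.{0, 0}} {M N : Type} (A : L.Structure M)
    (D : L₂.Structure N) : Prop :=
  ∃ d : ℕ, 0 < d ∧ ∃ P : L₂.Structure (Fin d → M), IsPPPower A d P ∧ HomEquivalent P D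

/-- `A` pp-constructs all finite (nonempty, relational) structures. -/
def PPConstructsAllFinite {L : FirstOrder.Language.{0, 0}} {M : Type} (A : L.Structure M) : Prop :=
  ∀ (L₂ : FirstOrder.Language.{0, 0}), L₂.IsRelational → ∀ (N : Type), Finite N → Nonempty N →
    ∀ D : L₂.Structure N, PPConstructs A D

/-- Stubborn homogeneous structures: homogeneous (and `ω`-categorical) structures `B` such that
every model-complete core that is first-order interdefinable with `B` pp-constructs all finite
structures. -/
def StubbornHomogeneous {L : FirstOrder.Language.{0, 0}} {M : Type} (B : L.Structure M) : Prop :=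
  OmegaCategorical B ∧ Homogeneous B ∧
    ∀ (L' : FirstOrder.Language.{0, 0}), L'.IsRelational → ∀ B' : L'.Structure M,
      Interdefinable B' B → IsMCCore B' → PPConstructsAllFinite B'

/-- An `ω`-categorical structure is stubborn if it is first-order interdefinable with a stubborn
homogeneous structure. -/
def Stubborn {L : FirstOrder.Language.{0, 0}} {M : Type} (C : L.Structure M) : Prop :=
  ∃ L' : FirstOrder.Language.{0, 0}, L'.IsRelational ∧ ∃ H : L'.Structure M,
    Interdefinable C H ∧ StubbornHomogeneous H

/-- `C` is, up to a bijection of the domains, first-order interdefinable with `(ℕ; =)`. -/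
def InterdefinableWithPureSet {L : FirstOrder.Language.{0, 0}} {M : Type} (C : L.Structure M) : Prop :=
  ∃ (e : M ≃ ℕ) (C' : L.Structure ℕ) (E : FirstOrder.Language.empty.Structure ℕ),
    IsIso C C' e ∧ Interdefinable C' E

/-- The automorphism group of `B` is transitive and preserves only the two trivial equivalence
relations. -/
def HasPrimitiveAut {L : FirstOrder.Language.{0, 0}} {M : Type} (B : L.Structure M) : Prop :=
  (∀ x y : M, ∃ g : M ≃ M, IsAut B g ∧ g x = y) ∧
    ∀ E : M → M → Prop, Equivalence E →
      (∀ g : M ≃ M, IsAut B g → ∀ x y, E x y → E (g x) (g y)) →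
      (∀ x y, E x y → x = y) ∨ ∀ x y, E x y

end Pool.Agent.H845.Stub
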