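import Pool.Agent.H845.StubCat

/-!
Homogeneity of `BS` and `AS`; `AS` is a model-complete core, is not stubborn and is not
interdefinable with the pure set; primitivity of `Aut BS`.
-/

namespace Pool.Agent.H845.Stub

open FirstOrder FirstOrder.Language

theorem LB_rel : LB.IsRelational := fun _ => inferInstanceAs (IsEmpty Empty)
theorem LA_rel : LA.IsRelational := fun _ => inferInstanceAs (IsEmpty Empty)

theorem LB_finite : Finite (Σ n, LB.Relations n) := by
  refine Set.finite_univ_iff.1 (Set.Finite.subset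
    (Set.toFinite {(⟨2, BRel.lt⟩ : Σ n, LB.Relations n), ⟨3, BRel.bt⟩}) ?_)
  rintro ⟨n, R⟩ _
  cases R
  · exact Or.inl rfl
  · exact Or.inr rfl

theorem LA_finite : Finite (Σ n, LA.Relations n) := by
  refine Set.finite_univ_iff.1 (Set.Finite.subset
    (Set.toFinite {(⟨2, ARel.lt⟩ : Σ n, LA.Relations n)}) ?_)
  rintro ⟨n, R⟩ _
  cases R
  exact rfl

/-! ### Homogeneity -/

theorem AS_homogeneous : Homogeneous AS := by
  classical
  intro S p hp hR
  obtain ⟨e, he, he1, _⟩ := G_extend (m := none) (p := S.image fun x => (x, p x)) (by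
    intro a ha b hb
    rw [Finset.mem_image] at ha hb
    obtain ⟨x, hx, rfl⟩ := ha
    obtain ⟨y, hy, rfl⟩ := hb
    refine ⟨?_, trivial⟩
    have := hR 2 ARel.lt ![x, y] (by intro i; fin_cases i <;> assumption)
    exact this.symm)
  exact ⟨e, aut_AS he1, fun x hx => he (x, p x) (Finset.mem_image_of_mem _ hx)⟩

/-- Betweenness-preserving maps on three points. -/
theorem betw3 {a b c a' b' c' : ℝ} (hab : a ≠ b) (hbc : b ≠ c) (hac : a ≠ c)
    (hab' : a' ≠ b') (hbc' : b' ≠ c') (hac' : a' ≠ c')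
    (h1 : (a < b ∧ b < c) ∨ (c < b ∧ b < a) ↔ (a' < b' ∧ b' < c') ∨ (c' < b' ∧ b' < a'))
    (h2 : (b < a ∧ a < c) ∨ (c < a ∧ a < b) ↔ (b' < a' ∧ a' < c') ∨ (c' < a' ∧ a' < b'))
    (h3 : (a < c ∧ c < b) ∨ (b < c ∧ c < a) ↔ (a' < c' ∧ c' < b') ∨ (b' < c' ∧ c' < a')) :
    (a < b ↔ a' < b') ↔ (a < c ↔ a' < c') := by
  rcases lt_or_gt_of_ne hab with x1 | x1 <;> rcases lt_or_gt_of_ne hbc with x2 | x2 <;>
    rcases lt_or_gt_of_ne hac with x3 | x3 <;> rcases lt_or_gt_of_ne hab' with y1 | y1 <;>
    rcases lt_or_gt_of_ne hbc' with y2 | y2 <;> rcases lt_or_gt_of_ne hac' with y3 | y3 <;>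
    first
    | (exfalso; linarith)
    | (simp only [x1, x2, x3, y1, y2, y3, not_lt_of_gt x1, not_lt_of_gt x2, not_lt_of_gt x3,
        not_lt_of_gt y1, not_lt_of_gt y2, not_lt_of_gt y3, and_true, true_and, and_false,
        false_and, or_false, false_or, or_true, true_or, iff_true, iff_false, true_iff,
        false_iff, not_true, not_false_iff] at h1 h2 h3 ⊢)

theorem BS_homogeneous : Homogeneous BS := by
  classical
  intro S p hp hR
  -- the first order is preserved
  have hlt : ∀ x ∈ S, ∀ y ∈ S, (f1 x < f1 y ↔ f1 (p x) < f1 (p y)) := by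
    intro x hx y hy
    have := hR 2 BRel.lt ![x, y] (by intro i; fin_cases i <;> assumption)
    exact this.symm
  have hbt : ∀ x ∈ S, ∀ y ∈ S, ∀ z ∈ S, (Betw x y z ↔ Betw (p x) (p y) (p z)) := by
    intro x hx y hy z hz
    have := hR 3 BRel.bt ![x, y, z] (by intro i; fin_cases i <;> assumption)
    exact this.symm
  have hne : ∀ x y : D, x ≠ y → f2 x ≠ f2 y := fun x y h h' => h (f2_inj h')
  have hne' : ∀ x ∈ S, ∀ y ∈ S, x ≠ y → f2 (p x) ≠ f2 (p y) := by
    intro x hx y hy h h'
    exact h (hp hx hy (f2_inj h'))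
  -- `r x y`: the direction of the pair is preserved
  let r : D → D → Prop := fun x y => (f2 x < f2 y ↔ f2 (p x) < f2 (p y))
  have hr1 : ∀ x ∈ S, ∀ y ∈ S, ∀ z ∈ S, x ≠ y → x ≠ z → (r x y ↔ r x z) := by
    intro x hx y hy z hz hxy hxz
    by_cases hyz : y = z
    · rw [hyz]
    · exact betw3 (hne _ _ hxy) (hne _ _ hyz) (hne _ _ hxz) (hne' x hx y hy hxy)
        (hne' y hy z hz hyz) (hne' x hx z hz hxz) (hbt x hx y hy z hz) (hbt y hy x hx z hz)
        (hbt x hx z hz y hy)
  have hr2 : ∀ x ∈ S, ∀ y ∈ S, x ≠ y → (r x y ↔ r y x) := by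
    intro x hx y hy hxy
    simp only [r]
    have h1 := hne x y hxy
    have h2 := hne' x hx y hy hxy
    rcases lt_or_gt_of_ne h1 with h1 | h1 <;> rcases lt_or_gt_of_ne h2 with h2 | h2 <;>
      simp only [h1, h2, not_lt_of_gt h1, not_lt_of_gt h2, iff_true, true_iff, iff_false,
        false_iff, not_true, not_false_iff]
  have hr3 : ∀ x ∈ S, ∀ y ∈ S, ∀ u ∈ S, ∀ v ∈ S, x ≠ y → u ≠ v → (r x y ↔ r u v) := by
    intro x hx y hy u hu v hv hxy huv
    by_cases hxu : x = u
    · subst hxu
      exact hr1 x hx y hy v hv hxy huv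
    · rw [hr1 x hx y hy u hu hxy hxu, hr2 x hx u hu hxu]
      exact hr1 u hu x hx v hv (Ne.symm hxu) huv
  obtain ⟨b, hb⟩ : ∃ b : Bool, ∀ x ∈ S, ∀ y ∈ S, C2 (some b) (x, p x) (y, p y) := by
    by_cases h : ∃ x ∈ S, ∃ y ∈ S, x ≠ y ∧ ¬ r x y
    · obtain ⟨x, hx, y, hy, hxy, hrxy⟩ := h
      refine ⟨false, fun u hu v hv => ?_⟩
      by_cases huv : u = v
      · subst huv; simp [C2]
      · have h1 : ¬ r u v := fun h => hrxy ((hr3 x hx y hy u hu v hv hxy huv).2 h)
        have h2 := hne u v huv
        have h3 := hne' u hu v hv huv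
        simp only [C2]
        simp only [r] at h1
        rcases lt_or_gt_of_ne h2 with h2 | h2 <;> rcases lt_or_gt_of_ne h3 with h3 | h3 <;>
          simp only [h2, h3, not_lt_of_gt h2, not_lt_of_gt h3, iff_true, true_iff, iff_false,
            false_iff, not_true, not_false_iff] at h1 ⊢
    · push Not at h
      refine ⟨true, fun u hu v hv => ?_⟩
      by_cases huv : u = v
      · subst huv; simp [C2]
      · exact h u hu v hv huv
  obtain ⟨e, he, he1, he2⟩ := G_extend (m := some b) (p := S.image fun x => (x, p x)) (by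
    intro a ha c hc
    rw [Finset.mem_image] at ha hc
    obtain ⟨x, hx, rfl⟩ := ha
    obtain ⟨y, hy, rfl⟩ := hc
    exact ⟨hlt x hx y hy, hb x hx y hy⟩)
  exact ⟨e, aut_BS he1 he2, fun x hx => he (x, p x) (Finset.mem_image_of_mem _ hx)⟩

theorem BS_omega : OmegaCategorical BS := by
  have := LB_finite
  exact omega_of_homogeneous inferInstance BS_homogeneous

theorem AS_omega : OmegaCategorical AS := by
  have := LA_finite
  exact omega_of_homogeneous inferInstance AS_homogeneous

/-! ### `AS` is a reduct and a model-complete core -/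

theorem AS_reduct : IsReduct AS BS := by
  intro n R
  cases R
  exact foDef_rel BS BRel.lt

theorem AS_core : IsMCCore AS := by
  classical
  refine ⟨AS_omega, fun h hh S => ?_⟩
  have hmono : ∀ x y, f1 x < f1 y → f1 (h x) < f1 (h y) := fun x y hxy =>
    hh 2 ARel.lt ![x, y] hxy
  obtain ⟨e, he, he1, _⟩ := G_extend (m := none) (p := S.image fun x => (x, h x)) (by
    intro a ha b hb
    rw [Finset.mem_image] at ha hb
    obtain ⟨x, hx, rfl⟩ := ha
    obtain ⟨y, hy, rfl⟩ := hb
    refine ⟨⟨fun hxy => hmono x y hxy, fun hxy => ?_⟩, trivial⟩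
    rcases lt_trichotomy (f1 x) (f1 y) with h1 | h1 | h1
    · exact h1
    · rw [f1_inj h1] at hxy
      exact absurd hxy (lt_irrefl _)
    · exact absurd hxy (not_lt_of_gt (hmono y x h1)))
  exact ⟨e, aut_AS he1, fun x hx => he (x, h x) (Finset.mem_image_of_mem _ hx)⟩

/-! ### `AS` is not stubborn -/

/-- The graph `K₂` as a structure in the language `LA`. -/
@[instance_reducible] def K2S : LA.Structure Bool where
  funMap := fun f => Empty.elim f
  RelMap := fun {_} R => match R with
    | ARel.lt => fun x => x 0 ≠ x 1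

open Classical in
/-- The minimum of two points with respect to `<₁`. -/
noncomputable def mn (x y : D) : D := if f1 x < f1 y then x else y

theorem f1_mn (x y : D) : f1 (mn x y) = min (f1 x) (f1 y) := by
  unfold mn
  split_ifs with h
  · rw [min_eq_left h.le]
  · rw [min_eq_right (not_lt.1 h)]

theorem mn_comm (x y : D) : mn x y = mn y x :=
  f1_inj (by rw [f1_mn, f1_mn, min_comm])

theorem mn_pol : IsPol AS (K := Bool) (fun x => mn (x false) (x true)) := by
  intro n R x hx
  cases R
  show f1 (mn (x 0 false) (x 0 true)) < f1 (mn (x 1 false) (x 1 true))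
  rw [f1_mn, f1_mn]
  have h0 : f1 (x 0 false) < f1 (x 1 false) := hx false
  have h1 : f1 (x 0 true) < f1 (x 1 true) := hx true
  exact min_lt_min h0 h1

theorem not_constructs : ¬ PPConstructs AS K2S := by
  rintro ⟨d, _, P, hP, ⟨h, hh⟩, ⟨g, hg⟩⟩
  -- the commutative operation on the power
  let F : (Fin d → D) → (Fin d → D) → (Fin d → D) := fun u v j => mn (u j) (v j)
  have hF : P.RelMap (ARel.lt : LA.Relations 2)
      (fun i : Fin 2 => F (g (![false, true] i)) (g (![true, false] i))) := by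
    have h1 := hP 2 ARel.lt
    have h2 := mn_pol.ppDef h1
      (fun (i : Fin 2 × Fin d) (k : Bool) => g (if k then ![true, false] i.1
        else ![false, true] i.1) i.2) (by
        intro k
        cases k
        · exact hg 2 ARel.lt ![false, true] (by show (false : Bool) ≠ true; simp)
        · exact hg 2 ARel.lt ![true, false] (by show (true : Bool) ≠ false; simp))
    exact h2
  have h3 := hh 2 ARel.lt _ hF
  apply h3
  show h (F (g (![false, true] 0)) (g (![true, false] 0))) =
    h (F (g (![false, true] 1)) (g (![true, false] 1)))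
  congr 1
  funext j
  exact mn_comm _ _

theorem AS_not_stubborn : ¬ Stubborn AS := by
  rintro ⟨L', hL', H, hint, _, _, hst⟩
  have h1 := hst LA LA_rel AS hint AS_core
  exact not_constructs (h1 LA LA_rel Bool inferInstance inferInstance K2S)

theorem AS_not_pure : ¬ InterdefinableWithPureSet AS := by
  classical
  rintro ⟨e, C', E, he, h1, _⟩
  -- a permutation of the pure set that does not preserve the order
  let x : D := (0, 0)
  let y : D := (1, 0)
  have hxy : f1 x < f1 y := by simp [f1, x, y]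
  have hE : IsAut E (Equiv.swap (e x) (e y)) := fun n R => by
    exact (R : Empty).elim
  have h2 : IsAut C' (Equiv.swap (e x) (e y)) :=
    IsReduct.aut (L := FirstOrder.Language.empty) (fun _ => inferInstanceAs (IsEmpty Empty)) h1 hE
  have h3 : C'.RelMap ARel.lt (fun i => e (![x, y] i)) := (he 2 ARel.lt ![x, y]).2 hxy
  have h4 := (h2 2 ARel.lt _).2 h3
  have h5 : (fun i : Fin 2 => (Equiv.swap (e x) (e y)) (e (![x, y] i))) =
      fun i => e (![y, x] i) := by
    funext i
    fin_cases i
    · simp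
    · simp
  rw [h5] at h4
  have h6 : f1 y < f1 x := (he 2 ARel.lt ![y, x]).1 h4
  exact absurd h6 (not_lt_of_gt hxy)

/-! ### Primitivity -/

theorem pair_transitive {x y x' y' : D} (h : f1 x < f1 y) (h' : f1 x' < f1 y') :
    ∃ g : D ≃ D, IsAut BS g ∧ g x = x' ∧ g y = y' := by
  have hx : f2 x ≠ f2 y := fun e => by rw [f2_inj e] at h; exact lt_irrefl _ h
  have hx' : f2 x' ≠ f2 y' := fun e => by rw [f2_inj e] at h'; exact lt_irrefl _ h'
  obtain ⟨b, hb, hb'⟩ : ∃ b : Bool, C2 (some b) (x, x') (y, y') ∧ C2 (some b) (y, y') (x, x') := by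
    rcases lt_or_gt_of_ne hx with h1 | h1 <;> rcases lt_or_gt_of_ne hx' with h2 | h2
    · exact ⟨true, by simp [C2, h1, h2], by simp [C2, not_lt_of_gt h1, not_lt_of_gt h2, h1.le, h2.le]⟩
    · exact ⟨false, by simp [C2, h1, h2], by simp [C2, not_lt_of_gt h1, not_lt_of_gt h2, h1.le, h2.le]⟩
    · exact ⟨false, by simp [C2, not_lt_of_gt h1, not_lt_of_gt h2, h1.le, h2.le], by simp [C2, h1, h2]⟩
    · exact ⟨true, by simp [C2, not_lt_of_gt h1, not_lt_of_gt h2, h1.le, h2.le], by simp [C2, h1, h2]⟩
  obtain ⟨g, hg, hg'⟩ := orbit_BS ![x, y] ![x', y'] b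
    (by
      intro i j
      fin_cases i <;> fin_cases j <;>
        simp [h, h', h.le, h'.le, not_lt_of_gt h, not_lt_of_gt h'])
    (by
      have hr : ∀ u v : D, C2 (some b) (u, v) (u, v) := by
        intro u v; cases b <;> simp [C2]
      intro i j
      fin_cases i <;> fin_cases j
      · exact hr _ _
      · exact hb
      · exact hb'
      · exact hr _ _)
  exact ⟨g, hg, hg' 0, hg' 1⟩

theorem BS_primitive : HasPrimitiveAut BS := by
  constructor
  · intro x y
    obtain ⟨g, hg, hg', _⟩ := pair_transitive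
      (show f1 x < f1 (x.1 + 1, x.2) by simp [f1])
      (show f1 y < f1 (y.1 + 1, y.2) by simp [f1])
    exact ⟨g, hg, hg'⟩
  · intro E hE hinv
    by_cases h : ∃ x y, E x y ∧ x ≠ y
    · right
      obtain ⟨x, y, hxy, hne⟩ := h
      obtain ⟨u, v, huv, hlt⟩ : ∃ u v, E u v ∧ f1 u < f1 v := by
        rcases lt_or_gt_of_ne (fun e => hne (f1_inj e) : f1 x ≠ f1 y) with h1 | h1
        · exact ⟨x, y, hxy, h1⟩
        · exact ⟨y, x, hE.symm hxy, h1⟩
      have key : ∀ a b, f1 a < f1 b → E a b := by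
        intro a b hab
        obtain ⟨g, hg, h1, h2⟩ := pair_transitive hlt hab
        have := hinv g hg u v huv
        rwa [h1, h2] at this
      intro a b
      rcases lt_trichotomy (f1 a) (f1 b) with h1 | h1 | h1
      · exact key a b h1
      · rw [f1_inj h1]; exact hE.refl b
      · exact hE.symm (key b a h1)
    · left
      push Not at h
      exact fun x y hxy => h x y hxy

end Pool.Agent.H845.Stub
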