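import Pool.Agent.H845.StubPP
import Pool.Agent.H845.StubBF

/-!
The structure: the generic superposition of a dense linear order and an independent dense
betweenness relation, realised on `ℚ × ℚ ≅ ℚ(√2)` with the two real embeddings.
-/

namespace Pool.Agent.H845.Stub

open FirstOrder FirstOrder.Language

/-- The domain: `(a, b)` stands for `a + b √2 ∈ ℚ(√2)`. -/
abbrev D : Type := ℚ × ℚ

/-- First real embedding of `ℚ(√2)`. -/
noncomputable def f1 (d : D) : ℝ := (d.1 : ℝ) + (d.2 : ℝ) * √2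

/-- Second real embedding of `ℚ(√2)`. -/
noncomputable def f2 (d : D) : ℝ := (d.1 : ℝ) - (d.2 : ℝ) * √2

theorem f1_inj {x y : D} (h : f1 x = f1 y) : x = y := by
  unfold f1 at h
  have h1 : (((x.1 - y.1 : ℚ)) : ℝ) = ((y.2 - x.2 : ℚ) : ℝ) * √2 := by
    push_cast; linarith
  by_cases h2 : y.2 - x.2 = 0
  · rw [h2] at h1
    simp only [Rat.cast_zero, zero_mul, Rat.cast_eq_zero] at h1
    ext
    · linarith
    · linarith
  · exfalso
    apply irrational_sqrt_two
    refine ⟨(x.1 - y.1) / (y.2 - x.2), ?_⟩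
    have h3 : ((y.2 - x.2 : ℚ) : ℝ) ≠ 0 := by exact_mod_cast h2
    rw [Rat.cast_div, h1]
    field_simp

theorem f2_inj {x y : D} (h : f2 x = f2 y) : x = y := by
  have : f1 (x.1, -x.2) = f1 (y.1, -y.2) := by
    unfold f1; unfold f2 at h; push_cast; linarith
  have := f1_inj this
  rw [Prod.mk.injEq] at this
  ext
  · exact this.1
  · exact neg_injective this.2

theorem dens {a b c d : ℝ} (hab : a < b) (hcd : c < d) :
    ∃ z : D, a < f1 z ∧ f1 z < b ∧ c < f2 z ∧ f2 z < d := by
  have hs0 : (0 : ℝ) < √2 := by positivity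
  have hs2 : √2 < 2 := by
    rw [Real.sqrt_lt' (by norm_num)]; norm_num
  set u := (a + b) / 2 with hu
  set v := (c + d) / 2 with hv
  set δ := min ((b - a) / 6) ((d - c) / 6) with hδ
  have hδ0 : 0 < δ := lt_min (by linarith) (by linarith)
  have hδ1 : δ ≤ (b - a) / 6 := min_le_left _ _
  have hδ2 : δ ≤ (d - c) / 6 := min_le_right _ _
  set X := (u + v) / 2 with hX
  set Y := (u - v) / 2 with hY
  obtain ⟨p, hp1, hp2⟩ := exists_rat_btwn (show X - δ < X + δ by linarith)
  obtain ⟨q, hq1, hq2⟩ := exists_rat_btwn (show (Y - δ) / √2 < (Y + δ) / √2 by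
    gcongr; linarith)
  rw [div_lt_iff₀ hs0] at hq1
  rw [lt_div_iff₀ hs0] at hq2
  refine ⟨(p, q), ?_, ?_, ?_, ?_⟩ <;> simp only [f1, f2] <;> linarith

/-- Betweenness with respect to the second embedding. -/
def Betw (x y z : D) : Prop := (f2 x < f2 y ∧ f2 y < f2 z) ∨ (f2 z < f2 y ∧ f2 y < f2 x)

/-- Relation symbols of the language of `BS`: a binary symbol and a ternary symbol. -/
inductive BRel : ℕ → Type
  | lt : BRel 2
  | bt : BRel 3

/-- Relational language with one binary and one ternary symbol. -/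
def LB : FirstOrder.Language.{0, 0} := ⟨fun _ => Empty, BRel⟩

/-- Relation symbols of the language of `AS`: a binary symbol. -/
inductive ARel : ℕ → Type
  | lt : ARel 2

/-- Relational language with one binary symbol. -/
def LA : FirstOrder.Language.{0, 0} := ⟨fun _ => Empty, ARel⟩

/-- The structure `(D; <₁, Betw₂)`. -/
@[instance_reducible] noncomputable def BS : LB.Structure D where
  funMap := fun f => Empty.elim f
  RelMap := fun {_} R => match R with
    | BRel.lt => fun x => f1 (x 0) < f1 (x 1)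
    | BRel.bt => fun x => Betw (x 0) (x 1) (x 2)

/-- The structure `(D; <₁)`. -/
@[instance_reducible] noncomputable def AS : LA.Structure D where
  funMap := fun f => Empty.elim f
  RelMap := fun {_} R => match R with
    | ARel.lt => fun x => f1 (x 0) < f1 (x 1)

theorem BS_lt (x : Fin 2 → D) : BS.RelMap BRel.lt x ↔ f1 (x 0) < f1 (x 1) := Iff.rfl
theorem BS_bt (x : Fin 3 → D) : BS.RelMap BRel.bt x ↔ Betw (x 0) (x 1) (x 2) := Iff.rfl
theorem AS_lt (x : Fin 2 → D) : AS.RelMap ARel.lt x ↔ f1 (x 0) < f1 (x 1) := Iff.rfl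

/-- Compatibility of two pairs with respect to the second order; `m = none`: no condition,
`some true`: order preserved, `some false`: order reversed. -/
def C2 (m : Option Bool) (a b : D × D) : Prop := match m with
  | none => True
  | some true => f2 a.1 < f2 b.1 ↔ f2 a.2 < f2 b.2
  | some false => f2 a.1 < f2 b.1 ↔ f2 b.2 < f2 a.2

/-- Good finite partial maps. -/
def G (m : Option Bool) (p : Finset (D × D)) : Prop :=
  ∀ a ∈ p, ∀ b ∈ p, (f1 a.1 < f1 b.1 ↔ f1 a.2 < f1 b.2) ∧ C2 m a b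

theorem G_inj {m : Option Bool} {p : Finset (D × D)} (hp : G m p) :
    ∀ a ∈ p, ∀ b ∈ p, a.1 = b.1 ↔ a.2 = b.2 := by
  intro a ha b hb
  have h1 := (hp a ha b hb).1
  have h2 := (hp b hb a ha).1
  constructor
  · intro h
    rw [h] at h1 h2
    have h3 := (not_congr h1).1 (lt_irrefl _)
    have h4 := (not_congr h2).1 (lt_irrefl _)
    exact f1_inj (le_antisymm (not_lt.1 h4) (not_lt.1 h3))
  · intro h
    rw [h] at h1 h2
    have h3 := (not_congr h1).2 (lt_irrefl _)
    have h4 := (not_congr h2).2 (lt_irrefl _)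
    exact f1_inj (le_antisymm (not_lt.1 h4) (not_lt.1 h3))

theorem C2_swap {m : Option Bool} {a b : D × D} :
    C2 m a b → C2 m b a → C2 m a.swap b.swap ∧ C2 m b.swap a.swap := by
  rcases m with _ | _ | _ <;> simp only [C2, Prod.fst_swap, Prod.snd_swap] <;> tauto

theorem G_forth {m : Option Bool} {p : Finset (D × D)} (hp : G m p) (x : D) :
    ∃ y, G m (insert (x, y) p) := by
  classical
  by_cases hx : ∃ y, (x, y) ∈ p
  · obtain ⟨y, hy⟩ := hx
    exact ⟨y, by rwa [Finset.insert_eq_of_mem hy]⟩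
  · push Not at hx
    have hx' : ∀ a ∈ p, a.1 ≠ x := by
      rintro ⟨a, b⟩ ha rfl
      exact hx b ha
    have hx1 : ∀ a ∈ p, f1 a.1 ≠ f1 x := fun a ha h => hx' a ha (f1_inj h)
    have hx2 : ∀ a ∈ p, f2 a.1 ≠ f2 x := fun a ha h => hx' a ha (f2_inj h)
    obtain ⟨l, u, hlu, hc⟩ := cut p f1 f1 (fun a ha b hb => (hp a ha b hb).1.1) x hx1
    obtain ⟨l', u', hlu', hc'⟩ : ∃ l' u' : ℝ, l' < u' ∧ ∀ y : D, l' < f2 y → f2 y < u' →
        ∀ a ∈ p, C2 m a (x, y) ∧ C2 m (x, y) a := by
      rcases m with _ | _ | _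
      · exact ⟨0, 1, by norm_num, fun y _ _ a _ => ⟨trivial, trivial⟩⟩
      · obtain ⟨l', u', h1, h2⟩ := cut p f2 (fun d => - f2 d)
          (fun a ha b hb h => by
            have := (hp a ha b hb).2
            simp only [C2] at this
            exact neg_lt_neg (this.1 h)) x hx2
        refine ⟨-u', -l', neg_lt_neg h1, fun y hy1 hy2 a ha => ?_⟩
        have := h2 (-f2 y) (by linarith) (by linarith) a ha
        simp only [C2]
        rw [neg_lt_neg_iff, neg_lt_neg_iff] at this
        exact this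
      · obtain ⟨l', u', h1, h2⟩ := cut p f2 f2
          (fun a ha b hb h => by
            have := (hp a ha b hb).2
            simp only [C2] at this
            exact (this.1 h)) x hx2
        refine ⟨l', u', h1, fun y hy1 hy2 a ha => ?_⟩
        simp only [C2]
        exact h2 (f2 y) hy1 hy2 a ha
    obtain ⟨y, hy1, hy2, hy3, hy4⟩ := dens hlu hlu'
    refine ⟨y, ?_⟩
    intro a ha b hb
    rw [Finset.mem_insert] at ha hb
    rcases ha with rfl | ha <;> rcases hb with rfl | hb
    · refine ⟨by simp, ?_⟩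
      rcases m with _ | _ | _ <;> simp [C2]
    · exact ⟨(hc _ hy1 hy2 b hb).2, (hc' y hy3 hy4 b hb).2⟩
    · exact ⟨(hc _ hy1 hy2 a ha).1, (hc' y hy3 hy4 a ha).1⟩
    · exact hp a ha b hb

theorem G_swap {m : Option Bool} {p : Finset (D × D)} (hp : G m p) :
    G m (p.image Prod.swap) := by
  intro a ha b hb
  rw [Finset.mem_image] at ha hb
  obtain ⟨a, ha, rfl⟩ := ha
  obtain ⟨b, hb, rfl⟩ := hb
  exact ⟨(hp a ha b hb).1.symm, (C2_swap (hp a ha b hb).2 (hp b hb a ha).2).1⟩

theorem G_back {m : Option Bool} {p : Finset (D × D)} (hp : G m p) (y : D) :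
    ∃ x, G m (insert (x, y) p) := by
  classical
  obtain ⟨x, hx⟩ := G_forth (G_swap hp) y
  refine ⟨x, ?_⟩
  have := G_swap hx
  rw [Finset.image_insert, Finset.image_image] at this
  simpa using this

theorem G_extend {m : Option Bool} {p : Finset (D × D)} (hp : G m p) :
    ∃ e : D ≃ D, (∀ a ∈ p, e a.1 = a.2) ∧ (∀ x y, f1 x < f1 y ↔ f1 (e x) < f1 (e y)) ∧
      ∀ x y, C2 m (x, e x) (y, e y) := by
  classical
  obtain ⟨e, he, he'⟩ := backForth (G m) (fun p hp => G_inj hp) (fun p hp => G_forth hp)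
    (fun p hp => G_back hp) p hp
  refine ⟨e, he, fun x y => ?_, fun x y => ?_⟩
  · obtain ⟨q, hq, hq'⟩ := he' {x, y}
    exact (hq _ (hq' x (by simp)) _ (hq' y (by simp))).1
  · obtain ⟨q, hq, hq'⟩ := he' {x, y}
    exact (hq _ (hq' x (by simp)) _ (hq' y (by simp))).2

theorem aut_AS {e : D ≃ D} (h : ∀ x y, f1 x < f1 y ↔ f1 (e x) < f1 (e y)) : IsAut AS e := by
  intro n R x
  cases R
  exact (h _ _).symm

theorem aut_BS {e : D ≃ D} (h : ∀ x y, f1 x < f1 y ↔ f1 (e x) < f1 (e y)) {b : Bool}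
    (h2 : ∀ x y, C2 (some b) (x, e x) (y, e y)) : IsAut BS e := by
  intro n R x
  cases R
  · exact (h _ _).symm
  · show Betw (e (x 0)) (e (x 1)) (e (x 2)) ↔ Betw (x 0) (x 1) (x 2)
    cases b
    · simp only [C2] at h2
      simp only [Betw]
      rw [← h2, ← h2, ← h2, ← h2]
      tauto
    · simp only [C2] at h2
      simp only [Betw]
      rw [← h2, ← h2, ← h2, ← h2]

/-- Orbits of `Aut BS`: families with the same `<₁`-pattern and equal or reversed
`<₂`-pattern are in the same orbit. -/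
theorem orbit_BS {I : Type} [Finite I] (t t' : I → D) (b : Bool)
    (h1 : ∀ i j, f1 (t i) < f1 (t j) ↔ f1 (t' i) < f1 (t' j))
    (h2 : ∀ i j, C2 (some b) (t i, t' i) (t j, t' j)) :
    ∃ g : D ≃ D, IsAut BS g ∧ ∀ i, g (t i) = t' i := by
  classical
  have := Fintype.ofFinite I
  obtain ⟨e, he, he1, he2⟩ := G_extend (m := some b)
    (p := Finset.univ.image fun i => (t i, t' i)) (by
      intro a ha c hc
      simp only [Finset.mem_image, Finset.mem_univ, true_and] at ha hc
      obtain ⟨i, rfl⟩ := ha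
      obtain ⟨j, rfl⟩ := hc
      exact ⟨h1 i j, h2 i j⟩)
  exact ⟨e, aut_BS he1 he2, fun i => he (t i, t' i) (Finset.mem_image_of_mem _
    (Finset.mem_univ i))⟩

theorem oligo_BS : Oligo BS := by
  classical
  intro I hI
  refine ⟨(I → I → Prop) × (I → I → Prop), inferInstance,
    fun s => (fun i j => f1 (s i) < f1 (s j), fun i j => f2 (s i) < f2 (s j)), ?_⟩
  intro s s' h
  rw [Prod.mk.injEq] at h
  apply orbit_BS s s' true
  · intro i j
    exact iff_of_eq (congrFun (congrFun h.1 i) j)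
  · intro i j
    exact iff_of_eq (congrFun (congrFun h.2 i) j)

end Pool.Agent.H845.Stub
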