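import Pool.Agent.H845.StubDefs

/-!
Closure properties of primitive positive definability, and the theorem that in a structure
with an oligomorphic automorphism group the set of values of polymorphisms on a finite family
of arguments is primitive positive definable.
-/

namespace Pool.Agent.H845.Stub

open FirstOrder FirstOrder.Language

variable {L : FirstOrder.Language.{0, 0}} {M : Type}

/-- Renaming of variables in an atomic formula. -/
def Atom.map {V W : Type} (f : V → W) : Atom L V → Atom L W
  | .eq u v => .eq (f u) (f v)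
  | .rel R v => .rel R (fun i => f (v i))

theorem Atom.holds_map (A : L.Structure M) {V W : Type} (f : V → W) (s : W → M) (c : Atom L V) :
    (c.map f).Holds A s ↔ c.Holds A (fun v => s (f v)) := by
  cases c <;> rfl

/-- A convenient way to prove pp-definability, with an arbitrary finite type of existentially
quantified variables. -/
theorem PPDef.mk' (A : L.Structure M) {I J : Type} [Finite J] (S : Set (I → M))
    (C : List (Atom L (I ⊕ J)))
    (h : ∀ x : I → M, x ∈ S ↔ ∃ y : J → M, ∀ c ∈ C, c.Holds A (Sum.elim x y)) : PPDef A S := by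
  obtain ⟨m, ⟨e⟩⟩ := Finite.exists_equiv_fin J
  refine ⟨m, C.map (Atom.map (Sum.map id e)), fun x => ?_⟩
  rw [h]
  constructor
  · rintro ⟨y, hy⟩
    refine ⟨fun j => y (e.symm j), fun c hc => ?_⟩
    rw [List.mem_map] at hc
    obtain ⟨c, hc, rfl⟩ := hc
    rw [Atom.holds_map]
    have := hy c hc
    convert this using 1
    funext v
    rcases v with v | v <;> simp
  · rintro ⟨y, hy⟩
    refine ⟨fun j => y (e j), fun c hc => ?_⟩
    have := hy _ (List.mem_map_of_mem hc)
    rw [Atom.holds_map] at this
    convert this using 1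
    funext v
    rcases v with v | v <;> simp

theorem PPDef.univ (A : L.Structure M) {I : Type} : PPDef A (Set.univ : Set (I → M)) :=
  ⟨0, [], fun x => by simp [exists_const]⟩

theorem PPDef.inter {A : L.Structure M} {I : Type} {S T : Set (I → M)} (hS : PPDef A S)
    (hT : PPDef A T) : PPDef A (S ∩ T) := by
  obtain ⟨m, C, hC⟩ := hS
  obtain ⟨k, E, hE⟩ := hT
  refine PPDef.mk' A (J := Fin m ⊕ Fin k) _
    (C.map (Atom.map (Sum.map id Sum.inl)) ++ E.map (Atom.map (Sum.map id Sum.inr)))
    (fun x => ?_)
  rw [Set.mem_inter_iff, hC, hE]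
  constructor
  · rintro ⟨⟨y, hy⟩, ⟨z, hz⟩⟩
    refine ⟨Sum.elim y z, fun c hc => ?_⟩
    rw [List.mem_append, List.mem_map, List.mem_map] at hc
    rcases hc with ⟨c, hc, rfl⟩ | ⟨c, hc, rfl⟩
    · rw [Atom.holds_map]
      convert hy c hc using 1
      funext v
      rcases v with v | v <;> simp
    · rw [Atom.holds_map]
      convert hz c hc using 1
      funext v
      rcases v with v | v <;> simp
  · rintro ⟨y, hy⟩
    refine ⟨⟨fun j => y (Sum.inl j), fun c hc => ?_⟩, ⟨fun j => y (Sum.inr j), fun c hc => ?_⟩⟩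
    · have := hy _ (List.mem_append_left _ (List.mem_map_of_mem hc))
      rw [Atom.holds_map] at this
      convert this using 1
      funext v
      rcases v with v | v <;> simp
    · have := hy _ (List.mem_append_right _ (List.mem_map_of_mem hc))
      rw [Atom.holds_map] at this
      convert this using 1
      funext v
      rcases v with v | v <;> simp

theorem PPDef.reindex {A : L.Structure M} {I J : Type} (f : J → I) {S : Set (J → M)}
    (hS : PPDef A S) : PPDef A {s : I → M | (fun j => s (f j)) ∈ S} := by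
  obtain ⟨m, C, hC⟩ := hS
  refine ⟨m, C.map (Atom.map (Sum.map f id)), fun x => ?_⟩
  rw [Set.mem_ofPred_eq, hC]
  refine exists_congr fun y => ?_
  constructor
  · intro hy c hc
    rw [List.mem_map] at hc
    obtain ⟨c, hc, rfl⟩ := hc
    rw [Atom.holds_map]
    convert hy c hc using 1
    funext v
    rcases v with v | v <;> simp
  · intro hy c hc
    have := hy _ (List.mem_map_of_mem hc)
    rw [Atom.holds_map] at this
    convert this using 1
    funext v
    rcases v with v | v <;> simp

theorem PPDef.proj {A : L.Structure M} {I : Type} {S : Set (I ⊕ Unit → M)} (hS : PPDef A S) :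
    PPDef A {s : I → M | ∃ d : M, Sum.elim s (fun _ => d) ∈ S} := by
  obtain ⟨m, C, hC⟩ := hS
  let f : (I ⊕ Unit) ⊕ Fin m → I ⊕ (Unit ⊕ Fin m) := Equiv.sumAssoc I Unit (Fin m)
  refine PPDef.mk' A (J := Unit ⊕ Fin m) _ (C.map (Atom.map f)) (fun x => ?_)
  rw [Set.mem_ofPred_eq]
  constructor
  · rintro ⟨d, hd⟩
    rw [hC] at hd
    obtain ⟨y, hy⟩ := hd
    refine ⟨Sum.elim (fun _ => d) y, fun c hc => ?_⟩
    rw [List.mem_map] at hc
    obtain ⟨c, hc, rfl⟩ := hc
    rw [Atom.holds_map]
    convert hy c hc using 1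
    funext v
    rcases v with (v | v) | v <;> simp [f]
  · rintro ⟨y, hy⟩
    refine ⟨y (Sum.inl ()), ?_⟩
    rw [hC]
    refine ⟨fun j => y (Sum.inr j), fun c hc => ?_⟩
    have := hy _ (List.mem_map_of_mem hc)
    rw [Atom.holds_map] at this
    convert this using 1
    funext v
    rcases v with (v | v) | v <;> simp [f]

theorem PPDef.eq (A : L.Structure M) {I : Type} (i j : I) :
    PPDef A {s : I → M | s i = s j} :=
  ⟨0, [Atom.eq (Sum.inl i) (Sum.inl j)], fun x => by simp [Atom.Holds, exists_const]⟩

theorem PPDef.rel (A : L.Structure M) {I : Type} {n : ℕ} (R : L.Relations n) (v : Fin n → I) :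
    PPDef A {s : I → M | A.RelMap R (fun i => s (v i))} :=
  ⟨0, [Atom.rel R (fun i => Sum.inl (v i))], fun x => by simp [Atom.Holds, exists_const]⟩

theorem PPDef.finiteInter {A : L.Structure M} {I κ : Type} [Finite κ] (S : κ → Set (I → M))
    (hS : ∀ a, PPDef A (S a)) : PPDef A {s : I → M | ∀ a, s ∈ S a} := by
  classical
  have := Fintype.ofFinite κ
  have key : ∀ T : Finset κ, PPDef A {s : I → M | ∀ a ∈ T, s ∈ S a} := by
    intro T
    induction T using Finset.induction with
    | empty =>
      convert PPDef.univ A (I := I) using 1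
      ext s; simp
    | insert a T ha ih =>
      convert (hS a).inter ih using 1
      ext s; simp
  convert key Finset.univ using 1
  ext s; simp

/-- Polymorphisms of arbitrary index type. -/
def IsPol (A : L.Structure M) {K : Type} (g : (K → M) → M) : Prop :=
  ∀ (n : ℕ) (R : L.Relations n) (x : Fin n → K → M), (∀ k, A.RelMap R (fun i => x i k)) →
    A.RelMap R (fun i => g (x i))

theorem IsPol.ppDef {A : L.Structure M} {K : Type} {g : (K → M) → M} (hg : IsPol A g)
    {I : Type} {S : Set (I → M)} (hS : PPDef A S) (t : I → K → M)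
    (ht : ∀ k, (fun i => t i k) ∈ S) : (fun i => g (t i)) ∈ S := by
  obtain ⟨m, C, hC⟩ := hS
  have h1 : ∀ k, ∃ y : Fin m → M, ∀ c ∈ C, c.Holds A (Sum.elim (fun i => t i k) y) :=
    fun k => (hC _).1 (ht k)
  choose y hy using h1
  rw [hC]
  refine ⟨fun j => g (fun k => y k j), fun c hc => ?_⟩
  have h2 : ∀ v : I ⊕ Fin m, Sum.elim (fun i => g (t i)) (fun j => g (fun k => y k j)) v =
      g (fun k => Sum.elim (fun i => t i k) (y k) v) := by
    rintro (v | v) <;> rfl
  cases c with
  | eq u v =>
    show Sum.elim (fun i => g (t i)) (fun j => g (fun k => y k j)) u =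
      Sum.elim (fun i => g (t i)) (fun j => g (fun k => y k j)) v
    rw [h2, h2]
    congr 1
    funext k
    exact hy k _ hc
  | rel R v =>
    show A.RelMap R _
    simp only [h2]
    exact hg _ R (fun i k => Sum.elim (fun i => t i k) (y k) (v i)) (fun k => hy k _ hc)

theorem IsHom.ppDef {A : L.Structure M} {h : M → M} (hh : IsHom A A h)
    {I : Type} {S : Set (I → M)} (hS : PPDef A S) (t : I → M) (ht : t ∈ S) :
    (fun i => h (t i)) ∈ S := by
  have hp : IsPol A (K := Unit) (fun x => h (x ())) :=
    fun n R x hx => hh n R (fun i => x i ()) (hx ())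
  exact hp.ppDef hS (fun i _ => t i) (fun _ => ht)

theorem IsAut.ppDef {A : L.Structure M} {g : M ≃ M} (hg : IsAut A g)
    {I : Type} {S : Set (I → M)} (hS : PPDef A S) (t : I → M) :
    (fun i => g (t i)) ∈ S ↔ t ∈ S := by
  constructor
  · intro h
    have h2 : IsHom A A g.symm := by
      intro n R x hx
      have := hg n R (fun i => g.symm (x i))
      simp only [Equiv.apply_symm_apply] at this
      exact this.1 hx
    have := h2.ppDef hS _ h
    simpa using this
  · intro h
    have h2 : IsHom A A g := fun n R x hx => (hg n R x).2 hx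
    exact h2.ppDef hS _ h

/-- The automorphism group is oligomorphic: it has finitely many orbits on `I → M` for every
finite `I`. -/
def Oligo (A : L.Structure M) : Prop :=
  ∀ (I : Type), Finite I → ∃ (κ : Type) (_ : Finite κ) (c : (I → M) → κ),
    ∀ s s' : I → M, c s = c s' → ∃ g : M ≃ M, IsAut A g ∧ ∀ i, g (s i) = s' i

/-- The set of all `s` satisfying every pp-formula that holds at all `fun i => t i k`. -/
def ppHull (A : L.Structure M) {I K : Type} (t : I → K → M) : Set (I → M) :=
  {s | ∀ S : Set (I → M), PPDef A S → (∀ k, (fun i => t i k) ∈ S) → s ∈ S}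

theorem ppHull_ppDef {A : L.Structure M} (hA : Oligo A) {I K : Type} [hI : Finite I]
    (t : I → K → M) : PPDef A (ppHull A t) := by
  classical
  obtain ⟨κ, hκ, c, hc⟩ := hA I hI
  have h1 : ∀ a : κ, ∃ S : Set (I → M), PPDef A S ∧ (∀ k, (fun i => t i k) ∈ S) ∧
      ((∃ s, c s = a ∧ s ∉ ppHull A t) → ∀ s, c s = a → s ∉ S) := by
    intro a
    by_cases h : ∃ s, c s = a ∧ s ∉ ppHull A t
    · obtain ⟨s, hs, hs'⟩ := h
      unfold ppHull at hs'
      rw [Set.mem_ofPred_eq] at hs'
      push Not at hs'
      obtain ⟨S, hS, hS1, hS2⟩ := hs'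
      refine ⟨S, hS, hS1, fun _ s' hs'' => ?_⟩
      obtain ⟨g, hg, hg'⟩ := hc s s' (hs.trans hs''.symm)
      intro hmem
      apply hS2
      have := (hg.ppDef hS s).1
      apply this
      convert hmem using 1
      funext i
      exact hg' i
    · exact ⟨Set.univ, PPDef.univ A, fun k => Set.mem_univ _, fun h' => absurd h' h⟩
  choose S hS hS1 hS2 using h1
  convert PPDef.finiteInter S hS using 1
  ext s
  constructor
  · intro hs a
    exact hs (S a) (hS a) (hS1 a)
  · intro hs
    by_contra hcon
    exact hS2 (c s) ⟨s, rfl, hcon⟩ s rfl (hs (c s))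

theorem mem_ppHull (A : L.Structure M) {I K : Type} (t : I → K → M) (k : K) :
    (fun i => t i k) ∈ ppHull A t :=
  fun _ _ h => h k

/-- A finite partial map `M ^ K → M` that preserves pp-formulas. -/
def GoodPart (A : L.Structure M) {K : Type} (p : Finset ((K → M) × M)) : Prop :=
  ∀ S : Set (↥p → M), PPDef A S → (∀ k, (fun i : ↥p => i.1.1 k) ∈ S) →
    (fun i : ↥p => i.1.2) ∈ S

theorem GoodPart.family {A : L.Structure M} {K : Type} {p : Finset ((K → M) × M)}
    (hp : GoodPart A p) {I : Type} (t : I → K → M) (s : I → M) (h : ∀ i, (t i, s i) ∈ p)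
    {S : Set (I → M)} (hS : PPDef A S) (hk : ∀ k, (fun i => t i k) ∈ S) : s ∈ S := by
  have := hp _ (hS.reindex (fun i => (⟨(t i, s i), h i⟩ : ↥p)))
    (fun k => by simpa using hk k)
  simpa using this

theorem GoodPart.of_family {A : L.Structure M} {K I : Type} [Fintype I] [DecidableEq ((K → M) × M)]
    (t : I → K → M) (s : I → M) (hs : s ∈ ppHull A t) :
    GoodPart A (Finset.univ.image fun i => (t i, s i)) := by
  intro S hS hk
  have h1 : ∀ j : ↥(Finset.univ.image fun i => (t i, s i)), ∃ i, (t i, s i) = j.1 := by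
    rintro ⟨j, hj⟩
    simpa using hj
  choose r hr using h1
  have h2 := hs _ (hS.reindex r) (fun k => by
    rw [Set.mem_ofPred_eq]
    convert hk k using 1
    funext j
    rw [← hr j])
  rw [Set.mem_ofPred_eq] at h2
  convert h2 using 1
  funext j
  rw [← hr j]

theorem GoodPart.extend {A : L.Structure M} (hA : Oligo A) {K : Type}
    [DecidableEq ((K → M) × M)]
    {p : Finset ((K → M) × M)} (hp : GoodPart A p) (c : K → M) :
    ∃ d : M, GoodPart A (insert (c, d) p) := by
  classical
  let t : ↥p ⊕ Unit → K → M := Sum.elim (fun i => i.1.1) (fun _ => c)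
  have h1 : PPDef A (ppHull A t) := ppHull_ppDef hA t
  have h2 := hp _ h1.proj (fun k => by
    rw [Set.mem_ofPred_eq]
    refine ⟨c k, ?_⟩
    convert mem_ppHull A t k using 1
    funext i
    rcases i with i | i <;> rfl)
  obtain ⟨d, hd⟩ := h2
  refine ⟨d, ?_⟩
  intro S hS hk
  let f : ↥(insert (c, d) p) → ↥p ⊕ Unit := fun i =>
    if h : i.1 ∈ p then Sum.inl ⟨i.1, h⟩ else Sum.inr ()
  have hf1 : ∀ i, t (f i) = i.1.1 := by
    rintro ⟨i, hi⟩
    simp only [f]
    split_ifs with h
    · rfl
    · rw [Finset.mem_insert] at hi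
      rcases hi with rfl | hi
      · rfl
      · exact absurd hi h
  have hf2 : ∀ i, Sum.elim (fun i : ↥p => i.1.2) (fun _ => d) (f i) = i.1.2 := by
    rintro ⟨i, hi⟩
    simp only [f]
    split_ifs with h
    · rfl
    · rw [Finset.mem_insert] at hi
      rcases hi with rfl | hi
      · rfl
      · exact absurd hi h
  have h3 := hd _ (hS.reindex f) (fun k => by
    rw [Set.mem_ofPred_eq]
    convert hk k using 1
    funext i
    show t (f i) k = _
    rw [hf1])
  rw [Set.mem_ofPred_eq] at h3
  convert h3 using 1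
  funext i
  rw [hf2]

/-- Every partial map preserving pp-formulas extends to a polymorphism. -/
theorem GoodPart.exists_pol {A : L.Structure M} [Countable M] (hA : Oligo A) {K : Type} [Finite K]
    {p : Finset ((K → M) × M)} (hp : GoodPart A p) :
    ∃ g : (K → M) → M, IsPol A g ∧ ∀ q ∈ p, g q.1 = q.2 := by
  classical
  have : Encodable (K → M) := Encodable.ofCountable _
  let P := {p : Finset ((K → M) × M) // GoodPart A p}
  let 𝒟 : (K → M) → Order.Cofinal P := fun c =>
    { carrier := {q | ∃ d, (c, d) ∈ q.1}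
      isCofinal := by
        intro q
        obtain ⟨d, hd⟩ := q.2.extend hA c
        refine ⟨⟨insert (c, d) q.1, hd⟩, ⟨d, Finset.mem_insert_self _ _⟩, ?_⟩
        exact Finset.subset_insert _ _ }
  let I := Order.idealOfCofinals (⟨p, hp⟩ : P) 𝒟
  have h1 : ∀ c : K → M, ∃ d : M, ∃ q : P, q ∈ I ∧ (c, d) ∈ q.1 := by
    intro c
    obtain ⟨q, ⟨d, hd⟩, hq⟩ := Order.cofinal_meets_idealOfCofinals (⟨p, hp⟩ : P) 𝒟 c
    exact ⟨d, q, hq, hd⟩
  choose g q hq hg using h1
  -- finitely many members of the ideal have a common upper bound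
  have h2 : ∀ (n : ℕ) (r : Fin n → P), (∀ i, r i ∈ I) → ∃ u : P, u ∈ I ∧ ∀ i, r i ≤ u := by
    intro n
    induction n with
    | zero =>
      intro r _
      exact ⟨⟨p, hp⟩, Order.mem_idealOfCofinals _ _, fun i => i.elim0⟩
    | succ n ih =>
      intro r hr
      obtain ⟨u, hu, hu'⟩ := ih (fun i => r i.castSucc) (fun i => hr _)
      obtain ⟨w, hw, h3, h4⟩ := I.directed _ hu _ (hr (Fin.last n))
      refine ⟨w, hw, fun i => ?_⟩
      refine Fin.lastCases ?_ (fun j => ?_) i
      · exact h4
      · exact le_trans (hu' j) h3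
  refine ⟨g, ?_, ?_⟩
  · intro n R x hx
    obtain ⟨u, hu, hu'⟩ := h2 n (fun i => q (x i)) (fun i => hq _)
    refine u.2.family x (fun i => g (x i)) (fun i => hu' i (hg _))
      (S := {s | A.RelMap R s}) ?_ hx
    exact PPDef.rel A R id
  · intro c hc
    obtain ⟨w, hw, h3, h4⟩ := I.directed _ (Order.mem_idealOfCofinals (⟨p, hp⟩ : P) 𝒟)
      _ (hq c.1)
    have h5 : (c.1, g c.1) ∈ w.1 := h4 (hg c.1)
    have h6 : (c.1, c.2) ∈ w.1 := h3 hc
    have := w.2.family (I := Bool) (fun _ => c.1) (fun b => if b then g c.1 else c.2)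
      (fun b => by cases b <;> simp [h5, h6]) (PPDef.eq A true false) (fun k => rfl)
    simpa using this

/-- The values of polymorphisms on a finite family of arguments form a pp-definable set. -/
theorem ppDef_values {A : L.Structure M} [Countable M] (hA : Oligo A) {I K : Type} [hI : Finite I]
    [Finite K] (t : I → K → M) :
    PPDef A {s : I → M | ∃ g : (K → M) → M, IsPol A g ∧ ∀ i, s i = g (t i)} := by
  classical
  have := Fintype.ofFinite I
  convert ppHull_ppDef hA t using 1
  ext s
  constructor
  · rintro ⟨g, hg, hs⟩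
    intro S hS hk
    have := hg.ppDef hS t hk
    convert this using 1
    funext i
    exact hs i
  · intro hs
    obtain ⟨g, hg, hg'⟩ := (GoodPart.of_family t s hs).exists_pol hA
    refine ⟨g, hg, fun i => ?_⟩
    exact (hg' (t i, s i) (Finset.mem_image_of_mem _ (Finset.mem_univ i))).symm

end Pool.Agent.H845.Stub
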