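import Pool.Agent.H845.StubModel

/-!
Every model-complete core interdefinable with `BS` pp-constructs all finite structures.
-/

namespace Pool.Agent.H845.Stub

open FirstOrder FirstOrder.Language

/-! ### Invariance of definable sets -/

theorem IsAut.foDef {L : FirstOrder.Language.{0, 0}} (hL : L.IsRelational) {M : Type}
    {A : L.Structure M} {g : M ≃ M} (hg : IsAut A g) {I : Type} {S : Set (I → M)}
    (hS : FODef A S) (t : I → M) : (fun i => g (t i)) ∈ S ↔ t ∈ S := by
  letI := A
  obtain ⟨φ, rfl⟩ := Set.empty_definable_iff.1 hS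
  let e : M ≃[L] M :=
    { toEquiv := g
      map_fun' := fun {n} f => (hL n).elim f
      map_rel' := fun {n} R x => hg n R x }
  exact StrongHomClass.realize_formula e φ (v := t)

theorem IsReduct.aut {L L' : FirstOrder.Language.{0, 0}} (hL : L.IsRelational) {M : Type}
    {A' : L'.Structure M} {A : L.Structure M} (h : IsReduct A' A) {g : M ≃ M}
    (hg : IsAut A g) : IsAut A' g :=
  fun n R x => hg.foDef hL (h n R) x

theorem foDef_rel {L : FirstOrder.Language.{0, 0}} {M : Type} (A : L.Structure M) {n : ℕ}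
    (R : L.Relations n) : FODef A {x : Fin n → M | A.RelMap R x} := by
  letI := A
  refine Set.empty_definable_iff.2 ⟨R.formula (fun i => Term.var i), ?_⟩
  ext x
  simp only [Set.mem_ofPred_eq, Formula.realize_rel, Term.realize_var]

theorem IsReduct.refl {L : FirstOrder.Language.{0, 0}} {M : Type} (A : L.Structure M) :
    IsReduct A A := fun _ R => foDef_rel A R

/-! ### Directions -/

/-- `Step b x y`: `x <₁ y` and the `<₂`-direction from `x` to `y` is up iff `b = true`. -/
def Step (b : Bool) (x y : D) : Prop := f1 x < f1 y ∧ if b then f2 x < f2 y else f2 y < f2 x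

theorem Step.unique {b c : Bool} {x y : D} (h : Step b x y) (h' : Step c x y) : b = c := by
  cases b <;> cases c <;> simp only [Step, if_true, if_false, Bool.false_eq_true] at h h' ⊢
  · exact absurd h.2 (not_lt_of_gt h'.2)
  · exact absurd h.2 (not_lt_of_gt h'.2)

theorem Step.trans {b : Bool} {x y z : D} (h : Step b x y) (h' : Step b y z) : Step b x z := by
  cases b <;> simp only [Step, if_true, if_false, Bool.false_eq_true] at h h' ⊢
  · exact ⟨h.1.trans h'.1, h'.2.trans h.2⟩
  · exact ⟨h.1.trans h'.1, h.2.trans h'.2⟩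

theorem pt (a b : ℝ) : ∃ z : D, a < f1 z ∧ f1 z < a + 1 ∧ b < f2 z ∧ f2 z < b + 1 :=
  dens (by linarith) (by linarith)

theorem step_above (b : Bool) (p q : D) : ∃ z, Step b p z ∧ Step b q z := by
  cases b
  · obtain ⟨z, h1, h2, h3, h4⟩ := pt (max (f1 p) (f1 q)) (min (f2 p) (f2 q) - 1)
    have := le_max_left (f1 p) (f1 q)
    have := le_max_right (f1 p) (f1 q)
    have := min_le_left (f2 p) (f2 q)
    have := min_le_right (f2 p) (f2 q)
    refine ⟨z, ⟨by linarith, ?_⟩, ⟨by linarith, ?_⟩⟩ <;>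
      simp only [if_false, Bool.false_eq_true] <;> linarith
  · obtain ⟨z, h1, h2, h3, h4⟩ := pt (max (f1 p) (f1 q)) (max (f2 p) (f2 q))
    have := le_max_left (f1 p) (f1 q)
    have := le_max_right (f1 p) (f1 q)
    have := le_max_left (f2 p) (f2 q)
    have := le_max_right (f2 p) (f2 q)
    refine ⟨z, ⟨by linarith, ?_⟩, ⟨by linarith, ?_⟩⟩ <;>
      simp only [if_true] <;> linarith

theorem step_below (b : Bool) (p q : D) : ∃ z, Step b z p ∧ Step b z q := by
  cases b
  · obtain ⟨z, h1, h2, h3, h4⟩ := pt (min (f1 p) (f1 q) - 1) (max (f2 p) (f2 q))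
    have := min_le_left (f1 p) (f1 q)
    have := min_le_right (f1 p) (f1 q)
    have := le_max_left (f2 p) (f2 q)
    have := le_max_right (f2 p) (f2 q)
    refine ⟨z, ⟨by linarith, ?_⟩, ⟨by linarith, ?_⟩⟩ <;>
      simp only [if_false, Bool.false_eq_true] <;> linarith
  · obtain ⟨z, h1, h2, h3, h4⟩ := pt (min (f1 p) (f1 q) - 1) (min (f2 p) (f2 q) - 1)
    have := min_le_left (f1 p) (f1 q)
    have := min_le_right (f1 p) (f1 q)
    have := min_le_left (f2 p) (f2 q)
    have := min_le_right (f2 p) (f2 q)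
    refine ⟨z, ⟨by linarith, ?_⟩, ⟨by linarith, ?_⟩⟩ <;>
      simp only [if_true] <;> linarith

theorem exists_out (b : Bool) : ∃ u v w : D, Step (!b) u v ∧ Step b u w ∧ f1 v < f1 w := by
  obtain ⟨u, hu1, hu2, hu3, hu4⟩ := pt 0 0
  cases b
  · obtain ⟨v, hv1, hv2, hv3, hv4⟩ := pt 1 1
    obtain ⟨w, hw1, hw2, hw3, hw4⟩ := pt 2 (-2)
    refine ⟨u, v, w, ⟨by linarith, ?_⟩, ⟨by linarith, ?_⟩, by linarith⟩
    · simp only [Bool.not_false, if_true]; linarith
    · simp only [if_false, Bool.false_eq_true]; linarith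
  · obtain ⟨v, hv1, hv2, hv3, hv4⟩ := pt 1 (-2)
    obtain ⟨w, hw1, hw2, hw3, hw4⟩ := pt 2 2
    refine ⟨u, v, w, ⟨by linarith, ?_⟩, ⟨by linarith, ?_⟩, by linarith⟩
    · simp only [Bool.not_true, if_false, Bool.false_eq_true]; linarith
    · simp only [if_true]; linarith

theorem exists_nae (a b c : Bool) (h : ¬ (a = b ∧ b = c)) :
    ∃ p q r : D, Step a p q ∧ Step b q r ∧ Step (!c) p r := by
  obtain ⟨p, hp1, hp2, hp3, hp4⟩ := pt 0 0
  have key : ∀ (s t : ℝ), (if a then 1 ≤ s else s + 1 ≤ 0) → (if b then s + 1 ≤ t else t + 1 ≤ s) →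
      (if !c then 1 ≤ t else t + 1 ≤ 0) → ∃ p q r : D, Step a p q ∧ Step b q r ∧ Step (!c) p r := by
    intro s t h1 h2 h3
    obtain ⟨q, hq1, hq2, hq3, hq4⟩ := pt 1 s
    obtain ⟨r, hr1, hr2, hr3, hr4⟩ := pt 2 t
    refine ⟨p, q, r, ⟨by linarith, ?_⟩, ⟨by linarith, ?_⟩, ⟨by linarith, ?_⟩⟩
    · cases a <;> simp only [if_true, if_false, Bool.false_eq_true] at h1 ⊢ <;> linarith
    · cases b <;> simp only [if_true, if_false, Bool.false_eq_true] at h2 ⊢ <;> linarith
    · cases c <;> simp only [if_true, if_false, Bool.false_eq_true, Bool.not_true, Bool.not_false]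
        at h3 ⊢ <;> linarith
  cases a <;> cases b <;> cases c
  · exact absurd ⟨rfl, rfl⟩ h
  · exact key (-10) (-20) (by norm_num) (by norm_num) (by norm_num)
  · exact key (-10) 5 (by norm_num) (by norm_num) (by norm_num)
  · exact key (-10) (-5) (by norm_num) (by norm_num) (by norm_num)
  · exact key 10 5 (by norm_num) (by norm_num) (by norm_num)
  · exact key 10 (-5) (by norm_num) (by norm_num) (by norm_num)
  · exact key 10 20 (by norm_num) (by norm_num) (by norm_num)
  · exact absurd ⟨rfl, rfl⟩ h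

/-! ### Polymorphisms preserve orbits -/

/-- The hypotheses on a structure `B'` used below: it has the same automorphisms as `BS` and its
automorphisms are dense in its endomorphisms. -/
structure Good {L' : FirstOrder.Language.{0, 0}} (B' : L'.Structure D) : Prop where
  aut1 : ∀ g, IsAut BS g → IsAut B' g
  aut2 : ∀ g, IsAut B' g → IsAut BS g
  dense : ∀ h : D → D, IsHom B' B' h → ∀ S : Finset D, ∃ g : D ≃ D, IsAut B' g ∧ ∀ x ∈ S, g x = h x

theorem Good.pol_orbit {L' : FirstOrder.Language.{0, 0}} {B' : L'.Structure D} (hB : Good B')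
    {K : Type} {g : (K → D) → D} (hg : IsPol B' g) {I : Type} [Finite I] (t₀ : I → D)
    (t : I → K → D) (h : ∀ k, ∃ α : D ≃ D, IsAut BS α ∧ ∀ i, α (t₀ i) = t i k) :
    ∃ β : D ≃ D, IsAut BS β ∧ ∀ i, β (t₀ i) = g (t i) := by
  classical
  have := Fintype.ofFinite I
  choose α hα hα' using h
  have hu : IsHom B' B' (fun x => g (fun k => α k x)) := by
    intro n R x hx
    exact hg n R (fun i k => α k (x i)) (fun k => (hB.aut1 _ (hα k) n R x).2 hx)
  obtain ⟨γ, hγ, hγ'⟩ := hB.dense _ hu (Finset.univ.image t₀)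
  refine ⟨γ, hB.aut2 _ hγ, fun i => ?_⟩
  rw [hγ' (t₀ i) (Finset.mem_image_of_mem _ (Finset.mem_univ i))]
  congr 1
  funext k
  exact hα' k i

theorem orbit3 (t t' : Fin 3 → D) (b : Bool)
    (h1 : f1 (t 0) < f1 (t 1)) (h2 : f1 (t 1) < f1 (t 2))
    (h1' : f1 (t' 0) < f1 (t' 1)) (h2' : f1 (t' 1) < f1 (t' 2))
    (h01 : C2 (some b) (t 0, t' 0) (t 1, t' 1)) (h10 : C2 (some b) (t 1, t' 1) (t 0, t' 0))
    (h12 : C2 (some b) (t 1, t' 1) (t 2, t' 2)) (h21 : C2 (some b) (t 2, t' 2) (t 1, t' 1))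
    (h02 : C2 (some b) (t 0, t' 0) (t 2, t' 2)) (h20 : C2 (some b) (t 2, t' 2) (t 0, t' 0)) :
    ∃ g : D ≃ D, IsAut BS g ∧ ∀ i, g (t i) = t' i := by
  have h3 := h1.trans h2
  have h3' := h1'.trans h2'
  apply orbit_BS t t' b
  · intro i j
    fin_cases i <;> fin_cases j <;>
      simp only [Fin.zero_eta, Fin.mk_one, Fin.reduceFinMk, lt_irrefl, h1, h2, h3, h1', h2', h3',
        not_lt_of_gt h1, not_lt_of_gt h2, not_lt_of_gt h3, not_lt_of_gt h1', not_lt_of_gt h2',
        not_lt_of_gt h3']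
  · intro i j
    have hr : ∀ i, C2 (some b) (t i, t' i) (t i, t' i) := by
      intro i
      cases b <;> simp [C2]
    fin_cases i <;> fin_cases j
    · exact hr 0
    · exact h01
    · exact h02
    · exact h10
    · exact hr 1
    · exact h12
    · exact h20
    · exact h21
    · exact hr 2

theorem C2_of_step {b c : Bool} {x y x' y' : D} (h : Step b x y) (h' : Step (!(xor b c)) x' y') :
    C2 (some c) (x, x') (y, y') ∧ C2 (some c) (y, y') (x, x') := by
  cases b <;> cases c <;>
    simp only [Step, C2, if_true, if_false, Bool.false_eq_true, Bool.xor_true, Bool.xor_false,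
      Bool.not_true, Bool.not_false] at h h' ⊢ <;>
    simp only [h.2, h'.2, not_lt_of_gt h.2, not_lt_of_gt h'.2, true_and, and_self, iff_self]

/-- Monotone triples are mapped to monotone triples. -/
theorem Good.inc_image {L' : FirstOrder.Language.{0, 0}} {B' : L'.Structure D} (hB : Good B')
    {K : Type} {g : (K → D) → D} (hg : IsPol B' g) (x : K → Bool) (u v w : K → D)
    (h1 : ∀ k, Step (x k) (u k) (v k)) (h2 : ∀ k, Step (x k) (v k) (w k)) :
    ∃ τ, Step τ (g u) (g v) ∧ Step τ (g v) (g w) := by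
  obtain ⟨a, _⟩ := pt 0 0
  obtain ⟨b, hb, _⟩ := step_above true a a
  obtain ⟨c, hc, _⟩ := step_above true b b
  let t₀ : Fin 3 → D := ![a, b, c]
  let t : Fin 3 → K → D := ![u, v, w]
  obtain ⟨β, hβ, hβ'⟩ := hB.pol_orbit hg t₀ t (by
    intro k
    have hb1 := C2_of_step (c := x k) (x' := u k) (y' := v k) hb (by simpa using h1 k)
    have hb2 := C2_of_step (c := x k) (x' := v k) (y' := w k) hc (by simpa using h2 k)
    have hb3 := C2_of_step (c := x k) (x' := u k) (y' := w k) (hb.trans hc)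
      (by simpa using (h1 k).trans (h2 k))
    exact orbit3 t₀ (fun i => t i k) (x k) hb.1 hc.1 (h1 k).1 (h2 k).1 hb1.1 hb1.2 hb2.1 hb2.2
      hb3.1 hb3.2)
  have e0 : β a = g u := hβ' 0
  have e1 : β b = g v := hβ' 1
  have e2 : β c = g w := hβ' 2
  have r1 : f1 (g u) < f1 (g v) := by
    have := (hβ 2 BRel.lt ![a, b]).2 hb.1
    rw [← e0, ← e1]; exact this
  have r2 : f1 (g v) < f1 (g w) := by
    have := (hβ 2 BRel.lt ![b, c]).2 hc.1
    rw [← e1, ← e2]; exact this
  have r3 : Betw (g u) (g v) (g w) := by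
    have := (hβ 3 BRel.bt ![a, b, c]).2 (Or.inl ⟨hb.2, hc.2⟩)
    rw [← e0, ← e1, ← e2]; exact this
  rcases r3 with r3 | r3
  · exact ⟨true, ⟨r1, r3.1⟩, ⟨r2, r3.2⟩⟩
  · exact ⟨false, ⟨r1, r3.2⟩, ⟨r2, r3.1⟩⟩

theorem Good.out_image {L' : FirstOrder.Language.{0, 0}} {B' : L'.Structure D} (hB : Good B')
    {K : Type} {g : (K → D) → D} (hg : IsPol B' g) (x : K → Bool) (u v w : K → D)
    (h1 : ∀ k, Step (!(x k)) (u k) (v k)) (h2 : ∀ k, Step (x k) (u k) (w k))
    (h3 : ∀ k, f1 (v k) < f1 (w k)) :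
    ∃ τ, Step (!τ) (g u) (g v) ∧ Step τ (g u) (g w) := by
  obtain ⟨a, b, c, hab, hac, hbc⟩ := exists_out true
  have hbc' : f2 b < f2 c := lt_trans hab.2 hac.2
  let t₀ : Fin 3 → D := ![a, b, c]
  let t : Fin 3 → K → D := ![u, v, w]
  obtain ⟨β, hβ, hβ'⟩ := hB.pol_orbit hg t₀ t (by
    intro k
    have hb1 := C2_of_step (c := x k) (x' := u k) (y' := v k) hab (by simpa using h1 k)
    have hb3 := C2_of_step (c := x k) (x' := u k) (y' := w k) hac (by simpa using h2 k)
    have hvw : Step (x k) (v k) (w k) := by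
      have e1 := h1 k
      have e2 := h2 k
      have e3 := h3 k
      cases hx : x k <;>
        simp only [hx, Step, if_true, if_false, Bool.false_eq_true, Bool.not_true,
          Bool.not_false] at e1 e2 ⊢
      · exact ⟨e3, e2.2.trans e1.2⟩
      · exact ⟨e3, e1.2.trans e2.2⟩
    have hb2 := C2_of_step (b := true) (c := x k) (x := b) (y := c) (x' := v k) (y' := w k)
      ⟨hbc, hbc'⟩ (by simpa using hvw)
    exact orbit3 t₀ (fun i => t i k) (x k) hab.1 hbc (h1 k).1 (h3 k) hb1.1 hb1.2 hb2.1 hb2.2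
      hb3.1 hb3.2)
  have e0 : β a = g u := hβ' 0
  have e1 : β b = g v := hβ' 1
  have e2 : β c = g w := hβ' 2
  have r1 : f1 (g u) < f1 (g v) := by
    have := (hβ 2 BRel.lt ![a, b]).2 hab.1
    rw [← e0, ← e1]; exact this
  have r2 : f1 (g u) < f1 (g w) := by
    have := (hβ 2 BRel.lt ![a, c]).2 hac.1
    rw [← e0, ← e2]; exact this
  have r3 : Betw (g v) (g u) (g w) := by
    have := (hβ 3 BRel.bt ![b, a, c]).2 (Or.inl ⟨hab.2, hac.2⟩)
    rw [← e0, ← e1, ← e2]; exact this
  rcases r3 with r3 | r3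
  · exact ⟨true, ⟨r1, r3.1⟩, ⟨r2, r3.2⟩⟩
  · exact ⟨false, ⟨r1, r3.2⟩, ⟨r2, r3.1⟩⟩

/-- The sign of a polymorphism is well defined. -/
theorem Good.sign {L' : FirstOrder.Language.{0, 0}} {B' : L'.Structure D} (hB : Good B')
    {K : Type} {g : (K → D) → D} (hg : IsPol B' g) (x : K → Bool) (p q p' q' : K → D)
    (h : ∀ k, Step (x k) (p k) (q k)) (h' : ∀ k, Step (x k) (p' k) (q' k)) :
    ∃ τ, Step τ (g p) (g q) ∧ Step τ (g p') (g q') := by
  choose z hz hz' using fun k => step_above (x k) (q k) (q' k)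
  choose w hw hw' using fun k => step_below (x k) (p k) (p' k)
  obtain ⟨τ1, a1, a2⟩ := hB.inc_image hg x w p z hw (fun k => (h k).trans (hz k))
  obtain ⟨τ2, b1, b2⟩ := hB.inc_image hg x p q z h hz
  obtain ⟨τ3, c1, c2⟩ := hB.inc_image hg x w p' z hw' (fun k => (h' k).trans (hz' k))
  obtain ⟨τ4, d1, d2⟩ := hB.inc_image hg x p' q' z h' hz'
  have e1 : τ2 = τ1 := (b1.trans b2).unique a2
  have e2 : τ3 = τ1 := (c1.trans c2).unique (a1.trans a2)
  have e3 : τ4 = τ3 := (d1.trans d2).unique c2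
  exact ⟨τ1, e1 ▸ b1, by rw [← e2, ← e3]; exact d1⟩

/-- Base points. -/
def pL (_ : Bool) : D := (0, 0)

/-- Base points. -/
def pR (b : Bool) : D := if b then (1, 0) else (0, 1)

theorem step_base (b : Bool) : Step b (pL b) (pR b) := by
  have hs0 : (0 : ℝ) < √2 := by positivity
  cases b
  · refine ⟨?_, ?_⟩ <;> simp [f1, f2, pL, pR, hs0]
  · refine ⟨?_, ?_⟩ <;> simp [f1, f2, pL, pR]

open Classical in
/-- The sign function of an operation. -/
noncomputable def sgn {K : Type} (g : (K → D) → D) (x : K → Bool) : Bool :=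
  decide (f2 (g fun k => pL (x k)) < f2 (g fun k => pR (x k)))

theorem Good.sgn_spec {L' : FirstOrder.Language.{0, 0}} {B' : L'.Structure D} (hB : Good B')
    {K : Type} {g : (K → D) → D} (hg : IsPol B' g) (x : K → Bool) (p q : K → D)
    (h : ∀ k, Step (x k) (p k) (q k)) : Step (sgn g x) (g p) (g q) := by
  obtain ⟨τ, h1, h2⟩ := hB.sign hg x p q (fun k => pL (x k)) (fun k => pR (x k)) h
    (fun k => step_base (x k))
  have : sgn g x = τ := by
    unfold sgn
    cases τ
    · rw [decide_eq_false_iff_not]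
      exact not_lt_of_gt h2.2
    · rw [decide_eq_true_iff]
      exact h2.2
  rw [this]
  exact h1

theorem Good.sgn_neg {L' : FirstOrder.Language.{0, 0}} {B' : L'.Structure D} (hB : Good B')
    {K : Type} {g : (K → D) → D} (hg : IsPol B' g) (x : K → Bool) :
    sgn g (fun k => !(x k)) = !(sgn g x) := by
  choose u v w h1 h2 h3 using fun k => exists_out (x k)
  obtain ⟨τ, a1, a2⟩ := hB.out_image hg x u v w h1 h2 h3
  have b1 := (hB.sgn_spec hg (fun k => !(x k)) u v h1).unique a1
  have b2 := (hB.sgn_spec hg x u w h2).unique a2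
  rw [b1, b2]

theorem Good.dictator {L' : FirstOrder.Language.{0, 0}} {B' : L'.Structure D} (hB : Good B')
    {K : Type} [Finite K] {g : (K → D) → D} (hg : IsPol B' g) :
    ∃ (k : K) (c : Bool), ∀ x, sgn g x = xor c (x k) := by
  apply nae_dictator
  intro x y z hxyz hcon
  choose p q r h1 h2 h3 using fun k => exists_nae (x k) (y k) (z k) (hxyz k)
  have a1 := hB.sgn_spec hg x p q h1
  have a2 := hB.sgn_spec hg y q r h2
  have a3 := hB.sgn_spec hg (fun k => !(z k)) p r h3
  rw [hcon.1] at a1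
  have a4 := (a1.trans a2).unique a3
  rw [hB.sgn_neg hg z, hcon.2] at a4
  revert a4
  cases sgn g z <;> simp

/-! ### pp-constructions -/

theorem Good.oligo {L' : FirstOrder.Language.{0, 0}} {B' : L'.Structure D} (hB : Good B') :
    Oligo B' := by
  intro I hI
  obtain ⟨κ, hκ, c, hc⟩ := oligo_BS I hI
  refine ⟨κ, hκ, c, fun s s' h => ?_⟩
  obtain ⟨g, hg, hg'⟩ := hc s s' h
  exact ⟨g, hB.aut1 g hg, hg'⟩

/-- The point of `D ^ N` with index `c`. -/
def base {N : Type} (c : (N → Bool) × Bool) (a : N) : D := if c.2 then pR (c.1 a) else pL (c.1 a)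

open Classical in
theorem Good.constructs {L' : FirstOrder.Language.{0, 0}} {B' : L'.Structure D} (hB : Good B') :
    PPConstructsAllFinite B' := by
  intro L₂ hL₂ N hN hN' D₂
  have := Fintype.ofFinite N
  obtain ⟨d, ⟨eC⟩⟩ := Finite.exists_equiv_fin ((N → Bool) × Bool)
  have hd : 0 < d := by
    have := (eC (fun _ => true, true)).2
    omega
  let P : L₂.Structure (Fin d → D) :=
    { funMap := fun {n} f => (hL₂ n).elim f
      RelMap := fun {n} R v => ∃ g : ({t : Fin n → N // D₂.RelMap R t} → D) → D, IsPol B' g ∧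
        ∀ (l : Fin n) (j : Fin d), v l j = g (fun t => base (eC.symm j) (t.1 l)) }
  refine ⟨d, hd, P, ?_, ?_, ?_⟩
  · intro n R
    convert ppDef_values hB.oligo (I := Fin n × Fin d)
      (K := {t : Fin n → N // D₂.RelMap R t})
      (fun i t => base (eC.symm i.2) (t.1 i.1)) using 1
    ext s
    constructor
    · rintro ⟨g, hg, h⟩
      exact ⟨g, hg, fun i => h i.1 i.2⟩
    · rintro ⟨g, hg, h⟩
      exact ⟨g, hg, fun l j => h (l, j)⟩
  · -- the homomorphism from the power to `D₂`
    let sv : (Fin d → D) → (N → Bool) → Bool := fun v x =>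
      decide (f2 (v (eC (x, false))) < f2 (v (eC (x, true))))
    let idx : (Fin d → D) → N := fun v =>
      if h : ∃ a : N, ∃ c : Bool, ∀ x, sv v x = xor c (x a) then h.choose else Classical.arbitrary N
    have hidx : ∀ v a c, (∀ x, sv v x = xor c (x a)) → idx v = a := by
      intro v a c hv
      have hex : ∃ a : N, ∃ c : Bool, ∀ x, sv v x = xor c (x a) := ⟨a, c, hv⟩
      obtain ⟨c', hc'⟩ := hex.choose_spec
      have hi : idx v = hex.choose := dif_pos hex
      rw [hi]
      by_contra hne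
      have e1 := hv (fun y => decide (y = a))
      have e2 := hc' (fun y => decide (y = a))
      have e3 := hv (fun _ => false)
      have e4 := hc' (fun _ => false)
      simp only [hne, decide_false, decide_true, Bool.xor_false, Bool.xor_true] at e1 e2 e3 e4
      rw [e1] at e2
      rw [e3] at e4
      rw [e4] at e2
      revert e2
      cases c' <;> simp
    refine ⟨idx, ?_⟩
    intro n R v hv
    obtain ⟨g, hg, hgv⟩ := hv
    obtain ⟨k, c, hk⟩ := hB.dictator hg
    have h1 : ∀ l, idx (v l) = k.1 l := by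
      intro l
      apply hidx (v l) (k.1 l) c
      intro x
      have := hk (fun t => x (t.1 l))
      rw [← this]
      show decide _ = decide _
      rw [hgv l, hgv l]
      simp [base]
    have h2 : (fun i => idx (v i)) = k.1 := funext h1
    rw [h2]
    exact k.2
  · -- the homomorphism from `D₂` to the power
    refine ⟨fun a j => base (eC.symm j) a, ?_⟩
    intro n R x hx
    refine ⟨fun y => y ⟨x, hx⟩, ?_, fun l j => rfl⟩
    intro m Q y hy
    exact hy _

theorem BS_stubborn_core : ∀ (L' : FirstOrder.Language.{0, 0}), L'.IsRelational →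
    ∀ B' : L'.Structure D, Interdefinable B' BS → IsMCCore B' → PPConstructsAllFinite B' := by
  intro L' hL' B' h1 h2
  have hLB : LB.IsRelational := fun _ => inferInstanceAs (IsEmpty Empty)
  have : Good B' :=
    { aut1 := fun g hg => h1.1.aut hLB hg
      aut2 := fun g hg => h1.2.aut hL' hg
      dense := h2.2 }
  exact this.constructs

end Pool.Agent.H845.Stub
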